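import Pool.Agent.MOM.Rec.RecB

/-!
MOM, section 3: the recursion. Let `G_j(S, L) = {t : |t| ≤ C1 X, e^{-α_j L} ≤ |Q_S(t)|} \ UU`.

`one_step`: assume the bound of `rec_claim` (with the constant `K`) for all children, i.e. for
`j + 1` and all cells `u ∈ [st0, st1)` of the resolution `H = stH β_j L`. Then the integral over
`G_j(S, L)` is at most `C (1+C1) e^{-β_j L/4} + K/2 e^{-β_j L/4}`. Proof: `G_j(S, L)` is
the union of `D = {t ∈ G_j : ∀ u, |Q_u(t)| ≤ e^{-α_{j+1} u/H}}` and the sets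
`D_u = {t ∈ G_j : e^{-α_{j+1} u/H} ≤ |Q_u(t)|} ⊆ G_{j+1}(cell H u, u/H)`, `u ∈ [st0, st1)`. On `D` use
`step` (`be = β_j`, `al = α_j ≤ 2 a0 ≤ 1/8`, `α_{j+1} = α_j + 4β_j` is `alj_succ`,
`β_j ≤ a0/8 ≤ 1/128`), on `D_u` the hypothesis: total `K ∑_u e^{-β_{j+1} (u/H)/4} ≤ (K/2) e^{-β_j L/4}`
(`bej_succ`, `num_sum`). (Integral over a finite union at most the sum of the integrals, nonnegative
integrand, continuous on the bounded interval: `MeasureTheory.setIntegral_mono_set`,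
`integral_union` or via `lintegral`/indicator functions.)

`measurableSet_UU`: for fixed `X` only finitely many `a` with `a ≤ exp sqrt(log X)`, and for each of
them finitely many `b ≤ 2a`; for fixed `a, b` the set is closed.

`empty_case`: if `(log X)^{4/a0} ≤ e^{u/H}`, `H ≤ e^{u/H}`, `(u+1)/H ≤ sqrt(log X)`, `2 ≤ H`,
`4 ≤ e^{u/H}` then `G_j(cell H u, u/H) = ∅`: take `a = ⌈e^{u/H}⌉₊`, `b = ⌈e^{(u+1)/H}⌉₊`. Then
`a ≤ e^{u/H} + 1 ≤ e^{u/H} + e^{u/H}/H ≤ e^{(u+1)/H} ≤ exp sqrt(log X)`,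
`b ≤ e^{(u+1)/H} + 1 ≤ 1.65 e^{u/H} + 1 ≤ 2a`, and `a^{-2a0} ≤ e^{-2 a0 u/H} ≤ e^{-α_j u/H} ≤ |Q|`
(`alj_le`, `cell_eq`). So every such `t` is in `UU`.

`rec_claim`: induction on `n` for the statement with the additional hypothesis
`(log X)^{4/a0} ≤ 2^n e^{u/H}`, for all `j, H, u`, with `K = 2C(1+C1)`. If
`(log X)^{4/a0} ≤ e^{u/H}`: `empty_case`. Otherwise (so `n ≥ 1`) `L = u/H` has
`e^{β_j L} ≤ ((log X)^{4/a0})^{β_j} ≤ (log X)^{1/2}` since `4 β_j/a0 = 2^{-j-1} ≤ 1/2` and `log X ≥ 1`;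
use `one_step`: the children satisfy the hypotheses by `num_child_H`, `num_child_L`, `num_upp`
(`(v+1)/H' ≤ e^{β_j L} ≤ sqrt(log X)`), `num_H`, and `2^{n-1} e^{v/H'} ≥ 2^n e^{u/H}` by `num_child_P`.
`rec_root`: `one_step` for `j = 0` and `rec_claim` for the children.

THIS FILE: `rec_claim`, `rec_root`.
-/

set_option autoImplicit false

namespace Pool.Agent.MOM

open Finset MeasureTheory Real

private theorem rc_half : exp ((1 : ℝ) / 2) ≤ 2 := by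
  have h1 : exp ((1 : ℝ) / 2) ^ 2 = exp 1 := by
    rw [← Real.exp_nat_mul]; congr 1; norm_num
  have h2 := Real.exp_one_lt_d9
  have h3 : 0 < exp ((1 : ℝ) / 2) := exp_pos _
  nlinarith

private theorem rc_cell {H u p : ℕ} (hH : 2 ≤ H) (hp : p ∈ cell H u) :
    p.Prime ∧ exp ((u : ℝ) / H) ≤ p ∧ (p : ℝ) ≤ 2 * exp ((u : ℝ) / H) := by
  rw [mem_cell] at hp
  refine ⟨hp.2, hp.1.1, hp.1.2.le.trans ?_⟩
  have hH' : (2 : ℝ) ≤ H := by exact_mod_cast hH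
  have h1 : ((u : ℝ) + 1) / H = (1 : ℝ) / H + (u : ℝ) / H := by ring
  rw [h1, exp_add]
  have h2 : (1 : ℝ) / H ≤ 1 / 2 := one_div_le_one_div_of_le (by norm_num) hH'
  exact mul_le_mul_of_nonneg_right ((exp_le_exp.2 h2).trans rc_half) (exp_pos _).le

private theorem rc_le {a0 X w : ℝ} (h0 : 0 < a0) (hX : exp 1 ≤ X) (j : ℕ)
    (h : exp w ≤ log X ^ (4 / a0)) : exp (bej a0 j * w) ≤ sqrt (log X) := by
  have hXpos : 0 < X := lt_of_lt_of_le (exp_pos _) hX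
  have hlog : 1 ≤ log X := by
    rw [Real.le_log_iff_exp_le hXpos]; exact hX
  have hb := bej_pos h0 j
  have h1 : exp (bej a0 j * w) = exp w ^ bej a0 j := by
    rw [← Real.exp_mul, mul_comm]
  rw [h1]
  have h2 : exp w ^ bej a0 j ≤ (log X ^ (4 / a0)) ^ bej a0 j :=
    Real.rpow_le_rpow (exp_pos _).le h hb.le
  refine h2.trans ?_
  rw [← Real.rpow_mul (by linarith), Real.sqrt_eq_rpow]
  apply Real.rpow_le_rpow_of_exponent_le hlog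
  have h3 := bej_le h0 j
  have h4 : 4 / a0 * bej a0 j ≤ 4 / a0 * (a0 / 8) :=
    mul_le_mul_of_nonneg_left h3 (by positivity)
  have h5 : 4 / a0 * (a0 / 8) = 1 / 2 := by field_simp; norm_num
  linarith

private theorem rc_be {a0 : ℝ} (h0 : 0 < a0) (h1 : a0 ≤ 1 / 16) (j : ℕ) :
    bej a0 j ≤ 1 / 128 := by
  have := bej_le h0 j
  linarith

private theorem rc_four {a0 w : ℝ} (h0 : 0 < a0) (h1 : a0 ≤ 1 / 16) (j : ℕ)
    (hw : 1000 / bej a0 j ^ 2 ≤ w) : 4 ≤ exp w := by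
  have hb := bej_pos h0 j
  have hb1 := rc_be h0 h1 j
  have h2 : bej a0 j ^ 2 ≤ 1 := by nlinarith
  have h3 : (1000 : ℝ) ≤ 1000 / bej a0 j ^ 2 := by
    rw [le_div_iff₀ (by positivity)]
    nlinarith
  have h4 := Real.add_one_le_exp w
  linarith

private theorem rc_ind {C : ℝ} (hC : 0 < C) (hone : ∀ (a0 lam X C1 L K : ℝ) (j : ℕ)
    (S : Finset ℕ),
    0 < a0 → a0 ≤ 1 / 16 → 1 < lam → lam ≤ 2 → 0 ≤ C1 → 1 ≤ X → 0 ≤ K →
    1000 / bej a0 j ^ 2 ≤ L → exp (bej a0 j * L) ≤ sqrt (log X) →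
    (∀ p ∈ S, p.Prime ∧ exp L ≤ p ∧ (p : ℝ) ≤ 2 * exp L) →
    (∀ u ∈ Ico (st0 (bej a0 j) L) (st1 (bej a0 j) L),
      ∫ t in GG a0 C1 X (j + 1) (cell (stH (bej a0 j) L) u) ((u : ℝ) / stH (bej a0 j) L),
        ‖MX lam X t‖ ^ 2 ≤
          K * exp (-(bej a0 (j + 1) * ((u : ℝ) / stH (bej a0 j) L) / 4))) →
    ∫ t in GG a0 C1 X j S L, ‖MX lam X t‖ ^ 2 ≤
      (C * (1 + C1) + K / 2) * exp (-(bej a0 j * L / 4)))
    {a0 lam X C1 : ℝ} (h0 : 0 < a0) (h1 : a0 ≤ 1 / 16) (hl : 1 < lam) (hl2 : lam ≤ 2)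
    (hC1 : 0 ≤ C1) (hX : exp 1 ≤ X) (n : ℕ) :
    ∀ (j H u : ℕ), 2 ≤ H → (H : ℝ) ≤ exp ((u : ℝ) / H) →
    1000 / bej a0 j ^ 2 ≤ (u : ℝ) / H → ((u : ℝ) + 1) / H ≤ sqrt (log X) →
    log X ^ (4 / a0) ≤ 2 ^ n * exp ((u : ℝ) / H) →
    ∫ t in GG a0 C1 X j (cell H u) ((u : ℝ) / H), ‖MX lam X t‖ ^ 2 ≤
      2 * (C * (1 + C1)) * exp (-(bej a0 j * ((u : ℝ) / H) / 4)) := by
  have hempty : ∀ (j H u : ℕ), 2 ≤ H → (H : ℝ) ≤ exp ((u : ℝ) / H) →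
      1000 / bej a0 j ^ 2 ≤ (u : ℝ) / H → ((u : ℝ) + 1) / H ≤ sqrt (log X) →
      log X ^ (4 / a0) ≤ exp ((u : ℝ) / H) →
      ∫ t in GG a0 C1 X j (cell H u) ((u : ℝ) / H), ‖MX lam X t‖ ^ 2 ≤
        2 * (C * (1 + C1)) * exp (-(bej a0 j * ((u : ℝ) / H) / 4)) := by
    intro j H u hH hH2 hL hu hXl
    rw [empty_case h0 j hH hH2 (rc_four h0 h1 j hL) hu hXl, Measure.restrict_empty,
      integral_zero_measure]
    positivity
  induction n with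
  | zero =>
    intro j H u hH hH2 hL hu hXl
    rw [pow_zero, one_mul] at hXl
    exact hempty j H u hH hH2 hL hu hXl
  | succ n ih =>
    intro j H u hH hH2 hL hu hXl
    by_cases hcase : log X ^ (4 / a0) ≤ exp ((u : ℝ) / H)
    · exact hempty j H u hH hH2 hL hu hcase
    rw [not_le] at hcase
    have hb := bej_pos h0 j
    have hb1 := rc_be h0 h1 j
    have hX1 : 1 ≤ X := by
      have := Real.add_one_le_exp (1 : ℝ)
      linarith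
    have hexp := rc_le h0 hX j hcase.le
    have hK : (0 : ℝ) ≤ 2 * (C * (1 + C1)) := by positivity
    have key := hone a0 lam X C1 ((u : ℝ) / H) (2 * (C * (1 + C1))) j (cell H u) h0 h1 hl hl2
      hC1 hX1 hK hL hexp (fun p hp => rc_cell hH hp) (by
        intro v hv
        rw [Finset.mem_Ico] at hv
        have hH' := num_H hb hb1 hL
        refine ih (j + 1) _ v hH'.1 (num_child_H hb hb1 hL hv.1) ?_
          ((num_upp hb hb1 hL hv.2).trans hexp) ?_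
        · rw [bej_succ]
          exact num_child_L hb hb1 hL hv.1
        · have h3 := num_child_P hb hb1 hL hv.1
          calc log X ^ (4 / a0) ≤ 2 ^ (n + 1) * exp ((u : ℝ) / H) := hXl
            _ = 2 ^ n * (2 * exp ((u : ℝ) / H)) := by ring
            _ ≤ 2 ^ n * exp ((v : ℝ) / stH (bej a0 j) ((u : ℝ) / H)) :=
              mul_le_mul_of_nonneg_left h3 (by positivity))
    refine key.trans (le_of_eq ?_)
    congr 1
    ring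

private theorem rc_all {C : ℝ} (hC : 0 < C) (hone : ∀ (a0 lam X C1 L K : ℝ) (j : ℕ)
    (S : Finset ℕ),
    0 < a0 → a0 ≤ 1 / 16 → 1 < lam → lam ≤ 2 → 0 ≤ C1 → 1 ≤ X → 0 ≤ K →
    1000 / bej a0 j ^ 2 ≤ L → exp (bej a0 j * L) ≤ sqrt (log X) →
    (∀ p ∈ S, p.Prime ∧ exp L ≤ p ∧ (p : ℝ) ≤ 2 * exp L) →
    (∀ u ∈ Ico (st0 (bej a0 j) L) (st1 (bej a0 j) L),
      ∫ t in GG a0 C1 X (j + 1) (cell (stH (bej a0 j) L) u) ((u : ℝ) / stH (bej a0 j) L),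
        ‖MX lam X t‖ ^ 2 ≤
          K * exp (-(bej a0 (j + 1) * ((u : ℝ) / stH (bej a0 j) L) / 4))) →
    ∫ t in GG a0 C1 X j S L, ‖MX lam X t‖ ^ 2 ≤
      (C * (1 + C1) + K / 2) * exp (-(bej a0 j * L / 4)))
    {a0 lam X C1 : ℝ} (h0 : 0 < a0) (h1 : a0 ≤ 1 / 16) (hl : 1 < lam) (hl2 : lam ≤ 2)
    (hC1 : 0 ≤ C1) (hX : exp 1 ≤ X) (j H u : ℕ) (hH : 2 ≤ H) (hH2 : (H : ℝ) ≤ exp ((u : ℝ) / H))
    (hL : 1000 / bej a0 j ^ 2 ≤ (u : ℝ) / H) (hu : ((u : ℝ) + 1) / H ≤ sqrt (log X)) :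
    ∫ t in GG a0 C1 X j (cell H u) ((u : ℝ) / H), ‖MX lam X t‖ ^ 2 ≤
      2 * (C * (1 + C1)) * exp (-(bej a0 j * ((u : ℝ) / H) / 4)) := by
  obtain ⟨n, hn⟩ := pow_unbounded_of_one_lt (log X ^ (4 / a0)) (one_lt_two (α := ℝ))
  refine rc_ind hC hone h0 h1 hl hl2 hC1 hX n j H u hH hH2 hL hu ?_
  have h3 := rc_four h0 h1 j hL
  have h4 : (0 : ℝ) < 2 ^ n := by positivity
  nlinarith

theorem rec_claim : ∃ C : ℝ, 0 < C ∧ ∀ (a0 lam X C1 : ℝ), 0 < a0 → a0 ≤ 1 / 16 → 1 < lam →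
    lam ≤ 2 → 0 ≤ C1 → exp 1 ≤ X → ∀ (j H u : ℕ), 2 ≤ H → (H : ℝ) ≤ exp ((u : ℝ) / H) →
    1000 / bej a0 j ^ 2 ≤ (u : ℝ) / H → ((u : ℝ) + 1) / H ≤ sqrt (log X) →
    ∫ t in GG a0 C1 X j (cell H u) ((u : ℝ) / H), ‖MX lam X t‖ ^ 2 ≤
      2 * (C * (1 + C1)) * exp (-(bej a0 j * ((u : ℝ) / H) / 4)) := by
  obtain ⟨C, hC, hone⟩ := one_step
  exact ⟨C, hC, fun a0 lam X C1 h0 h1 hl hl2 hC1 hX j H u hH hH2 hL hu =>
    rc_all hC hone h0 h1 hl hl2 hC1 hX j H u hH hH2 hL hu⟩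

theorem rec_root : ∃ C : ℝ, 0 < C ∧ ∀ (a0 lam X C1 L : ℝ) (S : Finset ℕ), 0 < a0 →
    a0 ≤ 1 / 16 → 1 < lam → lam ≤ 2 → 0 ≤ C1 → exp 1 ≤ X → 1000 / bej a0 0 ^ 2 ≤ L →
    exp (bej a0 0 * L) ≤ sqrt (log X) →
    (∀ p ∈ S, p.Prime ∧ exp L ≤ p ∧ (p : ℝ) ≤ 2 * exp L) →
    ∫ t in GG a0 C1 X 0 S L, ‖MX lam X t‖ ^ 2 ≤
      C * (1 + C1) * exp (-(bej a0 0 * L / 4)) := by
  obtain ⟨C, hC, hone⟩ := one_step
  refine ⟨2 * C, by positivity, fun a0 lam X C1 L S h0 h1 hl hl2 hC1 hX hL hexp hS => ?_⟩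
  have hb := bej_pos h0 0
  have hb1 := rc_be h0 h1 0
  have hX1 : 1 ≤ X := by
    have := Real.add_one_le_exp (1 : ℝ)
    linarith
  have hK : (0 : ℝ) ≤ 2 * (C * (1 + C1)) := by positivity
  have key := hone a0 lam X C1 L (2 * (C * (1 + C1))) 0 S h0 h1 hl hl2
    hC1 hX1 hK hL hexp hS (by
      intro v hv
      rw [Finset.mem_Ico] at hv
      have hH' := num_H hb hb1 hL
      refine rc_all hC hone h0 h1 hl hl2 hC1 hX (0 + 1) _ v hH'.1 (num_child_H hb hb1 hL hv.1) ?_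
        ((num_upp hb hb1 hL hv.2).trans hexp)
      rw [bej_succ]
      exact num_child_L hb hb1 hL hv.1)
  refine key.trans (le_of_eq ?_)
  congr 1
  ring

end Pool.Agent.MOM
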