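import Pool.Agent.MOM.Rec.Fin
import Pool.Agent.MOM.Rec.Rec

/-!
MOM (MP_2b7f8f_an): THEOREM A of /team-store/MOMO.md (section 3). Architect: helper84.

PROOF. `a0` from `final`. `P0` so large that `1000/β_0² ≤ log P0` (`β_0 = bej a0 0`), `P0 ≥ 4` and
`C (1+C1) exp(-(β_0 log P0/4)) ≤ η/2` (`C` from `rec_root`). Given `P ≥ P0`, `S`, put `L = log P`; for
`X` large `exp(β_0 L) ≤ sqrt(log X)`, `X ≥ e`. The set is contained in the union of
`GG a0 C1 X 0 S L` (`alj_zero`; `exp (-(a0 L)) = P^{-a0}`, `Pp S = dp S (fun _ => 1)`) and `UU a0 C1 X`: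
use `rec_root` and `final` with `η/2`.
-/

set_option autoImplicit false

namespace Pool.Agent.MOM

open Finset MeasureTheory

theorem thmA : ∃ α0 : ℝ, 0 < α0 ∧ ∀ lam : ℝ, 1 < lam → lam ≤ 2 → ∀ C1 η : ℝ, 0 < C1 → 0 < η →
    ∃ P0 : ℝ, ∀ P : ℝ, P0 ≤ P → ∀ S : Finset ℕ,
      (∀ p ∈ S, p.Prime ∧ P ≤ p ∧ (p : ℝ) ≤ 2 * P) → ∃ X0 : ℝ, ∀ X : ℝ, X0 ≤ X →
        ∫ t in {t : ℝ | |t| ≤ C1 * X ∧ P ^ (-α0) ≤ ‖dp S (fun _ => 1) t‖},
          ‖MX lam X t‖ ^ 2 ≤ η := by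
  obtain ⟨a0, h0, h1, hfin⟩ := final
  obtain ⟨C, hC, hroot⟩ := rec_root
  refine ⟨a0, h0, fun lam hl hl2 C1 η hC1 hη => ?_⟩
  obtain ⟨b, hb⟩ : ∃ b, b = bej a0 0 := ⟨_, rfl⟩
  have hb0 : 0 < b := hb ▸ bej_pos h0 0
  obtain ⟨K, hK⟩ : ∃ K, K = 2 * (C * (1 + C1)) / η := ⟨_, rfl⟩
  have hK0 : 0 < K := by rw [hK]; positivity
  obtain ⟨L0, hL0⟩ : ∃ L0, L0 = max (1000 / b ^ 2) (4 / b * |Real.log K|) := ⟨_, rfl⟩
  refine ⟨Real.exp L0, fun P hP S hS => ?_⟩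
  have hP0 : 0 < P := (Real.exp_pos _).trans_le hP
  obtain ⟨L, hL⟩ : ∃ L, L = Real.log P := ⟨_, rfl⟩
  have hPL : Real.exp L = P := by rw [hL, Real.exp_log hP0]
  have hLL : L0 ≤ L := by rwa [hL, Real.le_log_iff_exp_le hP0]
  have hL1 : 1000 / b ^ 2 ≤ L := ((le_max_left _ _).trans hL0.ge).trans hLL
  have hL2 : 4 / b * |Real.log K| ≤ L := ((le_max_right _ _).trans hL0.ge).trans hLL
  -- the main term is small
  have hsmall : C * (1 + C1) * Real.exp (-(b * L / 4)) ≤ η / 2 := by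
    have h2 : Real.log K ≤ b * L / 4 := by
      have h3 := le_abs_self (Real.log K)
      have h4 : |Real.log K| = b / 4 * (4 / b * |Real.log K|) := by field_simp
      have h5 : b / 4 * (4 / b * |Real.log K|) ≤ b / 4 * L := by gcongr
      linarith
    have h3 : Real.exp (-(b * L / 4)) ≤ K⁻¹ := by
      calc Real.exp (-(b * L / 4)) ≤ Real.exp (-Real.log K) :=
            Real.exp_le_exp.2 (by linarith)
        _ = K⁻¹ := by rw [Real.exp_neg, Real.exp_log hK0]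
    calc C * (1 + C1) * Real.exp (-(b * L / 4)) ≤ C * (1 + C1) * K⁻¹ := by gcongr
      _ = η / 2 := by
        rw [hK]
        field_simp
  obtain ⟨XF, hXF⟩ := hfin lam C1 (η / 2) hl hl2 hC1.le (half_pos hη)
  refine ⟨max XF (max (Real.exp 1) (Real.exp (Real.exp (b * L) ^ 2))), fun X hX => ?_⟩
  have hX1 : XF ≤ X := (le_max_left _ _).trans hX
  have hX2 : Real.exp 1 ≤ X := ((le_max_left _ _).trans (le_max_right _ _)).trans hX
  have hX3 : Real.exp (Real.exp (b * L) ^ 2) ≤ X :=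
    ((le_max_right _ _).trans (le_max_right _ _)).trans hX
  have hX0 : 0 < X := (Real.exp_pos _).trans_le hX2
  have hsq : Real.exp (b * L) ≤ Real.sqrt (Real.log X) := by
    refine Real.le_sqrt_of_sq_le ?_
    rwa [Real.le_log_iff_exp_le hX0]
  have hA := hroot a0 lam X C1 L S h0 h1 hl hl2 hC1.le hX2 (by rw [← hb]; exact hL1)
    (by rw [← hb]; exact hsq) (by rw [hPL]; exact hS)
  rw [← hb] at hA
  have hB := hXF X hX1
  -- integrability
  have hcont : Continuous fun t => ‖MX lam X t‖ ^ 2 := (continuous_MX lam X).norm.pow 2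
  have hint : IntegrableOn (fun t => ‖MX lam X t‖ ^ 2) (Set.Icc (-(C1 * X)) (C1 * X)) :=
    hcont.integrableOn_Icc
  have hUU : UU a0 C1 X ⊆ Set.Icc (-(C1 * X)) (C1 * X) := fun t ht => abs_le.1 ht.1
  have hGG : GG a0 C1 X 0 S L ⊆ Set.Icc (-(C1 * X)) (C1 * X) := fun t ht => abs_le.1 ht.1.1
  have hsub : {t : ℝ | |t| ≤ C1 * X ∧ P ^ (-a0) ≤ ‖dp S (fun _ => 1) t‖} ⊆
      GG a0 C1 X 0 S L ∪ UU a0 C1 X := by
    rintro t ⟨ht1, ht2⟩
    by_cases hu : t ∈ UU a0 C1 X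
    · exact Or.inr hu
    · refine Or.inl ⟨⟨ht1, ?_⟩, hu⟩
      rw [alj_zero]
      have h2 : Real.exp (-(a0 * L)) = P ^ (-a0) := by
        rw [Real.rpow_def_of_pos hP0, ← hL]
        congr 1
        ring
      rw [h2]
      exact ht2
  have hdisj : Disjoint (GG a0 C1 X 0 S L) (UU a0 C1 X) := Set.disjoint_sdiff_left
  calc ∫ t in {t : ℝ | |t| ≤ C1 * X ∧ P ^ (-a0) ≤ ‖dp S (fun _ => 1) t‖},
          ‖MX lam X t‖ ^ 2 ≤ ∫ t in GG a0 C1 X 0 S L ∪ UU a0 C1 X, ‖MX lam X t‖ ^ 2 := by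
        refine setIntegral_mono_set (hint.mono_set (Set.union_subset hGG hUU))
          (Filter.Eventually.of_forall fun t => by positivity)
          (Filter.Eventually.of_forall fun t ht => hsub ht)
    _ = (∫ t in GG a0 C1 X 0 S L, ‖MX lam X t‖ ^ 2) + ∫ t in UU a0 C1 X, ‖MX lam X t‖ ^ 2 :=
        setIntegral_union hdisj (measurableSet_UU _ _ _) (hint.mono_set hGG) (hint.mono_set hUU)
    _ ≤ η / 2 + η / 2 := add_le_add (hA.trans hsmall) hB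
    _ = η := by ring

end Pool.Agent.MOM
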