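import Pool.Agent.MOM.Rec.Defs

/-!
MOM, section 3: Ramaré's identity, part 1: the error term as one Dirichlet polynomial; cells.

PROOF of `EE_eq`. `MX lam X t = dp (win X (lam X)) mu t = dp (Icc 1 N) (fun n => if n ∈ win X (lam X)
then mu n else 0) t` (the window is contained in `[1, N]` since `X ≥ 0`, `N ≥ lam X`). For every `u`:
by `dp_up` with `a m = if m ∈ win (Mu ..) (lam Mu ..) then bq .. else 0`, `N_u = ⌊lam Mu⌋₊`, and
`p * N_u ≤ N` for `p ∈ cell H u` because `p < exp((u+1)/H)` and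
`exp((u+1)/H) * lam * X * exp(-u/H) = lam X exp(1/H) ≤ N`; and
`dp (Icc 1 N_u) a t = Ru lam X H u0 u1 u t`. Sums of `dp` over the same set are `dp` of the sum
(`dp` is additive in the coefficients).

PROOF of `cell_disj`: for `u < v` the elements of `cell H u` are `< exp((u+1)/H) ≤ exp(v/H)`.

PROOF of `QQ_eq`: a prime `p` with `exp(u0/H) ≤ p < exp(u1/H)` lies in the cell
`u = ⌊H log p⌋₊`; conversely monotonicity of `exp`.

THIS FILE: `cell_disj`, `QQ_eq`, `sum_QQ`.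
-/

set_option autoImplicit false

namespace Pool.Agent.MOM

open Finset

private theorem cells_exp_le {H : ℕ} (hH : 1 ≤ H) {a b : ℝ} (hab : a ≤ b) :
    Real.exp (a / H) ≤ Real.exp (b / H) := by
  have hH0 : (0 : ℝ) < H := by exact_mod_cast hH
  exact Real.exp_le_exp.2 (div_le_div_of_nonneg_right hab hH0.le)

private theorem cells_lt {H u v : ℕ} (hH : 1 ≤ H) (huv : u < v) :
    Disjoint (cell H u) (cell H v) := by
  rw [Finset.disjoint_left]
  intro p hp hq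
  have h1 := (mem_cell.1 hp).1.2
  have h2 := (mem_cell.1 hq).1.1
  have h3 : ((u : ℝ) + 1) ≤ (v : ℝ) := by exact_mod_cast huv
  have h4 := cells_exp_le hH h3
  linarith

theorem cell_disj {H u v : ℕ} (hH : 1 ≤ H) (huv : u ≠ v) : Disjoint (cell H u) (cell H v) := by
  rcases lt_or_gt_of_ne huv with h | h
  · exact cells_lt hH h
  · exact (cells_lt hH h).symm

theorem mem_QQ {H u0 u1 p : ℕ} : p ∈ QQ H u0 u1 ↔ ∃ u, u0 ≤ u ∧ u < u1 ∧ p ∈ cell H u := by
  unfold QQ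
  simp only [Finset.mem_biUnion, Finset.mem_Ico, and_assoc]

theorem QQ_eq {H u0 u1 : ℕ} (hH : 1 ≤ H) (hu : u0 ≤ u1) :
    QQ H u0 u1 = prs (Real.exp ((u0 : ℝ) / H)) (Real.exp ((u1 : ℝ) / H)) := by
  have hH0 : (0 : ℝ) < H := by exact_mod_cast hH
  ext p
  rw [mem_QQ, mem_prs]
  constructor
  · rintro ⟨u, h1, h2, h3⟩
    obtain ⟨⟨h4, h5⟩, h6⟩ := mem_cell.1 h3
    have h7 : (u0 : ℝ) ≤ (u : ℝ) := by exact_mod_cast h1
    have h8 : (u : ℝ) + 1 ≤ (u1 : ℝ) := by exact_mod_cast h2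
    exact ⟨⟨(cells_exp_le hH h7).trans h4, h5.trans_le (cells_exp_le hH h8)⟩, h6⟩
  · rintro ⟨⟨h1, h2⟩, h3⟩
    have hp0 : (0 : ℝ) < p := by exact_mod_cast h3.pos
    have h4 : (u0 : ℝ) ≤ H * Real.log p := by
      have h5 := (Real.le_log_iff_exp_le hp0).2 h1
      rw [div_le_iff₀ hH0] at h5
      linarith
    have h6 : H * Real.log p < (u1 : ℝ) := by
      have h7 := (Real.log_lt_iff_lt_exp hp0).2 h2
      rw [lt_div_iff₀ hH0] at h7
      linarith
    have h8 : 0 ≤ H * Real.log p := le_trans (Nat.cast_nonneg u0) h4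
    refine ⟨⌊H * Real.log p⌋₊, Nat.le_floor h4, (Nat.floor_lt h8).2 h6, mem_cell.2 ⟨⟨?_, ?_⟩, h3⟩⟩
    · rw [← Real.le_log_iff_exp_le hp0, div_le_iff₀ hH0]
      have h9 := Nat.floor_le h8
      linarith
    · rw [← Real.log_lt_iff_lt_exp hp0, lt_div_iff₀ hH0]
      have h9 := Nat.lt_floor_add_one (H * Real.log p)
      linarith

theorem sum_QQ {H : ℕ} (hH : 1 ≤ H) (u0 u1 : ℕ) (f : ℕ → ℝ) :
    ∑ u ∈ Ico u0 u1, ∑ p ∈ cell H u, f p = ∑ p ∈ QQ H u0 u1, f p := by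
  unfold QQ
  rw [Finset.sum_biUnion]
  intro u _ v _ huv
  exact cell_disj hH huv

end Pool.Agent.MOM
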