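import Pool.Agent.MOM.Rec.Defs

/-!
MOM, section 3: the set `UU_X` meets at most `X^{4.5 a0}` unit intervals.

PROOF of `count_num`. Write `E = exp sqrt(log X)`. Hypothesis `(log X)^{(4/a0) l} ≤ X` gives
`(log X)^l ≤ X^{a0/4}` and `l ≤ (a0/4) log X/log log X`, so for `X` large `l + 1 ≤ log X` and
`(l+1)^l ≤ X^{a0/4}`; `8^l = exp(l log 8) ≤ exp((a0/4) (log 8/log log X) log X) ≤ X^{a0/16}`; and
`C (E+1) (2E+1) log(2E) E² ≤ X^{a0/16}` for `X` large (`E^{6} = exp(6 sqrt(log X))`, up to a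
constant).
Total `X^{4a0 + a0/4 + a0/16 + a0/16} ≤ X^{9a0/2}`.

PROOF of `count`. For every `a` with `(log X)^{4/a0} ≤ a ≤ E` and `b ≤ 2a` let `l` be the natural
number with `a^l ≤ X < a^{l+1}` (`a ≥ 4` for `X` large) and `J_{a,b}` the set of `count_one`;
`J` = the union: at most `(E+1)` values of `a` and for each at most `2a + 1 ≤ 2E + 1` values of `b`.
`(log X)^{(4/a0) l} ≤ a^l ≤ X`. Use `count_num` with the constant `C (1 + C1)`.

THIS FILE: `count_num`.
-/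

set_option autoImplicit false

namespace Pool.Agent.MOM

open Finset MeasureTheory

/-- The bound for the number of letters. -/
private theorem cntN_l {a0 L X : ℝ} (h0 : 0 < a0) (hL : L = Real.log X)
    (hL0 : 0 < L) {l : ℕ} (hl : (L ^ (4 / a0)) ^ l ≤ X) :
    (l : ℝ) * Real.log L ≤ a0 / 4 * L := by
  have h1 : 0 < L ^ (4 / a0) := Real.rpow_pos_of_pos hL0 _
  have h2 := Real.log_le_log (pow_pos h1 l) hl
  rw [Real.log_pow, Real.log_rpow hL0, ← hL] at h2
  have h3 : a0 / 4 * ((l : ℝ) * (4 / a0 * Real.log L)) = (l : ℝ) * Real.log L := by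
    field_simp
  have h4 := mul_le_mul_of_nonneg_left h2 (by positivity : 0 ≤ a0 / 4)
  rwa [h3] at h4

theorem count_num (a0 C : ℝ) (h0 : 0 < a0) (h1 : a0 ≤ 1 / 16) : ∃ X0 : ℝ, ∀ X : ℝ, X0 ≤ X →
    ∀ l : ℕ, (Real.log X ^ (4 / a0)) ^ l ≤ X → ∀ E : ℝ, E = Real.exp (Real.sqrt (Real.log X)) →
      (E + 1) * (2 * E + 1) * (C * Real.log (2 * E) * E ^ 2 * 8 ^ l * X ^ (4 * a0) *
        ((l : ℝ) + 1) ^ l) ≤ X ^ (9 / 2 * a0) := by
  obtain ⟨D, hD1, hCD⟩ : ∃ D : ℝ, 1 ≤ D ∧ C ≤ D := ⟨max 1 C, le_max_left _ _, le_max_right _ _⟩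
  refine ⟨Real.exp (max (8 ^ 4) (max ((80 / a0) ^ 2) (16 * Real.log (12 * D) / a0))),
    fun X hX l hl E hE => ?_⟩
  have hXpos : 0 < X := (Real.exp_pos _).trans_le hX
  obtain ⟨L, hL⟩ : ∃ L : ℝ, L = Real.log X := ⟨_, rfl⟩
  have hLX : max (8 ^ 4) (max ((80 / a0) ^ 2) (16 * Real.log (12 * D) / a0)) ≤ L := by
    rw [hL]
    exact (Real.le_log_iff_exp_le hXpos).2 hX
  have l1 : (8 : ℝ) ^ 4 ≤ L := (le_max_left _ _).trans hLX
  have l2 : (80 / a0) ^ 2 ≤ L := (le_max_left _ _).trans ((le_max_right _ _).trans hLX)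
  have l3 : 16 * Real.log (12 * D) / a0 ≤ L :=
    (le_max_right _ _).trans ((le_max_right _ _).trans hLX)
  rw [← hL] at hl hE
  have hL0 : 0 < L := lt_of_lt_of_le (by norm_num) l1
  have k1 := cntN_l h0 hL hL0 hl
  obtain ⟨s, hs⟩ : ∃ s : ℝ, s = Real.sqrt L := ⟨_, rfl⟩
  rw [← hs] at hE
  have hsL : s * s = L := by
    rw [hs]
    exact Real.mul_self_sqrt hL0.le
  have hs0 : 0 ≤ s := by
    rw [hs]
    exact Real.sqrt_nonneg _
  have hs1 : 80 / a0 ≤ s := by
    rw [hs]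
    exact Real.le_sqrt_of_sq_le l2
  have hs2 : 1 ≤ s := by
    refine le_trans ?_ hs1
    rw [le_div_iff₀ h0]
    linarith
  have k2 : 5 * s ≤ a0 / 16 * L := by
    rw [div_le_iff₀ h0] at hs1
    rw [← hsL]
    have := mul_le_mul_of_nonneg_right hs1 hs0
    linarith
  have k3 : Real.log (12 * D) ≤ a0 / 16 * L := by
    rw [div_le_iff₀ h0] at l3
    linarith
  have hlog : 4 * Real.log 8 ≤ Real.log L := by
    have h2 := Real.log_le_log (by norm_num) l1
    rwa [Real.log_pow] at h2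
  have hlog8 : 1 ≤ Real.log 8 := by
    rw [Real.le_log_iff_exp_le (by norm_num)]
    have := Real.exp_one_lt_d9
    linarith
  have hl0 : (0 : ℝ) ≤ l := Nat.cast_nonneg l
  have k4 : (l : ℝ) * Real.log 8 ≤ a0 / 16 * L := by
    have := mul_le_mul_of_nonneg_left hlog hl0
    linarith
  have k5 : (l : ℝ) + 1 ≤ L := by
    have h2 : (l : ℝ) * 1 ≤ l * Real.log 8 := mul_le_mul_of_nonneg_left hlog8 hl0
    have h3 : a0 / 16 * L ≤ 1 / 16 / 16 * L := by gcongr
    norm_num at l1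
    linarith
  have e1 : (8 : ℝ) ^ l ≤ Real.exp (a0 / 16 * L) := by
    have : (8 : ℝ) ^ l = Real.exp (l * Real.log 8) := by
      rw [Real.exp_nat_mul, Real.exp_log (by norm_num)]
    rw [this]
    exact Real.exp_le_exp.2 k4
  have e2 : ((l : ℝ) + 1) ^ l ≤ Real.exp (a0 / 4 * L) := by
    have h2 : ((l : ℝ) + 1) ^ l ≤ L ^ l := pow_le_pow_left₀ (by positivity) k5 l
    have h3 : L ^ l = Real.exp (l * Real.log L) := by
      rw [Real.exp_nat_mul, Real.exp_log hL0]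
    rw [h3] at h2
    exact h2.trans (Real.exp_le_exp.2 k1)
  have hX1 : ∀ y : ℝ, X ^ y = Real.exp (L * y) := by
    intro y
    rw [Real.rpow_def_of_pos hXpos, ← hL]
  have hE0 : 0 < E := by
    rw [hE]
    exact Real.exp_pos _
  have hE1 : 1 ≤ E := by
    rw [hE]
    exact Real.one_le_exp hs0
  have e3 : Real.log (2 * E) ≤ 2 * E := by
    have := Real.log_le_sub_one_of_pos (by positivity : 0 < 2 * E)
    linarith
  have e3' : 0 ≤ Real.log (2 * E) := Real.log_nonneg (by linarith)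
  have e4 : C * Real.log (2 * E) ≤ D * (2 * E) :=
    (mul_le_mul_of_nonneg_right hCD e3').trans
      (mul_le_mul_of_nonneg_left e3 (by linarith))
  have hD0 : 0 < D := by linarith
  calc (E + 1) * (2 * E + 1) * (C * Real.log (2 * E) * E ^ 2 * 8 ^ l * X ^ (4 * a0) *
        ((l : ℝ) + 1) ^ l)
      ≤ (E + 1) * (2 * E + 1) * (D * (2 * E) * E ^ 2 * 8 ^ l * X ^ (4 * a0) *
        ((l : ℝ) + 1) ^ l) := by gcongr
    _ ≤ (2 * E) * (3 * E) * (D * (2 * E) * E ^ 2 * Real.exp (a0 / 16 * L) * X ^ (4 * a0) *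
        Real.exp (a0 / 4 * L)) := by
        have g1 : E + 1 ≤ 2 * E := by linarith
        have g2 : 2 * E + 1 ≤ 3 * E := by linarith
        gcongr
    _ = Real.exp (Real.log (12 * D) + 5 * s + a0 / 16 * L + L * (4 * a0) + a0 / 4 * L) := by
        rw [hX1, Real.exp_add, Real.exp_add, Real.exp_add, Real.exp_add,
          Real.exp_log (by positivity), show 5 * s = ((5 : ℕ) : ℝ) * s by norm_num,
          Real.exp_nat_mul, ← hE]
        ring
    _ ≤ Real.exp (L * (9 / 2 * a0)) := by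
        refine Real.exp_le_exp.2 ?_
        have : 0 ≤ a0 * L := by positivity
        linarith
    _ = X ^ (9 / 2 * a0) := (hX1 _).symm

end Pool.Agent.MOM
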