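import Pool.Agent.MOM.Rec.CntB
import Pool.Agent.MOM.Rec.CntN

/-!
MOM, section 3: the set `UU_X` meets at most `X^{4.5 a0}` unit intervals.

PROOF of `count_num`. Write `E = exp sqrt(log X)`. Hypothesis `(log X)^{(4/a0) l} ≤ X` gives
`(log X)^l ≤ X^{a0/4}` and `l ≤ (a0/4) log X/log log X`, so for `X` large `l + 1 ≤ log X` and
`(l+1)^l ≤ X^{a0/4}`; `8^l = exp(l log 8) ≤ exp((a0/4) (log 8/log log X) log X) ≤ X^{a0/16}`; and
`C (E+1) (2E+1) log(2E) E² ≤ X^{a0/16}` for `X` large (`E^{6} = exp(6 sqrt(log X))`,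
up to a constant).
Total `X^{4a0 + a0/4 + a0/16 + a0/16} ≤ X^{9a0/2}`.

PROOF of `count`. For every `a` with `(log X)^{4/a0} ≤ a ≤ E` and `b ≤ 2a` let `l` be the natural
number with `a^l ≤ X < a^{l+1}` (`a ≥ 4` for `X` large) and `J_{a,b}` the set of `count_one`;
`J` = the union: at most `(E+1)` values of `a` and for each at most `2a + 1 ≤ 2E + 1` values of `b`.
`(log X)^{(4/a0) l} ≤ a^l ≤ X`. Use `count_num` with the constant `C (1 + C1)`.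

THIS FILE: `count`.
-/

set_option autoImplicit false

namespace Pool.Agent.MOM

open Finset MeasureTheory

theorem count (a0 C1 : ℝ) (h0 : 0 < a0) (h1 : a0 ≤ 1 / 16) (hC1 : 0 ≤ C1) :
    ∃ X0 : ℝ, ∀ X : ℝ, X0 ≤ X → ∃ J : Finset ℤ, (∀ t ∈ UU a0 C1 X, ⌊t⌋ ∈ J) ∧
      (J.card : ℝ) ≤ X ^ (9 / 2 * a0) := by
  obtain ⟨C, hC, hone⟩ := count_one
  obtain ⟨X0, hX0⟩ := count_num a0 (C * (1 + C1)) h0 h1
  refine ⟨max X0 (Real.exp 4), fun X hX => ?_⟩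
  have hXX : X0 ≤ X := (le_max_left _ _).trans hX
  have hX4 : Real.exp 4 ≤ X := (le_max_right _ _).trans hX
  have hX1 : 1 ≤ X := (Real.one_le_exp (by norm_num)).trans hX4
  have hXp : 0 < X := by linarith
  have hlog : 4 ≤ Real.log X := (Real.le_log_iff_exp_le hXp).2 hX4
  have hL4 : 4 ≤ Real.log X ^ (4 / a0) := by
    have h2 : 1 ≤ 4 / a0 := by
      rw [le_div_iff₀ h0]
      linarith
    have h3 : Real.log X ^ (1 : ℝ) ≤ Real.log X ^ (4 / a0) :=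
      Real.rpow_le_rpow_of_exponent_le (by linarith) h2
    rw [Real.rpow_one] at h3
    linarith
  set E : ℝ := Real.exp (Real.sqrt (Real.log X)) with hE
  have hE0 : 0 < E := Real.exp_pos _
  set Bd : ℝ := X ^ (9 / 2 * a0) / ((E + 1) * (2 * E + 1)) with hBd
  have hden : 0 < (E + 1) * (2 * E + 1) := by positivity
  have hBd0 : 0 ≤ Bd := by positivity
  have key : ∀ a b : ℕ, ∃ J : Finset ℤ, (b ≤ 2 * a → Real.log X ^ (4 / a0) ≤ a →
      (a : ℝ) ≤ E → ∀ t : ℝ, |t| ≤ C1 * X →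
      (a : ℝ) ^ (-(2 * a0)) ≤ ‖Pp ((Finset.Ico a b).filter Nat.Prime) t‖ → ⌊t⌋ ∈ J) ∧
      (J.card : ℝ) ≤ Bd := by
    intro a b
    by_cases hv : b ≤ 2 * a ∧ Real.log X ^ (4 / a0) ≤ a ∧ (a : ℝ) ≤ E
    · obtain ⟨hb, hLa, haE⟩ := hv
      have ha4 : (4 : ℝ) ≤ a := hL4.trans hLa
      have ha4' : 4 ≤ a := by exact_mod_cast ha4
      obtain ⟨l, hl1, hl2⟩ := exists_nat_pow_near hX1 (by linarith : (1 : ℝ) < a)
      obtain ⟨J, hJ1, hJ2⟩ := hone a0 C1 X a b l h0 h1 hC1 hX1 ha4' hb hl1 hl2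
      refine ⟨J, fun _ _ _ => hJ1, hJ2.trans ?_⟩
      have hl3 : (Real.log X ^ (4 / a0)) ^ l ≤ X :=
        (pow_le_pow_left₀ (by linarith) hLa l).trans hl1
      have hn := hX0 X hXX l hl3 E hE
      rw [hBd, le_div_iff₀ hden, mul_comm]
      refine le_trans (mul_le_mul_of_nonneg_left ?_ hden.le) hn
      have h5 : Real.log (2 * a) ≤ Real.log (2 * E) :=
        Real.log_le_log (by linarith) (by linarith)
      have h6 : 0 ≤ Real.log (2 * a) := Real.log_nonneg (by linarith)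
      have h7 : (a : ℝ) ^ 2 ≤ E ^ 2 := pow_le_pow_left₀ (by linarith) haE 2
      have h8 : Real.log (2 * a) * (a : ℝ) ^ 2 ≤ Real.log (2 * E) * E ^ 2 :=
        mul_le_mul h5 h7 (by positivity) (h6.trans h5)
      have h9 : 0 ≤ C * (1 + C1) * (8 ^ l * X ^ (4 * a0) * ((l : ℝ) + 1) ^ l) := by
        positivity
      have h10 := mul_le_mul_of_nonneg_left h8 h9
      calc C * (1 + C1) * Real.log (2 * a) * (a : ℝ) ^ 2 * 8 ^ l * X ^ (4 * a0) *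
            ((l : ℝ) + 1) ^ l
          = C * (1 + C1) * (8 ^ l * X ^ (4 * a0) * ((l : ℝ) + 1) ^ l) *
            (Real.log (2 * a) * (a : ℝ) ^ 2) := by ring
        _ ≤ _ := h10
        _ = _ := by ring
    · refine ⟨∅, fun hb hL ha => absurd ⟨hb, hL, ha⟩ hv, ?_⟩
      simpa using hBd0
  choose Jf hJ1 hJ2 using key
  refine ⟨(range (⌊E⌋₊ + 1) ×ˢ range (2 * ⌊E⌋₊ + 1)).biUnion fun ab => Jf ab.1 ab.2,
    ?_, ?_⟩
  · rintro t ⟨ht, a, b, hb, hLa, haE, hP⟩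
    rw [Finset.mem_biUnion]
    have ha : a ≤ ⌊E⌋₊ := Nat.le_floor haE
    refine ⟨(a, b), ?_, hJ1 a b hb hLa haE t ht hP⟩
    rw [Finset.mem_product, Finset.mem_range, Finset.mem_range]
    exact ⟨by simpa using Nat.lt_succ_of_le ha, by
      show b < 2 * ⌊E⌋₊ + 1
      omega⟩
  · have h2 : (((range (⌊E⌋₊ + 1) ×ˢ range (2 * ⌊E⌋₊ + 1)).biUnion
        fun ab => Jf ab.1 ab.2).card : ℝ) ≤
        ∑ ab ∈ range (⌊E⌋₊ + 1) ×ˢ range (2 * ⌊E⌋₊ + 1), ((Jf ab.1 ab.2).card : ℝ) := by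
      exact_mod_cast Finset.card_biUnion_le
    have h3 : ∑ ab ∈ range (⌊E⌋₊ + 1) ×ˢ range (2 * ⌊E⌋₊ + 1), ((Jf ab.1 ab.2).card : ℝ) ≤
        ∑ ab ∈ range (⌊E⌋₊ + 1) ×ˢ range (2 * ⌊E⌋₊ + 1), Bd :=
      Finset.sum_le_sum fun ab _ => hJ2 _ _
    refine h2.trans (h3.trans ?_)
    rw [Finset.sum_const, Finset.card_product, Finset.card_range, Finset.card_range,
      nsmul_eq_mul]
    have hfl : (⌊E⌋₊ : ℝ) ≤ E := Nat.floor_le hE0.le
    have h4 : (((⌊E⌋₊ + 1) * (2 * ⌊E⌋₊ + 1) : ℕ) : ℝ) ≤ (E + 1) * (2 * E + 1) := by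
      push_cast
      exact mul_le_mul (by linarith) (by linarith) (by positivity) (by positivity)
    refine (mul_le_mul_of_nonneg_right h4 hBd0).trans (le_of_eq ?_)
    rw [hBd, mul_div_cancel₀ _ hden.ne']

end Pool.Agent.MOM
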