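import Pool.Agent.MOM.Rec.MomB

/-!
MOM, section 3: the number of unit intervals with a large value of one prime polynomial.

`S = (Ico a b).filter Nat.Prime`, `4 ≤ a`, `b ≤ 2a`, `a^l ≤ X < a^{l+1}`.

PROOF of `pow_mv_one`: `pow_mv` with `P = a`, `Y = N = 1`, `b n = B n = 1` for `n = 1` and `0`
otherwise (the Dirichlet polynomial is `1`; `∑_{m<K} B(dm)/m ≤ 1`): the bound is `C (T +
(2a)^l)/a^l (l+1)^l`.

PROOF of `lip_Pp`: for real `x`, `‖e^{ix} - e^{iy}‖ ≤ |x - y|`, so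
`‖ph t p - ph t' p‖ ≤ |t - t'| log p`, `log p ≤ log(2a)`, and `qs S ≤ 1` (`qs_dyadic`).

PROOF of `count_one`: `J = {j ∈ ℤ : exists t with ⌊t⌋ = j, |t| ≤ C1 X, a^{-2a0} ≤ |Q(t)|}` (a
finite set: `-C1 X - 1 ≤ j ≤ C1 X`). Let `κ = a^{-2a0}/(2 log(2a)) ≤ 1/2`, `j ∈ J` with `t`. By
`lip_Pp` `|Q(s)| ≥ a^{-2a0}/2` for `|s - t| ≤ κ`, and `[t, t+κ]` or `[t-κ, t]` is contained in
`[j, j+1]`. So `∫_{[j,j+1]} |Q|^{2l} ≥ κ (a^{-2a0}/2)^{2l}`. The intervals `[j, j+1)` are disjoint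
and contained in `[-T, T]`, `T = C1 X + 1`. So with `pow_mv_one` `#J κ (a^{-2a0}/2)^{2l} ≤ C (C1 X
+ 1 + (2a)^l) a^{-l} (l+1)^l ≤ C ((C1+1) a + 2^l) (l+1)^l ≤ 2 C (1+C1) a 2^l (l+1)^l` (`X a^{-l} <
a`, `1 ≤ X`). Hence `#J ≤ 2 log(2a) a^{2a0} 4^l a^{4 a0 l} 2 C (1+C1) a 2^l (l+1)^l`, with `a^l ≤
X`, `a^{2a0} ≤ a`.

THIS FILE: `pow_mv_one`, `lip_Pp`.
-/

set_option autoImplicit false

namespace Pool.Agent.MOM

open Finset MeasureTheory

private theorem cntA_mem {a b p : ℕ} (hb : b ≤ 2 * a)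
    (hp : p ∈ (Finset.Ico a b).filter Nat.Prime) :
    p.Prime ∧ (a : ℝ) ≤ p ∧ (p : ℝ) ≤ 2 * a := by
  rw [Finset.mem_filter, Finset.mem_Ico] at hp
  refine ⟨hp.2, by exact_mod_cast hp.1.1, ?_⟩
  have h1 : p ≤ 2 * a := by omega
  exact_mod_cast h1

private theorem cntA_ph (s t : ℝ) (n : ℕ) : ‖ph s n - ph t n‖ ≤ |s - t| * |Real.log n| := by
  unfold ph
  have h1 : ∀ x y : ℝ, ‖Complex.exp ((x : ℂ) * Complex.I) - Complex.exp ((y : ℂ) * Complex.I)‖ ≤
      |x - y| := by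
    intro x y
    have h2 : Complex.exp ((x : ℂ) * Complex.I) - Complex.exp ((y : ℂ) * Complex.I) =
        Complex.exp ((y : ℂ) * Complex.I) * (Complex.exp (Complex.I * ((x - y : ℝ) : ℂ)) - 1) := by
      rw [mul_sub, mul_one, ← Complex.exp_add]
      congr 2
      push_cast
      ring
    rw [h2, norm_mul, Complex.norm_exp_ofReal_mul_I, one_mul]
    exact Real.norm_exp_I_mul_ofReal_sub_one_le
  refine (h1 _ _).trans (le_of_eq ?_)
  rw [← abs_mul, ← abs_neg]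
  congr 1
  ring

theorem pow_mv_one : ∃ C : ℝ, 0 < C ∧ ∀ (T : ℝ) (a b l : ℕ), 4 ≤ a → b ≤ 2 * a → 0 < T →
    ∫ t in Set.Icc (-T) T, ‖Pp ((Finset.Ico a b).filter Nat.Prime) t ^ l‖ ^ 2 ≤
      C * (T + (2 * (a : ℝ)) ^ l) / (a : ℝ) ^ l * ((l : ℝ) + 1) ^ l := by
  obtain ⟨C, hC, hmv⟩ := pow_mv
  refine ⟨C, hC, ?_⟩
  intro T a b l ha hb hT
  have haR : (4 : ℝ) ≤ a := by exact_mod_cast ha
  have h1 := hmv a 1 1 T ((Finset.Ico a b).filter Nat.Prime) (fun n => if n = 1 then 1 else 0)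
    (fun n => if n = 1 then 1 else 0) l haR one_pos le_rfl hT
    (fun p hp => cntA_mem hb hp) ?_ ?_ ?_ ?_
  · have h2 : ∀ t : ℝ, dp (Icc 1 ⌊(1 : ℝ)⌋₊) (fun n : ℕ => if n = 1 then (1 : ℂ) else 0) t = 1 := by
      intro t
      unfold dp
      simp [ph_one_right]
    simp only [h2, mul_one] at h1
    exact h1
  · intro n
    by_cases hn : n = 1
    · simp [hn]
    · simp [hn]
  · intro n
    by_cases hn : n = 1
    · simp [hn]
    · simp [hn]
  · intro n hn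
    by_cases h : n = 1
    · simp [h]
    · simp [h] at hn
  · intro d K hd
    have h3 : ∀ m ∈ Ico 1 K, (if d * m = 1 then (1 : ℝ) else 0) / (m : ℝ) ≤
        if m = 1 then 1 else 0 := by
      intro m hm
      rw [Finset.mem_Ico] at hm
      by_cases h4 : m = 1
      · subst h4
        simp only [mul_one, Nat.cast_one, div_one, if_true]
        split_ifs <;> norm_num
      · have h5 : d * m ≠ 1 := by
          intro h6
          exact h4 (Nat.eq_one_of_mul_eq_one_left h6)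
        simp [h4, h5]
    refine (Finset.sum_le_sum h3).trans ?_
    rw [Finset.sum_ite_eq']
    split_ifs <;> norm_num

theorem lip_Pp {a b : ℕ} (ha : 4 ≤ a) (hb : b ≤ 2 * a) (s t : ℝ) :
    ‖Pp ((Finset.Ico a b).filter Nat.Prime) s - Pp ((Finset.Ico a b).filter Nat.Prime) t‖ ≤
      Real.log (2 * a) * |s - t| := by
  have haR : (4 : ℝ) ≤ a := by exact_mod_cast ha
  have h1 : Pp ((Finset.Ico a b).filter Nat.Prime) s - Pp ((Finset.Ico a b).filter Nat.Prime) t =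
      ∑ p ∈ (Finset.Ico a b).filter Nat.Prime, 1 / (p : ℂ) * (ph s p - ph t p) := by
    unfold Pp dp
    rw [← Finset.sum_sub_distrib]
    exact Finset.sum_congr rfl fun p _ => by ring
  have h2 : ∀ p ∈ (Finset.Ico a b).filter Nat.Prime,
      ‖1 / (p : ℂ) * (ph s p - ph t p)‖ ≤ Real.log (2 * a) * |s - t| * (1 / (p : ℝ)) := by
    intro p hp
    obtain ⟨-, hp1, hp2⟩ := cntA_mem hb hp
    have h3 : |Real.log p| ≤ Real.log (2 * a) := by
      rw [abs_of_nonneg (Real.log_nonneg (by linarith))]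
      exact Real.log_le_log (by linarith) hp2
    rw [norm_mul, norm_div, norm_one, Complex.norm_natCast, mul_comm]
    refine mul_le_mul_of_nonneg_right ?_ (by positivity)
    refine (cntA_ph s t p).trans ?_
    rw [mul_comm]
    exact mul_le_mul_of_nonneg_right h3 (abs_nonneg _)
  rw [h1]
  refine ((norm_sum_le _ _).trans (Finset.sum_le_sum h2)).trans ?_
  rw [← Finset.mul_sum]
  have h3 : ∑ p ∈ (Finset.Ico a b).filter Nat.Prime, 1 / (p : ℝ) ≤ 1 :=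
    qs_dyadic haR fun p hp => (cntA_mem hb hp).2
  have h4 : 0 ≤ Real.log (2 * a) * |s - t| :=
    mul_nonneg (Real.log_nonneg (by linarith)) (abs_nonneg _)
  calc Real.log (2 * a) * |s - t| * ∑ p ∈ (Finset.Ico a b).filter Nat.Prime, 1 / (p : ℝ)
      ≤ Real.log (2 * a) * |s - t| * 1 := mul_le_mul_of_nonneg_left h3 h4
    _ = Real.log (2 * a) * |s - t| := mul_one _

end Pool.Agent.MOM
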