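import Pool.Agent.MOM.Rec.CntA

/-!
MOM, section 3: the number of unit intervals with a large value of one prime polynomial.

`S = (Ico a b).filter Nat.Prime`, `4 ≤ a`, `b ≤ 2a`, `a^l ≤ X < a^{l+1}`.

PROOF of `pow_mv_one`: `pow_mv` with `P = a`, `Y = N = 1`, `b n = B n = 1` for `n = 1` and `0`
otherwise (the Dirichlet polynomial is `1`; `∑_{m<K} B(dm)/m ≤ 1`): the bound is `C (T +
(2a)^l)/a^l (l+1)^l`.

PROOF of `lip_Pp`: for real `x`, `‖e^{ix} - e^{iy}‖ ≤ |x - y|`, so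
`‖ph t p - ph t' p‖ ≤ |t - t'| log p`, `log p ≤ log(2a)`, and `qs S ≤ 1` (`qs_dyadic`).

PROOF of `count_one`: `J = {j ∈ ℤ : exists t with ⌊t⌋ = j, |t| ≤ C1 X, a^{-2a0} ≤ |Q(t)|}` (a
finite set: `-C1 X - 1 ≤ j ≤ C1 X`). Let `κ = a^{-2a0}/(2 log(2a)) ≤ 1/2`, `j ∈ J` with `t`. By
`lip_Pp` `|Q(s)| ≥ a^{-2a0}/2` for `|s - t| ≤ κ`, and `[t, t+κ]` or `[t-κ, t]` is contained in
`[j, j+1]`. So `∫_{[j,j+1]} |Q|^{2l} ≥ κ (a^{-2a0}/2)^{2l}`. The intervals `[j, j+1)` are disjoint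
and contained in `[-T, T]`, `T = C1 X + 1`. So with `pow_mv_one` `#J κ (a^{-2a0}/2)^{2l} ≤ C (C1 X
+ 1 + (2a)^l) a^{-l} (l+1)^l ≤ C ((C1+1) a + 2^l) (l+1)^l ≤ 2 C (1+C1) a 2^l (l+1)^l` (`X a^{-l} <
a`, `1 ≤ X`). Hence `#J ≤ 2 log(2a) a^{2a0} 4^l a^{4 a0 l} 2 C (1+C1) a 2^l (l+1)^l`, with `a^l ≤
X`, `a^{2a0} ≤ a`.

THIS FILE: `count_one`.
-/

set_option autoImplicit false

namespace Pool.Agent.MOM

open Finset MeasureTheory

/-- The lower bound on one unit interval. -/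
private theorem cntB_lower {f : ℝ → ℂ} (hf : Continuous f) {L δ : ℝ} (hL : 1 ≤ L) (hδ : 0 < δ)
    (hδ1 : δ ≤ 1) (hlip : ∀ s t, ‖f s - f t‖ ≤ L * |s - t|) {t : ℝ} (ht : δ ≤ ‖f t‖) (l : ℕ) :
    δ / (2 * L) * ((δ / 2) ^ l) ^ 2 ≤
      ∫ s in Set.Ioc (⌊t⌋ : ℝ) ((⌊t⌋ : ℝ) + 1), ‖f s ^ l‖ ^ 2 := by
  set κ : ℝ := δ / (2 * L) with hκ
  have hL0 : 0 < L := by linarith
  have hκ0 : 0 < κ := by positivity
  have hκ1 : κ ≤ 1 / 2 := by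
    rw [hκ, div_le_div_iff₀ (by positivity) (by norm_num)]
    nlinarith
  have hcont : Continuous fun s => ‖f s ^ l‖ ^ 2 := ((hf.pow l).norm).pow 2
  have hint : ∀ a b : ℝ, IntegrableOn (fun s => ‖f s ^ l‖ ^ 2) (Set.Ioc a b) := fun a b =>
    (hcont.integrableOn_Icc (a := a) (b := b)).mono_set Set.Ioc_subset_Icc_self
  have hkey : ∀ c : ℝ, Set.Ioc c (c + κ) ⊆ Set.Ioc (⌊t⌋ : ℝ) ((⌊t⌋ : ℝ) + 1) →
      (∀ s ∈ Set.Ioc c (c + κ), |s - t| ≤ κ) →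
      κ * ((δ / 2) ^ l) ^ 2 ≤
        ∫ s in Set.Ioc (⌊t⌋ : ℝ) ((⌊t⌋ : ℝ) + 1), ‖f s ^ l‖ ^ 2 := by
    intro c hsub hdist
    have h1 : ∫ s in Set.Ioc c (c + κ), ((δ / 2) ^ l) ^ 2 ≤
        ∫ s in Set.Ioc c (c + κ), ‖f s ^ l‖ ^ 2 := by
      refine setIntegral_mono_on ?_ (hint _ _) measurableSet_Ioc fun s hs => ?_
      · exact integrableOn_const (by simp)
      · have h2 := hlip s t
        have h3 := hdist s hs
        have h4 : L * |s - t| ≤ δ / 2 := by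
          have h5 : L * κ = δ / 2 := by
            rw [hκ]
            field_simp
          calc L * |s - t| ≤ L * κ := mul_le_mul_of_nonneg_left h3 hL0.le
            _ = δ / 2 := h5
        have h6 : δ / 2 ≤ ‖f s‖ := by
          have h7 := norm_sub_norm_le (f t) (f s)
          rw [norm_sub_rev] at h7
          linarith
        rw [norm_pow]
        exact pow_le_pow_left₀ (by positivity) (pow_le_pow_left₀ (by positivity) h6 l) 2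
    have h8 : ∫ s in Set.Ioc c (c + κ), ((δ / 2) ^ l) ^ 2 = κ * ((δ / 2) ^ l) ^ 2 := by
      rw [setIntegral_const, smul_eq_mul, Measure.real, Real.volume_Ioc, add_sub_cancel_left,
        ENNReal.toReal_ofReal hκ0.le]
    rw [h8] at h1
    refine h1.trans (setIntegral_mono_set (hint _ _) ?_ (LE.le.eventuallyLE hsub))
    exact Filter.Eventually.of_forall fun s => by positivity
  have hfl := Int.floor_le t
  have hfl2 := Int.lt_floor_add_one t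
  by_cases hc : t + κ ≤ (⌊t⌋ : ℝ) + 1
  · refine hkey t (Set.Ioc_subset_Ioc hfl hc) fun s hs => ?_
    rw [abs_of_nonneg (by linarith [hs.1])]
    linarith [hs.2]
  · refine hkey (t - κ) (Set.Ioc_subset_Ioc (by linarith [not_le.1 hc]) (by linarith))
      fun s hs => ?_
    rw [abs_le]
    constructor
    · linarith [hs.1]
    · linarith [hs.2]

open scoped Classical in
/-- The number of unit intervals from a mean value. -/
private theorem cntB_card {f : ℝ → ℂ} (hf : Continuous f) {L δ : ℝ} (hL : 1 ≤ L) (hδ : 0 < δ)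
    (hδ1 : δ ≤ 1) (hlip : ∀ s t, ‖f s - f t‖ ≤ L * |s - t|) (R : ℝ) (l : ℕ) :
    ∃ J : Finset ℤ, (∀ t : ℝ, |t| ≤ R → δ ≤ ‖f t‖ → ⌊t⌋ ∈ J) ∧
      (J.card : ℝ) * (δ / (2 * L) * ((δ / 2) ^ l) ^ 2) ≤
        ∫ s in Set.Icc (-(R + 1)) (R + 1), ‖f s ^ l‖ ^ 2 := by
  refine ⟨(Finset.Icc ⌊-R⌋ ⌊R⌋).filter fun j => ∃ t : ℝ, ⌊t⌋ = j ∧ |t| ≤ R ∧ δ ≤ ‖f t‖,
    fun t ht hft => ?_, ?_⟩
  · rw [Finset.mem_filter, Finset.mem_Icc]
    have h1 := abs_le.1 ht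
    exact ⟨⟨Int.floor_le_floor h1.1, Int.floor_le_floor h1.2⟩, t, rfl, ht, hft⟩
  set J := (Finset.Icc ⌊-R⌋ ⌊R⌋).filter fun j => ∃ t : ℝ, ⌊t⌋ = j ∧ |t| ≤ R ∧ δ ≤ ‖f t‖ with hJ
  have hcont : Continuous fun s => ‖f s ^ l‖ ^ 2 := ((hf.pow l).norm).pow 2
  have hint : ∀ a b : ℝ, IntegrableOn (fun s => ‖f s ^ l‖ ^ 2) (Set.Ioc a b) := fun a b =>
    (hcont.integrableOn_Icc (a := a) (b := b)).mono_set Set.Ioc_subset_Icc_self
  have h1 : ∀ j ∈ J, δ / (2 * L) * ((δ / 2) ^ l) ^ 2 ≤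
      ∫ s in Set.Ioc (j : ℝ) ((j : ℝ) + 1), ‖f s ^ l‖ ^ 2 := by
    intro j hj
    obtain ⟨t, rfl, -, ht⟩ := (Finset.mem_filter.1 hj).2
    exact cntB_lower hf hL hδ hδ1 hlip ht l
  have h2 : ∫ s in ⋃ j ∈ J, Set.Ioc (j : ℝ) ((j : ℝ) + 1), ‖f s ^ l‖ ^ 2 =
      ∑ j ∈ J, ∫ s in Set.Ioc (j : ℝ) ((j : ℝ) + 1), ‖f s ^ l‖ ^ 2 := by
    refine integral_biUnion_finset J (fun j _ => measurableSet_Ioc) ?_ fun j _ => hint _ _
    intro j _ k _ hjk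
    refine Set.disjoint_left.2 fun x hx hx' => hjk ?_
    have h3 : (j : ℝ) < (k : ℝ) + 1 := lt_of_lt_of_le hx.1 hx'.2
    have h4 : (k : ℝ) < (j : ℝ) + 1 := lt_of_lt_of_le hx'.1 hx.2
    have h5 : j < k + 1 := by exact_mod_cast h3
    have h6 : k < j + 1 := by exact_mod_cast h4
    omega
  have h3 : ∫ s in ⋃ j ∈ J, Set.Ioc (j : ℝ) ((j : ℝ) + 1), ‖f s ^ l‖ ^ 2 ≤
      ∫ s in Set.Icc (-(R + 1)) (R + 1), ‖f s ^ l‖ ^ 2 := by
    refine setIntegral_mono_set hcont.integrableOn_Icc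
      (Filter.Eventually.of_forall fun s => by positivity) (LE.le.eventuallyLE ?_)
    intro x hx
    simp only [Set.mem_iUnion] at hx
    obtain ⟨j, hj, hx⟩ := hx
    obtain ⟨t, rfl, ht, -⟩ := (Finset.mem_filter.1 hj).2
    have h4 := abs_le.1 ht
    have h5 := Int.floor_le t
    have h6 := Int.lt_floor_add_one t
    constructor
    · linarith [hx.1]
    · linarith [hx.2]
  calc (J.card : ℝ) * (δ / (2 * L) * ((δ / 2) ^ l) ^ 2)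
      = ∑ j ∈ J, δ / (2 * L) * ((δ / 2) ^ l) ^ 2 := by
        rw [Finset.sum_const, nsmul_eq_mul]
    _ ≤ ∑ j ∈ J, ∫ s in Set.Ioc (j : ℝ) ((j : ℝ) + 1), ‖f s ^ l‖ ^ 2 := Finset.sum_le_sum h1
    _ = ∫ s in ⋃ j ∈ J, Set.Ioc (j : ℝ) ((j : ℝ) + 1), ‖f s ^ l‖ ^ 2 := h2.symm
    _ ≤ _ := h3

theorem count_one : ∃ C : ℝ, 0 < C ∧ ∀ (a0 C1 X : ℝ) (a b l : ℕ), 0 < a0 → a0 ≤ 1 / 16 →
    0 ≤ C1 → 1 ≤ X → 4 ≤ a → b ≤ 2 * a → (a : ℝ) ^ l ≤ X → X < (a : ℝ) ^ (l + 1) →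
    ∃ J : Finset ℤ, (∀ t : ℝ, |t| ≤ C1 * X →
      (a : ℝ) ^ (-(2 * a0)) ≤ ‖Pp ((Finset.Ico a b).filter Nat.Prime) t‖ → ⌊t⌋ ∈ J) ∧
      (J.card : ℝ) ≤ C * (1 + C1) * Real.log (2 * a) * (a : ℝ) ^ 2 * 8 ^ l * X ^ (4 * a0) *
        ((l : ℝ) + 1) ^ l := by
  obtain ⟨C0, hC0, hmv⟩ := pow_mv_one
  refine ⟨4 * C0, by positivity, ?_⟩
  intro a0 C1 X a b l ha0 ha1 hC1 hX ha hb hal hXl
  have haR : (4 : ℝ) ≤ a := by exact_mod_cast ha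
  have ha0' : (0 : ℝ) < a := by linarith
  set L : ℝ := Real.log (2 * a) with hLdef
  have hL : 1 ≤ L := by
    rw [hLdef, Real.le_log_iff_exp_le (by linarith)]
    have := Real.exp_one_lt_d9
    linarith
  have hL0 : 0 < L := by linarith
  set δ : ℝ := (a : ℝ) ^ (-(2 * a0)) with hδdef
  have hδ : 0 < δ := Real.rpow_pos_of_pos ha0' _
  have hδ1 : δ ≤ 1 := Real.rpow_le_one_of_one_le_of_nonpos (by linarith) (by linarith)
  have hR : 0 ≤ C1 * X := mul_nonneg hC1 (by linarith)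
  obtain ⟨J, hJ, hcard⟩ := cntB_card (continuous_Pp ((Finset.Ico a b).filter Nat.Prime)) hL hδ
    hδ1 (fun s t => lip_Pp ha hb s t) (C1 * X) l
  refine ⟨J, hJ, ?_⟩
  have h1 := hmv (C1 * X + 1) a b l ha hb (by linarith)
  have h2 := hcard.trans h1
  have hal0 : (0 : ℝ) < (a : ℝ) ^ l := by positivity
  -- the right hand side
  have h3 : (C1 * X + 1 + (2 * (a : ℝ)) ^ l) / (a : ℝ) ^ l ≤ 2 * (1 + C1) * a * 2 ^ l := by
    rw [div_le_iff₀ hal0, mul_pow]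
    have h4 : C1 * X + 1 ≤ (1 + C1) * ((a : ℝ) * (a : ℝ) ^ l) := by
      have h5 : X ≤ (a : ℝ) * (a : ℝ) ^ l := by
        rw [pow_succ] at hXl
        linarith [mul_comm (a : ℝ) ((a : ℝ) ^ l)]
      nlinarith
    have h6 : (1 : ℝ) ≤ 2 ^ l := one_le_pow₀ (by norm_num)
    have h7 : (0 : ℝ) < 1 + C1 := by linarith
    have h8 : (1 + C1) * ((a : ℝ) * (a : ℝ) ^ l) ≤ (1 + C1) * ((a : ℝ) * (a : ℝ) ^ l) * 2 ^ l :=
      le_mul_of_one_le_right (by positivity) h6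
    have h9 : (2 : ℝ) ^ l * (a : ℝ) ^ l ≤ (1 + C1) * ((a : ℝ) * (a : ℝ) ^ l) * 2 ^ l := by
      have h10 : (1 : ℝ) ≤ (1 + C1) * a := by nlinarith
      calc (2 : ℝ) ^ l * (a : ℝ) ^ l = 1 * (2 ^ l * (a : ℝ) ^ l) := by ring
        _ ≤ (1 + C1) * a * (2 ^ l * (a : ℝ) ^ l) :=
          mul_le_mul_of_nonneg_right h10 (by positivity)
        _ = _ := by ring
    calc C1 * X + 1 + 2 ^ l * (a : ℝ) ^ l
        ≤ (1 + C1) * ((a : ℝ) * (a : ℝ) ^ l) * 2 ^ l +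
          (1 + C1) * ((a : ℝ) * (a : ℝ) ^ l) * 2 ^ l := by linarith
      _ = 2 * (1 + C1) * a * 2 ^ l * (a : ℝ) ^ l := by ring
  have h4 : C0 * (C1 * X + 1 + (2 * (a : ℝ)) ^ l) / (a : ℝ) ^ l * ((l : ℝ) + 1) ^ l ≤
      C0 * (2 * (1 + C1) * a * 2 ^ l) * ((l : ℝ) + 1) ^ l := by
    rw [mul_div_assoc]
    refine mul_le_mul_of_nonneg_right ?_ (by positivity)
    exact mul_le_mul_of_nonneg_left h3 hC0.le
  have h5 := h2.trans h4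
  -- the left hand side
  have h6 : 1 ≤ δ ^ (2 * l + 1) * (X ^ (4 * a0) * a) := by
    have g1 : δ ^ (2 * l + 1) = (a : ℝ) ^ (-(2 * a0) * ((2 * l + 1 : ℕ) : ℝ)) := by
      rw [hδdef, Real.rpow_mul_natCast ha0'.le]
    have g2 : (a : ℝ) ^ (4 * a0 * (l : ℝ)) ≤ X ^ (4 * a0) := by
      have g3 : (a : ℝ) ^ (4 * a0 * (l : ℝ)) = ((a : ℝ) ^ l) ^ (4 * a0) := by
        rw [← Real.rpow_natCast, ← Real.rpow_mul ha0'.le, mul_comm]
      rw [g3]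
      exact Real.rpow_le_rpow hal0.le hal (by linarith)
    have g4 : (a : ℝ) ^ (2 * a0) ≤ a := by
      calc (a : ℝ) ^ (2 * a0) ≤ (a : ℝ) ^ (1 : ℝ) :=
            Real.rpow_le_rpow_of_exponent_le (by linarith) (by linarith)
        _ = a := Real.rpow_one _
    have g5 : (a : ℝ) ^ (4 * a0 * (l : ℝ)) * (a : ℝ) ^ (2 * a0) =
        (a : ℝ) ^ (2 * a0 * ((2 * l + 1 : ℕ) : ℝ)) := by
      rw [← Real.rpow_add ha0']
      congr 1
      push_cast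
      ring
    have g6 : (a : ℝ) ^ (2 * a0 * ((2 * l + 1 : ℕ) : ℝ)) ≤ X ^ (4 * a0) * a := by
      rw [← g5]
      exact mul_le_mul g2 g4 (by positivity) (by positivity)
    have g7 : (a : ℝ) ^ (-(2 * a0) * ((2 * l + 1 : ℕ) : ℝ)) *
        (a : ℝ) ^ (2 * a0 * ((2 * l + 1 : ℕ) : ℝ)) = 1 := by
      rw [← Real.rpow_add ha0', neg_mul, neg_add_cancel, Real.rpow_zero]
    rw [g1, ← g7]
    exact mul_le_mul_of_nonneg_left g6 (by positivity)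
  have h7 : δ / (2 * L) * ((δ / 2) ^ l) ^ 2 = δ ^ (2 * l + 1) / (2 * L * 4 ^ l) := by
    have g1 : ((δ / 2) ^ l) ^ 2 = δ ^ (2 * l) / 4 ^ l := by
      rw [← pow_mul, mul_comm l 2, div_pow, pow_mul (2 : ℝ)]
      norm_num
    rw [g1, div_mul_div_comm, pow_succ]
    ring
  rw [h7] at h5
  have hD : 0 < 2 * L * 4 ^ l * (X ^ (4 * a0) * a) := by
    have : 0 < X ^ (4 * a0) := Real.rpow_pos_of_pos (by linarith) _
    positivity
  have h8 : (J.card : ℝ) ≤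
      (J.card : ℝ) * (δ ^ (2 * l + 1) / (2 * L * 4 ^ l)) *
        (2 * L * 4 ^ l * (X ^ (4 * a0) * a)) := by
    have g1 : (J.card : ℝ) * (δ ^ (2 * l + 1) / (2 * L * 4 ^ l)) *
        (2 * L * 4 ^ l * (X ^ (4 * a0) * a)) =
        (J.card : ℝ) * (δ ^ (2 * l + 1) * (X ^ (4 * a0) * a)) := by
      field_simp
    rw [g1]
    exact le_mul_of_one_le_right (Nat.cast_nonneg _) h6
  refine h8.trans ((mul_le_mul_of_nonneg_right h5 hD.le).trans (le_of_eq ?_))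
  have g8 : (8 : ℝ) ^ l = 4 ^ l * 2 ^ l := by
    rw [← mul_pow]
    norm_num
  rw [g8]
  ring

end Pool.Agent.MOM
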