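import Pool.Agent.MOM.Rec.Defs

/-!
MOM, section 3: the combinatorial moment bound.

Write `A_j^B = (upR S)^[j] B` (sum over `j`-tuples of primes of `S` and `m` with product `n` of `B m`) and
`r_l = (upR S)^[l] 1` (number of `l`-tuples of `S` whose product divides `n`).

PROOF of `upR_split`: for a prime `p' ∈ S` and every `n' ≥ 1`
`A_j^B(p' n') ≤ j A_{j-1}^B(n') + A_j^{B(p' ·)}(n')` (for `j = 0` the first term is `0`). Induction on
`j`. `j = 0`: `B(p' n') = B(p' n')`. `j+1`: `A_{j+1}^B(p' n') = ∑_{p ∈ S, p ∣ p' n'} A_j^B(p' n'/p)`. The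
term `p = p'` (if `p' ∈ S`) is `A_j^B(n')`. For `p ≠ p'` one has `p ∣ n'` (primes) and
`p' n'/p = p' (n'/p)`, so by induction the term is at most
`j A_{j-1}^B(n'/p) + A_j^{B(p' ·)}(n'/p)`; the sum over all `p ∈ S`, `p ∣ n'` of this is
`j A_j^B(n') + A_{j+1}^{B(p' ·)}(n')` (for `j = 0` the first is `0`).

PROOF of `moment_comb`, induction on `l`, for all `j`, `B`, `K`.
`l = 0`: `∑_{n<K} A_j^B(n)/n ≤ 2` by induction on `j`: `∑_{n<K} ∑_{p ∣ n} A_j^B(n/p)/n
≤ ∑_p (1/p) ∑_{m<K} A_j^B(m)/m ≤ qs S * 2 ≤ 2` (`n = p m`, `n < K` implies `m < K`; terms `≥ 0`).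
`l+1`: `r_{l+1}(n) = ∑_{p' ∈ S, p' ∣ n} r_l(n/p')`, so the sum is at most
`∑_{p'} (1/p') ∑_{n' < K} A_j^B(p' n') r_l(n')/n'`, by `upR_split`
`≤ ∑_{p'} (1/p') (j * 2 j^l + 2 (j+1)^l)` (induction hypothesis for `j-1`, `B` and for `j`,
`B(p' ·)`, which satisfies the hypothesis `hB2` again) `≤ qs S * 2 (j+1)^l (j+1) ≤ 2 (j+1)^{l+1}`.
-/

set_option autoImplicit false

namespace Pool.Agent.MOM

open Finset

private theorem nonneg_iter (S : Finset ℕ) {B : ℕ → ℝ} (hB : ∀ n, 0 ≤ B n) (j n : ℕ) :
    0 ≤ (upR S)^[j] B n := by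
  induction j generalizing n with
  | zero => exact hB n
  | succ j ih =>
    rw [Function.iterate_succ_apply']
    exact Finset.sum_nonneg fun p _ => ih _

private theorem iter_succ (S : Finset ℕ) (B : ℕ → ℝ) (j n : ℕ) :
    (upR S)^[j + 1] B n = ∑ p ∈ S.filter (· ∣ n), (upR S)^[j] B (n / p) := by
  rw [Function.iterate_succ_apply']
  rfl

private theorem swap_le {S : Finset ℕ} (hS : ∀ p ∈ S, 0 < p) (g : ℕ → ℕ → ℝ)
    (hg : ∀ p m, 0 ≤ g p m) (K : ℕ) :
    ∑ n ∈ Ico 1 K, ∑ p ∈ S.filter (· ∣ n), g p (n / p) ≤ ∑ p ∈ S, ∑ m ∈ Ico 1 K, g p m := by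
  simp only [Finset.sum_filter]
  rw [Finset.sum_comm]
  refine Finset.sum_le_sum fun p hp => ?_
  rw [← Finset.sum_filter]
  have hp0 := hS p hp
  have hinj : Set.InjOn (fun n => n / p) ((Ico 1 K).filter (p ∣ ·) : Set ℕ) := by
    intro a ha b hb hab
    simp only [Finset.coe_filter, Set.mem_ofPred_eq] at ha hb
    have h1 := Nat.div_mul_cancel ha.2
    have h2 := Nat.div_mul_cancel hb.2
    simp only at hab
    rw [← h1, ← h2, hab]
  rw [← Finset.sum_image (f := fun m => g p m) hinj]
  refine Finset.sum_le_sum_of_subset_of_nonneg ?_ fun m _ _ => hg p m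
  intro m hm
  rw [Finset.mem_image] at hm
  obtain ⟨n, hn, rfl⟩ := hm
  rw [Finset.mem_filter, Finset.mem_Ico] at hn
  rw [Finset.mem_Ico]
  obtain ⟨⟨h1, h2⟩, h3⟩ := hn
  exact ⟨Nat.div_pos (Nat.le_of_dvd h1 h3) hp0, (Nat.div_le_self _ _).trans_lt h2⟩

theorem upR_split {S : Finset ℕ} (hS : ∀ p ∈ S, p.Prime) {B : ℕ → ℝ} (hB : ∀ n, 0 ≤ B n)
    {p' : ℕ} (hp' : p'.Prime) (j : ℕ) {n' : ℕ} (hn' : 0 < n') :
    (upR S)^[j] B (p' * n') ≤
      j * (upR S)^[j - 1] B n' + (upR S)^[j] (fun m => B (p' * m)) n' := by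
  induction j generalizing n' with
  | zero => simp
  | succ j ih =>
    have hpos := hp'.pos
    have hB' : ∀ m, 0 ≤ (fun m => B (p' * m)) m := fun m => hB _
    rw [iter_succ, iter_succ S (fun m => B (p' * m)), Nat.add_sub_cancel]
    -- bound by the term `p'` plus the others
    have h1 : ∑ p ∈ S.filter (· ∣ p' * n'), (upR S)^[j] B (p' * n' / p) ≤
        (upR S)^[j] B n' +
          ∑ p ∈ S.filter (· ∣ n'), (upR S)^[j] B (p' * (n' / p)) := by
      have hsub : S.filter (· ∣ p' * n') ⊆ insert p' (S.filter (· ∣ n')) := by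
        intro p hp
        rw [Finset.mem_filter] at hp
        rw [Finset.mem_insert, Finset.mem_filter]
        by_cases h : p = p'
        · exact Or.inl h
        · right
          refine ⟨hp.1, ?_⟩
          rcases (hS p hp.1).dvd_mul.1 hp.2 with h2 | h2
          · exact absurd ((Nat.prime_dvd_prime_iff_eq (hS p hp.1) hp').1 h2) h
          · exact h2
      have h2 : ∀ p ∈ S.filter (· ∣ p' * n'), (upR S)^[j] B (p' * n' / p) =
          if p = p' then (upR S)^[j] B n' else (upR S)^[j] B (p' * (n' / p)) := by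
        intro p hp
        rw [Finset.mem_filter] at hp
        split_ifs with h
        · rw [h, Nat.mul_div_cancel_left _ hpos]
        · rcases (hS p hp.1).dvd_mul.1 hp.2 with h2 | h2
          · exact absurd ((Nat.prime_dvd_prime_iff_eq (hS p hp.1) hp').1 h2) h
          · rw [Nat.mul_div_assoc _ h2]
      rw [Finset.sum_congr rfl h2]
      have h3 : ∀ p, 0 ≤ (if p = p' then (upR S)^[j] B n' else
          (upR S)^[j] B (p' * (n' / p))) := by
        intro p
        split_ifs
        · exact nonneg_iter S hB _ _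
        · exact nonneg_iter S hB _ _
      refine (Finset.sum_le_sum_of_subset_of_nonneg hsub fun p _ _ => h3 p).trans ?_
      by_cases hin : p' ∈ S.filter (· ∣ n')
      · rw [Finset.insert_eq_of_mem hin, ← Finset.add_sum_erase _ _ hin]
        rw [if_pos rfl]
        refine add_le_add le_rfl ?_
        calc ∑ p ∈ (S.filter (· ∣ n')).erase p', (if p = p' then (upR S)^[j] B n' else
              (upR S)^[j] B (p' * (n' / p)))
            = ∑ p ∈ (S.filter (· ∣ n')).erase p', (upR S)^[j] B (p' * (n' / p)) := by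
              refine Finset.sum_congr rfl fun p hp => ?_
              rw [if_neg (Finset.ne_of_mem_erase hp)]
          _ ≤ ∑ p ∈ S.filter (· ∣ n'), (upR S)^[j] B (p' * (n' / p)) :=
              Finset.sum_le_sum_of_subset_of_nonneg (Finset.erase_subset _ _)
                fun p _ _ => nonneg_iter S hB _ _
      · rw [Finset.sum_insert hin, if_pos rfl]
        refine add_le_add le_rfl (le_of_eq ?_)
        refine Finset.sum_congr rfl fun p hp => ?_
        rw [if_neg]
        rintro rfl
        exact hin hp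
    refine h1.trans ?_
    have h4 : ∑ p ∈ S.filter (· ∣ n'), (upR S)^[j] B (p' * (n' / p)) ≤
        j * (upR S)^[j] B n' +
          ∑ p ∈ S.filter (· ∣ n'), (upR S)^[j] (fun m => B (p' * m)) (n' / p) := by
      have h5 : ∀ p ∈ S.filter (· ∣ n'), (upR S)^[j] B (p' * (n' / p)) ≤
          j * (upR S)^[j - 1] B (n' / p) + (upR S)^[j] (fun m => B (p' * m)) (n' / p) := by
        intro p hp
        rw [Finset.mem_filter] at hp
        exact ih (Nat.div_pos (Nat.le_of_dvd hn' hp.2) (hS p hp.1).pos)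
      refine (Finset.sum_le_sum h5).trans ?_
      rw [Finset.sum_add_distrib, ← Finset.mul_sum]
      refine add_le_add ?_ le_rfl
      rcases j with _ | j
      · simp
      · rw [Nat.add_sub_cancel, ← iter_succ]
    have h6 : ((j + 1 : ℕ) : ℝ) * (upR S)^[j] B n' =
        (upR S)^[j] B n' + j * (upR S)^[j] B n' := by
      push_cast
      ring
    rw [h6]
    linarith

theorem moment_comb {S : Finset ℕ} (hS : ∀ p ∈ S, p.Prime) (hq : qs S ≤ 1) (l j : ℕ)
    {B : ℕ → ℝ} (hB : ∀ n, 0 ≤ B n)
    (hB2 : ∀ d K : ℕ, 0 < d → ∑ m ∈ Ico 1 K, B (d * m) / m ≤ 2) (K : ℕ) :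
    ∑ n ∈ Ico 1 K, (upR S)^[j] B n * (upR S)^[l] (fun _ => 1) n / n ≤ 2 * ((j : ℝ) + 1) ^ l := by
  have hpos : ∀ p ∈ S, 0 < p := fun p hp => (hS p hp).pos
  induction l generalizing j B K with
  | zero =>
    simp only [Function.iterate_zero, id_eq, mul_one, pow_zero]
    induction j with
    | zero =>
      have h := hB2 1 K one_pos
      simpa using h
    | succ j ih =>
      have h1 : ∀ n ∈ Ico 1 K, (upR S)^[j + 1] B n / n =
          ∑ p ∈ S.filter (· ∣ n), (fun p m : ℕ => 1 / (p : ℝ) * ((upR S)^[j] B m / m))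
            p (n / p) := by
        intro n hn
        rw [iter_succ, Finset.sum_div]
        refine Finset.sum_congr rfl fun p hp => ?_
        rw [Finset.mem_filter] at hp
        simp only
        rw [Nat.cast_div hp.2 (by exact_mod_cast (hpos p hp.1).ne')]
        have hp0 : (p : ℝ) ≠ 0 := by exact_mod_cast (hpos p hp.1).ne'
        have hn0 : (n : ℝ) ≠ 0 := by
          rw [Finset.mem_Ico] at hn
          exact_mod_cast (show n ≠ 0 by omega)
        field_simp
      rw [Finset.sum_congr rfl h1]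
      refine (swap_le hpos (fun p m : ℕ => 1 / (p : ℝ) * ((upR S)^[j] B m / m))
        (fun p m => ?_) K).trans ?_
      · have := nonneg_iter S hB j m
        positivity
      · have h2 : ∀ p ∈ S, ∑ m ∈ Ico 1 K, 1 / (p : ℝ) * ((upR S)^[j] B m / m) ≤
            1 / (p : ℝ) * 2 := by
          intro p hp
          rw [← Finset.mul_sum]
          exact mul_le_mul_of_nonneg_left ih (by positivity)
        refine (Finset.sum_le_sum h2).trans ?_
        rw [← Finset.sum_mul]
        have h3 : ∑ p ∈ S, 1 / (p : ℝ) ≤ 1 := hq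
        linarith
  | succ l ih =>
    have h1 : ∀ n ∈ Ico 1 K, (upR S)^[j] B n * (upR S)^[l + 1] (fun _ => 1) n / n =
        ∑ p ∈ S.filter (· ∣ n), (fun p m : ℕ => 1 / (p : ℝ) *
          ((upR S)^[j] B (p * m) * (upR S)^[l] (fun _ => 1) m / m)) p (n / p) := by
      intro n hn
      rw [iter_succ, Finset.mul_sum, Finset.sum_div]
      refine Finset.sum_congr rfl fun p hp => ?_
      rw [Finset.mem_filter] at hp
      simp only
      rw [Nat.mul_div_cancel' hp.2, Nat.cast_div hp.2 (by exact_mod_cast (hpos p hp.1).ne')]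
      have hp0 : (p : ℝ) ≠ 0 := by exact_mod_cast (hpos p hp.1).ne'
      have hn0 : (n : ℝ) ≠ 0 := by
        rw [Finset.mem_Ico] at hn
        exact_mod_cast (show n ≠ 0 by omega)
      field_simp
    rw [Finset.sum_congr rfl h1]
    have hone : ∀ l m, 0 ≤ (upR S)^[l] (fun _ => (1 : ℝ)) m := fun l m =>
      nonneg_iter S (fun _ => zero_le_one) l m
    refine (swap_le hpos (fun p m : ℕ => 1 / (p : ℝ) *
      ((upR S)^[j] B (p * m) * (upR S)^[l] (fun _ => 1) m / m)) (fun p m => ?_) K).trans ?_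
    · have h2 := nonneg_iter S hB j (p * m)
      have h3 := hone l m
      positivity
    · have h2 : ∀ p ∈ S, ∑ m ∈ Ico 1 K, 1 / (p : ℝ) *
          ((upR S)^[j] B (p * m) * (upR S)^[l] (fun _ => 1) m / m) ≤
            1 / (p : ℝ) * (2 * ((j : ℝ) + 1) ^ (l + 1)) := by
        intro p hp
        rw [← Finset.mul_sum]
        refine mul_le_mul_of_nonneg_left ?_ (by positivity)
        have h3 : ∀ m ∈ Ico 1 K, (upR S)^[j] B (p * m) * (upR S)^[l] (fun _ => 1) m / m ≤
            j * ((upR S)^[j - 1] B m * (upR S)^[l] (fun _ => 1) m / m) +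
              (upR S)^[j] (fun m => B (p * m)) m * (upR S)^[l] (fun _ => 1) m / m := by
          intro m hm
          rw [Finset.mem_Ico] at hm
          have h4 := upR_split hS hB (hS p hp) j (show 0 < m by omega)
          have h5 := mul_le_mul_of_nonneg_right h4 (hone l m)
          have h6 := div_le_div_of_nonneg_right h5 (show (0 : ℝ) ≤ m by positivity)
          refine h6.trans (le_of_eq ?_)
          ring
        refine (Finset.sum_le_sum h3).trans ?_
        rw [Finset.sum_add_distrib, ← Finset.mul_sum]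
        have h7 := ih j (B := fun m => B (p * m)) (fun n => hB _) (fun d K hd => by
          have h8 := hB2 (p * d) K (Nat.mul_pos (hpos p hp) hd)
          simpa only [mul_assoc] using h8) K
        have h9 : (j : ℝ) * ∑ m ∈ Ico 1 K, (upR S)^[j - 1] B m *
            (upR S)^[l] (fun _ => 1) m / m ≤ j * (2 * ((j : ℝ) + 1) ^ l) := by
          rcases j with _ | j
          · simp
          · refine mul_le_mul_of_nonneg_left ?_ (by positivity)
            have h10 := ih j hB hB2 K
            rw [Nat.add_sub_cancel]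
            refine h10.trans ?_
            push_cast
            refine mul_le_mul_of_nonneg_left ?_ (by norm_num)
            exact pow_le_pow_left₀ (by positivity) (by linarith) l
        refine (add_le_add h9 h7).trans (le_of_eq ?_)
        rw [pow_succ]
        ring
      refine (Finset.sum_le_sum h2).trans ?_
      rw [← Finset.sum_mul]
      have h3 : ∑ p ∈ S, 1 / (p : ℝ) ≤ 1 := hq
      have h4 : (0 : ℝ) ≤ 2 * ((j : ℝ) + 1) ^ (l + 1) := by positivity
      nlinarith

end Pool.Agent.MOM
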