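import Pool.Agent.MOM.Defs

/-!
MOM, section 3 (Theorem A): definitions. See /team-store/MOMO.md, section 3.
-/

set_option autoImplicit false

namespace Pool.Agent.MOM

open Finset MeasureTheory

/-- `Q_S(t) = ∑_{p ∈ S} p^{-1-it}`. -/
noncomputable def Pp (S : Finset ℕ) (t : ℝ) : ℂ := dp S (fun _ => 1) t

/-- `b_Q(m) = μ(m) / (ω_Q(m) + 1)`. -/
noncomputable def bq (Q : Finset ℕ) (m : ℕ) : ℂ := mu m / ((om Q m : ℂ) + 1)

/-- `Q`: the union of the cells `u₀ ≤ u < u₁` at resolution `H`. -/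
noncomputable def QQ (H u0 u1 : ℕ) : Finset ℕ := (Finset.Ico u0 u1).biUnion (cell H)

/-- `M_u = X e^{-u/H}`. -/
noncomputable def Mu (X : ℝ) (H u : ℕ) : ℝ := X * Real.exp (-((u : ℝ) / H))

/-- `R_u(t) = ∑_{M_u < m ≤ lam M_u} b_Q(m) m^{-1-it}`. -/
noncomputable def Ru (lam X : ℝ) (H u0 u1 u : ℕ) (t : ℝ) : ℂ :=
  dp (win (Mu X H u) (lam * Mu X H u)) (bq (QQ H u0 u1)) t

/-- Ramaré's error term `E(t) = M_X(t) + ∑_u Q_u(t) R_u(t)`. -/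
noncomputable def EE (lam X : ℝ) (H u0 u1 : ℕ) (t : ℝ) : ℂ :=
  MX lam X t + ∑ u ∈ Finset.Ico u0 u1, Pp (cell H u) t * Ru lam X H u0 u1 u t

/-- `(up S a)(n) = ∑_{p ∈ S, p ∣ n} a(n/p)`: the coefficients of the product with `Q_S`. -/
noncomputable def up (S : Finset ℕ) (a : ℕ → ℂ) (n : ℕ) : ℂ :=
  ∑ p ∈ S.filter (· ∣ n), a (n / p)

/-- The real version of `up`. -/
noncomputable def upR (S : Finset ℕ) (a : ℕ → ℝ) (n : ℕ) : ℝ :=
  ∑ p ∈ S.filter (· ∣ n), a (n / p)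

/-- The coefficients of `E(t)`. -/
noncomputable def ecf (lam X : ℝ) (H u0 u1 n : ℕ) : ℂ :=
  (if n ∈ win X (lam * X) then mu n else 0) +
    ∑ u ∈ Finset.Ico u0 u1, up (cell H u)
      (fun m => if m ∈ win (Mu X H u) (lam * Mu X H u) then bq (QQ H u0 u1) m else 0) n

/-- `α_j = α_0 (2 - 2^{-j})`. -/
noncomputable def alj (a0 : ℝ) (j : ℕ) : ℝ := a0 * (2 - ((2 : ℝ)⁻¹) ^ j)

/-- `β_j = α_0 2^{-j-3}`. -/
noncomputable def bej (a0 : ℝ) (j : ℕ) : ℝ := a0 * ((2 : ℝ)⁻¹) ^ (j + 3)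

/-- The exceptional set `UU_X`. -/
def UU (a0 C1 X : ℝ) : Set ℝ :=
  {t | |t| ≤ C1 * X ∧ ∃ a b : ℕ, b ≤ 2 * a ∧ (Real.log X) ^ (4 / a0) ≤ a ∧
    (a : ℝ) ≤ Real.exp (Real.sqrt (Real.log X)) ∧
    (a : ℝ) ^ (-(2 * a0)) ≤ ‖Pp ((Finset.Ico a b).filter Nat.Prime) t‖}

/-- The resolution `H = ⌈P^{β/4}⌉` of the recursion step; `L = log P`. -/
noncomputable def stH (be L : ℝ) : ℕ := ⌈Real.exp (be * L / 4)⌉₊

/-- `u₀ = ⌈H L/β⌉`. -/
noncomputable def st0 (be L : ℝ) : ℕ := ⌈(stH be L : ℝ) * (L / be)⌉₊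

/-- `u₁ = ⌊H P^β⌋`. -/
noncomputable def st1 (be L : ℝ) : ℕ := ⌊(stH be L : ℝ) * Real.exp (be * L)⌋₊

/-- `l = ⌈(u/H)/L⌉`. -/
noncomputable def stl (be L : ℝ) (u : ℕ) : ℕ := ⌈((u : ℝ) / stH be L) / L⌉₊

theorem continuous_Pp (S : Finset ℕ) : Continuous (Pp S) := continuous_dp S _

theorem continuous_Ru (lam X : ℝ) (H u0 u1 u : ℕ) : Continuous (Ru lam X H u0 u1 u) :=
  continuous_dp _ _

theorem continuous_MX (lam X : ℝ) : Continuous (MX lam X) := continuous_dp _ _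

theorem continuous_EE (lam X : ℝ) (H u0 u1 : ℕ) : Continuous (EE lam X H u0 u1) := by
  unfold EE
  exact (continuous_MX lam X).add (continuous_finsetSum _ fun u _ =>
    (continuous_Pp _).mul (continuous_Ru _ _ _ _ _ _))

theorem norm_Pp_le (S : Finset ℕ) (t : ℝ) : ‖Pp S t‖ ≤ qs S := by
  unfold Pp qs
  refine (norm_dp_le S _ t).trans (le_of_eq ?_)
  simp

theorem om_nonneg (Q : Finset ℕ) (n : ℕ) : (0 : ℝ) ≤ om Q n := by positivity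

theorem norm_bq_le (Q : Finset ℕ) (m : ℕ) : ‖bq Q m‖ ≤ 1 / ((om Q m : ℝ) + 1) := by
  unfold bq
  have h1 : ‖((om Q m : ℂ) + 1)‖ = (om Q m : ℝ) + 1 := by
    rw [show ((om Q m : ℂ) + 1) = (((om Q m : ℝ) + 1 : ℝ) : ℂ) by push_cast; rfl,
      Complex.norm_real, Real.norm_of_nonneg (by positivity)]
  rw [norm_div, h1]
  exact div_le_div_of_nonneg_right (norm_mu_le m) (by positivity)

theorem norm_bq_le_one (Q : Finset ℕ) (m : ℕ) : ‖bq Q m‖ ≤ 1 := by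
  refine (norm_bq_le Q m).trans ?_
  rw [div_le_one (by positivity)]
  have : (0 : ℝ) ≤ om Q m := by positivity
  linarith

theorem MX_eq (lam X : ℝ) (H u0 u1 : ℕ) (t : ℝ) :
    MX lam X t = EE lam X H u0 u1 t -
      ∑ u ∈ Finset.Ico u0 u1, Pp (cell H u) t * Ru lam X H u0 u1 u t := by
  unfold EE
  ring

theorem cell_eq (H u : ℕ) : cell H u = (Finset.Ico ⌈Real.exp ((u : ℝ) / H)⌉₊
    ⌈Real.exp (((u : ℝ) + 1) / H)⌉₊).filter Nat.Prime := rfl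

theorem alj_zero (a0 : ℝ) : alj a0 0 = a0 := by unfold alj; norm_num

theorem alj_succ (a0 : ℝ) (j : ℕ) : alj a0 (j + 1) = alj a0 j + 4 * bej a0 j := by
  unfold alj bej
  rw [pow_succ, pow_add]
  ring

theorem bej_succ (a0 : ℝ) (j : ℕ) : bej a0 (j + 1) = bej a0 j / 2 := by
  unfold bej
  rw [show j + 1 + 3 = (j + 3) + 1 by ring, pow_succ]
  ring

theorem bej_pos {a0 : ℝ} (h : 0 < a0) (j : ℕ) : 0 < bej a0 j := by unfold bej; positivity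

theorem bej_le {a0 : ℝ} (h : 0 < a0) (j : ℕ) : bej a0 j ≤ a0 / 8 := by
  unfold bej
  have h1 : ((2 : ℝ)⁻¹) ^ (j + 3) ≤ (2⁻¹) ^ 3 :=
    pow_le_pow_of_le_one (by norm_num) (by norm_num) (by omega)
  nlinarith

theorem alj_nonneg {a0 : ℝ} (h : 0 < a0) (j : ℕ) : a0 ≤ alj a0 j := by
  unfold alj
  have h1 : ((2 : ℝ)⁻¹) ^ j ≤ 1 := pow_le_one₀ (by norm_num) (by norm_num)
  nlinarith

theorem alj_le {a0 : ℝ} (h : 0 < a0) (j : ℕ) : alj a0 j ≤ 2 * a0 := by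
  unfold alj
  have h1 : 0 < ((2 : ℝ)⁻¹) ^ j := by positivity
  nlinarith

end Pool.Agent.MOM
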