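import Pool.Agent.MOM.Rec.FinS

/-!
MOM, section 3, final part: the mean square of `M_X` over `UU_X` tends to zero.

PROOF of `final_S`. `a0 = min (1/16) (c/9)` in `final`, so `J.card ≤ X^{9a0/2} ≤ X^{c/2}`. With
`q_u = C4/u`, `Q = ∑_u q_u ≤ C4 (1 + log(1/ε))`, Cauchy-Schwarz:
`‖∑_u Q_u R_u‖² ≤ (∑_u q_u) ∑_u ‖Q_u R_u‖²/q_u`. Integrate over `UU` (measurable, bounded) and use
`unit_int` for every `u` with `f = ‖Q_u R_u‖²` and `J` restricted to the `j = ⌊t⌋`, `t ∈ UU`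
(so that `|τ j| ≤ C1 X + 1`), and `one_u`:
`∫ ≤ Q ∑_u q_u (CB/d² Δ² + C7 d²) = Q² (CB/d² Δ² + C7 d²)`.

PROOF of `final`. Given `η`: choose `ε` and `H` with `2 C (1+C1) (ε + 1/H) ≤ η/2`, then `d` with
`2 C4² (1+log(1/ε))² C7 d² ≤ η/4`, then `Δ` with `2 C4² (1+log(1/ε))² CB/d² Δ² ≤ η/4`, then `X` large;
`‖MX‖² ≤ 2‖EE‖² + 2‖∑‖²` (`MX_eq`), `UU ⊆ Set.Icc (-(C1 X)) (C1 X)`, `final_E`, `final_S`.

THIS FILE: `final`.
-/

set_option autoImplicit false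

namespace Pool.Agent.MOM

open Finset MeasureTheory

private theorem split_int {f g h : ℝ → ℂ} (hf : Continuous f) (hg : Continuous g)
    (hh : ∀ t, h t = f t - g t) {U : Set ℝ} {a b A B : ℝ} (hU : U ⊆ Set.Icc a b)
    (h1 : ∫ t in Set.Icc a b, ‖f t‖ ^ 2 ≤ A) (h2 : ∫ t in U, ‖g t‖ ^ 2 ≤ B) :
    ∫ t in U, ‖h t‖ ^ 2 ≤ 2 * A + 2 * B := by
  have cf : Continuous fun t => ‖f t‖ ^ 2 := hf.norm.pow 2
  have cg : Continuous fun t => ‖g t‖ ^ 2 := hg.norm.pow 2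
  have ch : Continuous fun t => ‖h t‖ ^ 2 := by
    have e : h = fun t => f t - g t := funext hh
    rw [e]
    exact (hf.sub hg).norm.pow 2
  have jf : IntegrableOn (fun t => ‖f t‖ ^ 2) (Set.Icc a b) := cf.integrableOn_Icc
  have kf : IntegrableOn (fun t => ‖f t‖ ^ 2) U := jf.mono_set hU
  have kg : IntegrableOn (fun t => ‖g t‖ ^ 2) U :=
    (cg.integrableOn_Icc (a := a) (b := b)).mono_set hU
  have kh : IntegrableOn (fun t => ‖h t‖ ^ 2) U :=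
    (ch.integrableOn_Icc (a := a) (b := b)).mono_set hU
  have h3 : ∫ t in U, ‖h t‖ ^ 2 ≤ ∫ t in U, (2 * ‖f t‖ ^ 2 + 2 * ‖g t‖ ^ 2) := by
    refine setIntegral_mono kh ((kf.const_mul 2).add (kg.const_mul 2)) fun t => ?_
    change ‖h t‖ ^ 2 ≤ 2 * ‖f t‖ ^ 2 + 2 * ‖g t‖ ^ 2
    rw [hh t]
    have h4 : ‖f t - g t‖ ≤ ‖f t‖ + ‖g t‖ := norm_sub_le _ _
    have h5 : ‖f t - g t‖ ^ 2 ≤ (‖f t‖ + ‖g t‖) ^ 2 := pow_le_pow_left₀ (norm_nonneg _) h4 2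
    nlinarith [sq_nonneg (‖f t‖ - ‖g t‖)]
  have h4 : ∫ t in U, (2 * ‖f t‖ ^ 2 + 2 * ‖g t‖ ^ 2) =
      2 * (∫ t in U, ‖f t‖ ^ 2) + 2 * ∫ t in U, ‖g t‖ ^ 2 := by
    rw [integral_add (kf.const_mul 2) (kg.const_mul 2), integral_const_mul, integral_const_mul]
  have h5 : ∫ t in U, ‖f t‖ ^ 2 ≤ ∫ t in Set.Icc a b, ‖f t‖ ^ 2 :=
    setIntegral_mono_set jf (Filter.Eventually.of_forall fun t => by positivity)
      (Filter.Eventually.of_forall hU)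
  linarith

theorem final : ∃ a0 : ℝ, 0 < a0 ∧ a0 ≤ 1 / 16 ∧ ∀ lam C1 η : ℝ, 1 < lam → lam ≤ 2 → 0 ≤ C1 →
    0 < η → ∃ X0 : ℝ, ∀ X : ℝ, X0 ≤ X → ∫ t in UU a0 C1 X, ‖MX lam X t‖ ^ 2 ≤ η := by
  obtain ⟨C, hC, hE⟩ := final_E
  obtain ⟨c, hc0, hc1, C4, C7, hC4, hC7, hS⟩ := final_S
  refine ⟨min (1 / 16) (c / 9), lt_min (by norm_num) (by positivity), min_le_left _ _, ?_⟩
  intro lam C1 η hlam hlam2 hC1 hη
  set K : ℝ := 2 * (C * (1 + C1)) with hK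
  have hK0 : 0 < K := by positivity
  set ε : ℝ := min (1 / 2) (η / (4 * K)) with hε
  have hε0 : 0 < ε := lt_min (by norm_num) (by positivity)
  have hε1 : ε ≤ 1 / 2 := min_le_left _ _
  have hε2 : ε ≤ η / (4 * K) := min_le_right _ _
  set H : ℕ := max 2 ⌈4 * K / η⌉₊ with hH
  have hH2 : 2 ≤ H := le_max_left _ _
  have hH3 : 4 * K / η ≤ H := (Nat.le_ceil _).trans (by exact_mod_cast le_max_right _ _)
  have hH0 : (0 : ℝ) < H := by
    have : (2 : ℝ) ≤ H := by exact_mod_cast hH2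
    linarith
  have hHi : 1 / (H : ℝ) ≤ η / (4 * K) := by
    rw [div_le_div_iff₀ hH0 (by positivity)]
    rw [div_le_iff₀ hη] at hH3
    linarith
  have hKK : K * (ε + 1 / H) ≤ η / 2 := by
    calc K * (ε + 1 / H) ≤ K * (η / (4 * K) + η / (4 * K)) :=
          mul_le_mul_of_nonneg_left (add_le_add hε2 hHi) hK0.le
      _ = η / 2 := by
          field_simp
          norm_num
  obtain ⟨X1, hX1⟩ := hE ε lam C1 H hε0 hε1 hlam hlam2 hC1 hH2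
  obtain ⟨CB, hCB, hS'⟩ := hS H ε (by omega) hε0 hε1
  set Q : ℝ := (C4 * (1 + Real.log (1 / ε))) ^ 2 with hQ
  have hlog : 0 ≤ Real.log (1 / ε) := by
    refine Real.log_nonneg ?_
    rw [le_div_iff₀ hε0]
    linarith
  have hQ0 : 0 < Q := by positivity
  set d : ℝ := Real.sqrt (η / (8 * Q * C7)) with hd
  have hd0 : 0 < d := Real.sqrt_pos.2 (by positivity)
  have hd2 : d ^ 2 = η / (8 * Q * C7) := Real.sq_sqrt (by positivity)
  set Δ : ℝ := Real.sqrt (η * d ^ 2 / (8 * Q * CB)) with hΔ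
  have hΔ0 : 0 < Δ := Real.sqrt_pos.2 (by positivity)
  have hΔ2 : Δ ^ 2 = η * d ^ 2 / (8 * Q * CB) := Real.sq_sqrt (by positivity)
  have hQQ : 2 * (Q * (CB / d ^ 2 * Δ ^ 2 + C7 * d ^ 2)) = η / 2 := by
    have e1 : Q * (CB / d ^ 2 * Δ ^ 2) = η / 8 := by
      rw [hΔ2]
      field_simp
    have e2 : Q * (C7 * d ^ 2) = η / 8 := by
      rw [hd2]
      field_simp
    rw [mul_add, e1, e2]
    ring
  obtain ⟨X2, hX2⟩ := hS' d Δ lam C1 (min (1 / 16) (c / 9)) hd0 hΔ0 hlam hlam2 hC1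
    (lt_min (by norm_num) (by positivity)) (min_le_left _ _) (by
      have := min_le_right (1 / 16 : ℝ) (c / 9)
      linarith)
  refine ⟨max X1 X2, fun X hX => ?_⟩
  have i1 := hX1 X ((le_max_left _ _).trans hX)
  have i2 := hX2 X ((le_max_right _ _).trans hX)
  have hU : UU (min (1 / 16) (c / 9)) C1 X ⊆ Set.Icc (-(C1 * X)) (C1 * X) := by
    intro t ht
    exact abs_le.1 ht.1
  have cS : Continuous fun t => ∑ u ∈ Ico (f0 ε H X) (f1 ε H X),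
      Pp (cell H u) t * Ru lam X H (f0 ε H X) (f1 ε H X) u t :=
    continuous_finsetSum _ fun u _ => (continuous_Pp _).mul (continuous_Ru _ _ _ _ _ _)
  have i3 := split_int (h := MX lam X) (continuous_EE lam X H (f0 ε H X) (f1 ε H X)) cS
    (fun t => MX_eq lam X H (f0 ε H X) (f1 ε H X) t) hU i1 i2
  have i4 : 2 * (C * (1 + C1) * (ε + 1 / H)) = K * (ε + 1 / H) := by
    rw [hK]
    ring
  rw [i4, hQQ] at i3
  linarith

end Pool.Agent.MOM
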