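import Pool.Agent.MOM.Rec.Defs

/-!
MOM, section 3, final part: discretisation and the three inputs (large values over primes,
Halász-Montgomery, Halász) in the form in which they are used. `τ j` is a point of `[j, j+1]`.

PROOF of `unit_int`: `f` continuous; let `τ j` be a point of `[j, j+1]` where `f` is maximal
(compactness). `∫_U f ≤ ∑_{j ∈ J} ∫_{[j,j+1]} f ≤ ∑_{j ∈ J} f(τ j)`, because `U` is contained in the
union of the intervals `[j, j+1]`, `j ∈ J` (`⌊t⌋ ≤ t < ⌊t⌋ + 1`).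

PROOF of `bad_count`: let `C = C(H,K)` be the constant of `large_primes H hH K hK`, and `u` large for
`R = ⌊C/d²⌋₊ + 1`. For each residue class `c` modulo `H + 1` let `J_c` be the elements of `J` in this
class: for `j ≠ j'` in `J_c`, `|j - j'| ≥ H + 1`, so `H ≤ |τ j - τ j'| ≤ |j - j'| + 1 ≤ exp(K u/H)`; in
particular `τ` is injective on `J_c`. If `#J_c > C/d²` then `J_c` has a subset with exactly `R`
elements, and `R d²/u² ≤ ∑ ‖Pp (τ j)‖² ≤ C/u²`, so `R ≤ C/d²`: contradiction. So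
`#J = ∑_c #J_c ≤ (H+1) C/d²`.

PROOF of `good_sum`: split `J` into the even and the odd integers; for `j ≠ j'` of the same parity
`1 ≤ |j - j'| - 1 ≤ |τ j - τ j'| ≤ |j - j'| + 1 ≤ M³`. Apply `halasz_montgomery` to both images.

PROOF of `hal_bq`: `1/(k+1) = ∫_0^1 θ^k dθ` (`integral_pow`), so `bq Q m = ∫_0^1 μ(m) θ^{ω_Q(m)} dθ` and
`dp W (bq Q) t = ∫_0^1 dp W (fun n => mu n * θ^{om Q n}) t dθ` (finite sum of integrals), of norm `≤ d`
by `hal`.

THIS FILE: `unit_int`.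
-/

set_option autoImplicit false

namespace Pool.Agent.MOM

open Finset MeasureTheory

theorem unit_int {f : ℝ → ℝ} (hf : Continuous f) (hf0 : ∀ t, 0 ≤ f t) :
    ∃ τ : ℤ → ℝ, (∀ j : ℤ, (j : ℝ) ≤ τ j ∧ τ j ≤ j + 1) ∧ ∀ (J : Finset ℤ) (U : Set ℝ),
      MeasurableSet U → (∀ t ∈ U, ⌊t⌋ ∈ J) → ∫ t in U, f t ≤ ∑ j ∈ J, f (τ j) := by
  have hex : ∀ j : ℤ, ∃ x : ℝ, ((j : ℝ) ≤ x ∧ x ≤ j + 1) ∧
      ∀ t : ℝ, (j : ℝ) ≤ t → t ≤ j + 1 → f t ≤ f x := by
    intro j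
    obtain ⟨x, hx, hmax⟩ := (isCompact_Icc (a := (j : ℝ)) (b := (j : ℝ) + 1)).exists_isMaxOn
      ⟨(j : ℝ), Set.left_mem_Icc.mpr (by linarith)⟩ hf.continuousOn
    exact ⟨x, hx, fun t h1 h2 => hmax (show t ∈ Set.Icc (j : ℝ) ((j : ℝ) + 1) from ⟨h1, h2⟩)⟩
  choose τ hτ hmax using hex
  refine ⟨τ, hτ, fun J U hU hJ => ?_⟩
  have hint : ∀ j : ℤ, IntegrableOn f (Set.Ico (j : ℝ) ((j : ℝ) + 1)) := fun j =>
    (hf.integrableOn_Icc (a := (j : ℝ)) (b := (j : ℝ) + 1)).mono_set Set.Ico_subset_Icc_self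
  have hsub : U ⊆ ⋃ j ∈ J, Set.Ico (j : ℝ) ((j : ℝ) + 1) := by
    intro t ht
    exact Set.mem_biUnion (hJ t ht) ⟨Int.floor_le t, Int.lt_floor_add_one t⟩
  have hdis : Set.Pairwise (↑J : Set ℤ)
      (Function.onFun Disjoint fun j : ℤ => Set.Ico (j : ℝ) ((j : ℝ) + 1)) := by
    intro i _ j _ hij
    rw [Function.onFun, Set.disjoint_left]
    rintro t ⟨h1, h2⟩ ⟨h3, h4⟩
    apply hij
    have e1 : ⌊t⌋ = i := Int.floor_eq_iff.mpr ⟨h1, h2⟩
    have e2 : ⌊t⌋ = j := Int.floor_eq_iff.mpr ⟨h3, h4⟩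
    rw [← e1, ← e2]
  have hU2 : IntegrableOn f (⋃ j ∈ J, Set.Ico (j : ℝ) ((j : ℝ) + 1)) :=
    integrableOn_finset_iUnion.mpr fun j _ => hint j
  calc ∫ t in U, f t ≤ ∫ t in ⋃ j ∈ J, Set.Ico (j : ℝ) ((j : ℝ) + 1), f t :=
        setIntegral_mono_set hU2 (Filter.Eventually.of_forall fun t => hf0 t)
          (Filter.Eventually.of_forall hsub)
    _ = ∑ j ∈ J, ∫ t in Set.Ico (j : ℝ) ((j : ℝ) + 1), f t :=
        integral_biUnion_finset J (fun j _ => measurableSet_Ico) hdis fun j _ => hint j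
    _ ≤ ∑ j ∈ J, f (τ j) := by
        refine Finset.sum_le_sum fun j _ => ?_
        have h1 : ∫ t in Set.Ico (j : ℝ) ((j : ℝ) + 1), f t ≤
            ∫ _t in Set.Ico (j : ℝ) ((j : ℝ) + 1), f (τ j) := by
          refine setIntegral_mono_on (hint j) ?_ measurableSet_Ico fun t ht =>
            hmax j t ht.1 ht.2.le
          exact integrableOn_const (by simp)
        refine h1.trans (le_of_eq ?_)
        rw [setIntegral_const]
        simp

end Pool.Agent.MOM
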