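import Pool.Agent.MOM.Rec.Defs
import Pool.Agent.MOM.NT.LP

/-!
MOM, section 3, final part: discretisation and the three inputs (large values over primes,
Halász-Montgomery, Halász) in the form in which they are used. `τ j` is a point of `[j, j+1]`.

PROOF of `unit_int`: `f` continuous; let `τ j` be a point of `[j, j+1]` where `f` is maximal
(compactness). `∫_U f ≤ ∑_{j ∈ J} ∫_{[j,j+1]} f ≤ ∑_{j ∈ J} f(τ j)`, because `U` is contained in the
union of the intervals `[j, j+1]`, `j ∈ J` (`⌊t⌋ ≤ t < ⌊t⌋ + 1`).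

PROOF of `bad_count`: let `C = C(H,K)` be the constant of `large_primes H hH K hK`, and `u` large for
`R = ⌊C/d²⌋₊ + 1`. For each residue class `c` modulo `H + 1` let `J_c` be the elements of `J` in this
class: for `j ≠ j'` in `J_c`, `|j - j'| ≥ H + 1`, so `H ≤ |τ j - τ j'| ≤ |j - j'| + 1 ≤ exp(K u/H)`; in
particular `τ` is injective on `J_c`. If `#J_c > C/d²` then `J_c` has a subset with exactly `R`
elements, and `R d²/u² ≤ ∑ ‖Pp (τ j)‖² ≤ C/u²`, so `R ≤ C/d²`: contradiction. So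
`#J = ∑_c #J_c ≤ (H+1) C/d²`.

PROOF of `good_sum`: split `J` into the even and the odd integers; for `j ≠ j'` of the same parity
`1 ≤ |j - j'| - 1 ≤ |τ j - τ j'| ≤ |j - j'| + 1 ≤ M³`. Apply `halasz_montgomery` to both images.

PROOF of `hal_bq`: `1/(k+1) = ∫_0^1 θ^k dθ` (`integral_pow`), so `bq Q m = ∫_0^1 μ(m) θ^{ω_Q(m)} dθ` and
`dp W (bq Q) t = ∫_0^1 dp W (fun n => mu n * θ^{om Q n}) t dθ` (finite sum of integrals), of norm `≤ d`
by `hal`.

THIS FILE: `bad_count`.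
-/

set_option autoImplicit false

namespace Pool.Agent.MOM

open Finset MeasureTheory

/-- Two real points in `[j, j+1]` and `[j', j'+1]`: their distance is `|j - j'|` up to `1`. -/
private theorem tau_dist (τ : ℤ → ℝ) (hτ : ∀ j : ℤ, (j : ℝ) ≤ τ j ∧ τ j ≤ j + 1) (j j' : ℤ) :
    |(j : ℝ) - j'| - 1 ≤ |τ j - τ j'| ∧ |τ j - τ j'| ≤ |(j : ℝ) - j'| + 1 := by
  obtain ⟨h1, h2⟩ := hτ j
  obtain ⟨h3, h4⟩ := hτ j'
  constructor
  · rcases abs_cases ((j : ℝ) - j') with ⟨h, _⟩ | ⟨h, _⟩ <;>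
      rcases abs_cases (τ j - τ j') with ⟨h', _⟩ | ⟨h', _⟩ <;> rw [h, h'] <;> linarith
  · rcases abs_cases ((j : ℝ) - j') with ⟨h, _⟩ | ⟨h, _⟩ <;>
      rcases abs_cases (τ j - τ j') with ⟨h', _⟩ | ⟨h', _⟩ <;> rw [h, h'] <;> linarith

/-- One separated class. -/
private theorem class_card (H : ℕ) (hH : 1 ≤ H) (K C d : ℝ) (hd : 0 < d) (u : ℕ) (hu : 1 ≤ u)
    (hlp : ∀ T : Finset ℝ, T.card ≤ ⌊C / d ^ 2⌋₊ + 1 →
      (∀ t ∈ T, ∀ t' ∈ T, t ≠ t' → (H : ℝ) ≤ |t - t'| ∧ |t - t'| ≤ Real.exp (K * u / H)) →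
        ∑ t ∈ T, ‖dp (cell H u) (fun _ => 1) t‖ ^ 2 ≤ C / (u : ℝ) ^ 2)
    (S : Finset ℤ) (τ : ℤ → ℝ) (hτ : ∀ j : ℤ, (j : ℝ) ≤ τ j ∧ τ j ≤ j + 1)
    (hsep : ∀ j ∈ S, ∀ j' ∈ S, j ≠ j' → ((H : ℝ) + 1) ≤ |(j : ℝ) - j'|)
    (hfar : ∀ j ∈ S, ∀ j' ∈ S, |(j : ℝ) - j'| + 1 ≤ Real.exp (K * u / H))
    (hbig : ∀ j ∈ S, d / u ≤ ‖Pp (cell H u) (τ j)‖) : (S.card : ℝ) ≤ C / d ^ 2 := by
  by_contra hcon
  push Not at hcon
  have hu0 : (0 : ℝ) < u := by exact_mod_cast hu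
  have hH0 : (0 : ℝ) < H := by exact_mod_cast hH
  have hR : ⌊C / d ^ 2⌋₊ + 1 ≤ S.card := by
    have := (Nat.floor_lt' (by
      intro h0
      rw [Finset.card_eq_zero] at h0
      subst h0
      have h1 := hlp ∅ (by simp) (by simp)
      simp only [Finset.sum_empty] at h1
      have h2 : 0 ≤ C := by
        by_contra h
        push Not at h
        have : C / (u : ℝ) ^ 2 < 0 := div_neg_of_neg_of_pos h (by positivity)
        linarith
      have h3 : 0 ≤ C / d ^ 2 := by positivity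
      simp only [Finset.card_empty, Nat.cast_zero] at hcon
      linarith)).2 hcon
    omega
  obtain ⟨S', hS', hcard⟩ := Finset.exists_subset_card_eq hR
  have hne : ∀ j ∈ S', ∀ j' ∈ S', j ≠ j' → (H : ℝ) ≤ |τ j - τ j'| := by
    intro j hj j' hj' hjj
    have h1 := hsep j (hS' hj) j' (hS' hj') hjj
    have h2 := (tau_dist τ hτ j j').1
    linarith
  have hinj : Set.InjOn τ (S' : Set ℤ) := by
    intro j hj j' hj' heq
    by_contra hjj
    have h1 := hne j hj j' hj' hjj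
    rw [heq, sub_self, abs_zero] at h1
    linarith
  have hT := hlp (S'.image τ) (by rw [Finset.card_image_of_injOn hinj, hcard]) (by
    intro t ht t' ht' htt
    rw [Finset.mem_image] at ht ht'
    obtain ⟨j, hj, rfl⟩ := ht
    obtain ⟨j', hj', rfl⟩ := ht'
    have hjj : j ≠ j' := fun h => htt (by rw [h])
    refine ⟨hne j hj j' hj' hjj, ?_⟩
    exact (tau_dist τ hτ j j').2.trans (hfar j (hS' hj) j' (hS' hj')))
  rw [Finset.sum_image hinj] at hT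
  have hlow : ((⌊C / d ^ 2⌋₊ + 1 : ℕ) : ℝ) * (d / u) ^ 2
      ≤ ∑ j ∈ S', ‖dp (cell H u) (fun _ => 1) (τ j)‖ ^ 2 := by
    rw [← hcard, ← nsmul_eq_mul]
    refine Finset.card_nsmul_le_sum _ _ _ fun j hj => ?_
    have h1 := hbig j (hS' hj)
    unfold Pp at h1
    exact pow_le_pow_left₀ (by positivity) h1 2
  have h5 := hlow.trans hT
  rw [div_pow, ← mul_div_assoc, div_le_div_iff_of_pos_right (by positivity)] at h5
  have h6 : ((⌊C / d ^ 2⌋₊ + 1 : ℕ) : ℝ) ≤ C / d ^ 2 := by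
    rw [le_div_iff₀ (by positivity)]
    exact h5
  have h7 := Nat.lt_floor_add_one (C / d ^ 2)
  push_cast at h6
  linarith

theorem bad_count (H : ℕ) (hH : 1 ≤ H) (K : ℝ) (hK : 1 ≤ K) : ∃ C : ℝ, 0 < C ∧ ∀ d : ℝ, 0 < d →
    ∃ u0 : ℕ, ∀ u : ℕ, u0 ≤ u → ∀ (J : Finset ℤ) (τ : ℤ → ℝ),
      (∀ j : ℤ, (j : ℝ) ≤ τ j ∧ τ j ≤ j + 1) →
      (∀ j ∈ J, ∀ j' ∈ J, |(j : ℝ) - j'| + 1 ≤ Real.exp (K * u / H)) →
      (∀ j ∈ J, d / u ≤ ‖Pp (cell H u) (τ j)‖) → (J.card : ℝ) ≤ C / d ^ 2 := by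
  obtain ⟨C, hC, hlp⟩ := large_primes H hH K hK
  refine ⟨((H : ℝ) + 1) * C, by positivity, fun d hd => ?_⟩
  obtain ⟨u0, hu0⟩ := hlp (⌊C / d ^ 2⌋₊ + 1)
  refine ⟨max u0 1, fun u hu J τ hτ hfar hbig => ?_⟩
  have hu1 : u0 ≤ u := le_trans (le_max_left _ _) hu
  have hu2 : 1 ≤ u := le_trans (le_max_right _ _) hu
  have hmap : Set.MapsTo (fun j : ℤ => (j % ((H : ℤ) + 1)).toNat) (J : Set ℤ)
      (Finset.range (H + 1) : Set ℕ) := by
    intro j _
    have h1 : 0 ≤ j % ((H : ℤ) + 1) := Int.emod_nonneg _ (by omega)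
    have h2 : j % ((H : ℤ) + 1) < (H : ℤ) + 1 := Int.emod_lt_of_pos _ (by omega)
    simp only [Finset.coe_range, Set.mem_Iio]
    omega
  rw [Finset.card_eq_sum_card_fiberwise hmap]
  push_cast
  calc ∑ c ∈ Finset.range (H + 1),
        (((J.filter (fun j : ℤ => (j % ((H : ℤ) + 1)).toNat = c)).card : ℕ) : ℝ)
      ≤ ∑ _c ∈ Finset.range (H + 1), C / d ^ 2 := by
        refine Finset.sum_le_sum fun c _ => ?_
        refine class_card H hH K C d hd u hu2 (hu0 u hu1) _ τ hτ ?_ ?_ ?_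
        · intro j hj j' hj' hjj
          rw [Finset.mem_filter] at hj hj'
          have h1 : 0 ≤ j % ((H : ℤ) + 1) := Int.emod_nonneg _ (by omega)
          have h1' : 0 ≤ j' % ((H : ℤ) + 1) := Int.emod_nonneg _ (by omega)
          have h2 : j % ((H : ℤ) + 1) = j' % ((H : ℤ) + 1) := by omega
          have h3 : ((H : ℤ) + 1) ∣ j - j' := Int.dvd_of_emod_eq_zero
            (Int.emod_eq_emod_iff_emod_sub_eq_zero.1 h2)
          have h4 : ((H : ℤ) + 1) ≤ |j - j'| :=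
            Int.le_of_dvd (abs_pos.2 (sub_ne_zero.2 hjj)) ((dvd_abs _ _).2 h3)
          have h5 : (((H : ℤ) + 1 : ℤ) : ℝ) ≤ ((|j - j'| : ℤ) : ℝ) := by exact_mod_cast h4
          push_cast at h5
          exact h5
        · intro j hj j' hj'
          exact hfar j (Finset.mem_filter.1 hj).1 j' (Finset.mem_filter.1 hj').1
        · intro j hj
          exact hbig j (Finset.mem_filter.1 hj).1
    _ = ((H : ℝ) + 1) * C / d ^ 2 := by
        rw [Finset.sum_const, Finset.card_range, nsmul_eq_mul]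
        push_cast
        ring

end Pool.Agent.MOM
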