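import Pool.Agent.MOM.Rec.Defs
import Pool.Agent.MOM.NT.HM

/-!
MOM, section 3, final part: discretisation and the three inputs (large values over primes,
Halász-Montgomery, Halász) in the form in which they are used. `τ j` is a point of `[j, j+1]`.

PROOF of `unit_int`: `f` continuous; let `τ j` be a point of `[j, j+1]` where `f` is maximal
(compactness). `∫_U f ≤ ∑_{j ∈ J} ∫_{[j,j+1]} f ≤ ∑_{j ∈ J} f(τ j)`, because `U` is contained in the
union of the intervals `[j, j+1]`, `j ∈ J` (`⌊t⌋ ≤ t < ⌊t⌋ + 1`).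

PROOF of `bad_count`: let `C = C(H,K)` be the constant of `large_primes H hH K hK`, and `u` large for
`R = ⌊C/d²⌋₊ + 1`. For each residue class `c` modulo `H + 1` let `J_c` be the elements of `J` in this
class: for `j ≠ j'` in `J_c`, `|j - j'| ≥ H + 1`, so `H ≤ |τ j - τ j'| ≤ |j - j'| + 1 ≤ exp(K u/H)`; in
particular `τ` is injective on `J_c`. If `#J_c > C/d²` then `J_c` has a subset with exactly `R`
elements, and `R d²/u² ≤ ∑ ‖Pp (τ j)‖² ≤ C/u²`, so `R ≤ C/d²`: contradiction. So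
`#J = ∑_c #J_c ≤ (H+1) C/d²`.

PROOF of `good_sum`: split `J` into the even and the odd integers; for `j ≠ j'` of the same parity
`1 ≤ |j - j'| - 1 ≤ |τ j - τ j'| ≤ |j - j'| + 1 ≤ M³`. Apply `halasz_montgomery` to both images.

PROOF of `hal_bq`: `1/(k+1) = ∫_0^1 θ^k dθ` (`integral_pow`), so `bq Q m = ∫_0^1 μ(m) θ^{ω_Q(m)} dθ` and
`dp W (bq Q) t = ∫_0^1 dp W (fun n => mu n * θ^{om Q n}) t dθ` (finite sum of integrals), of norm `≤ d`
by `hal`.

THIS FILE: `good_sum`.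
-/

set_option autoImplicit false

namespace Pool.Agent.MOM

open Finset MeasureTheory

private theorem gs_far {τ : ℤ → ℝ} (hτ : ∀ j : ℤ, (j : ℝ) ≤ τ j ∧ τ j ≤ j + 1) {j j' : ℤ}
    (h : j ≠ j') (h2 : j % 2 = j' % 2) :
    1 ≤ |τ j - τ j'| ∧ |τ j - τ j'| ≤ |(j : ℝ) - j'| + 1 := by
  obtain ⟨a1, a2⟩ := hτ j
  obtain ⟨b1, b2⟩ := hτ j'
  rcases lt_or_gt_of_ne h with h3 | h3
  · have h4 : j + 2 ≤ j' := by omega
    have h5 : (j : ℝ) + 2 ≤ j' := by exact_mod_cast h4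
    rw [abs_of_neg (by linarith : τ j - τ j' < 0), abs_of_neg (by linarith : (j : ℝ) - j' < 0)]
    constructor <;> linarith
  · have h4 : j' + 2 ≤ j := by omega
    have h5 : (j' : ℝ) + 2 ≤ j := by exact_mod_cast h4
    rw [abs_of_pos (by linarith : 0 < τ j - τ j'), abs_of_pos (by linarith : 0 < (j : ℝ) - j')]
    constructor <;> linarith

theorem good_sum : ∃ c : ℝ, 0 < c ∧ c ≤ 1 ∧ ∃ C M0 : ℝ, 0 < C ∧ ∀ lam : ℝ, 1 < lam →
    lam ≤ 2 → ∀ M : ℝ, M0 ≤ M → ∀ (J : Finset ℤ) (τ : ℤ → ℝ),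
      (∀ j : ℤ, (j : ℝ) ≤ τ j ∧ τ j ≤ j + 1) → (J.card : ℝ) ≤ M ^ c →
      (∀ j ∈ J, ∀ j' ∈ J, |(j : ℝ) - j'| + 1 ≤ M ^ (3 : ℕ)) → ∀ b : ℕ → ℂ, (∀ n, ‖b n‖ ≤ 1) →
        ∑ j ∈ J, ‖dp (win M (lam * M)) b (τ j)‖ ^ 2 ≤ C := by
  classical
  obtain ⟨c, hc0, hc1, C, M0, hC, H⟩ := halasz_montgomery
  refine ⟨c, hc0, hc1, 2 * C, M0, by positivity, ?_⟩
  intro lam h1 h2 M hM J τ hτ hJ hd b hb
  have key : ∀ r : ℤ, ∑ j ∈ J.filter (fun j => j % 2 = r),
      ‖dp (win M (lam * M)) b (τ j)‖ ^ 2 ≤ C := by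
    intro r
    have hinj : Set.InjOn τ (J.filter (fun j => j % 2 = r) : Finset ℤ) := by
      intro j hj j' hj' hjj
      by_contra hne
      have e1 := (Finset.mem_filter.1 (Finset.mem_coe.1 hj)).2
      have e2 := (Finset.mem_filter.1 (Finset.mem_coe.1 hj')).2
      have h3 := (gs_far hτ hne (e1.trans e2.symm)).1
      rw [hjj, sub_self, abs_zero] at h3
      linarith
    rw [← Finset.sum_image (f := fun t => ‖dp (win M (lam * M)) b t‖ ^ 2) (g := τ) hinj]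
    refine H lam h1 h2 M hM _ ?_ ?_ b hb
    · refine le_trans ?_ hJ
      exact_mod_cast Finset.card_image_le.trans (Finset.card_le_card (Finset.filter_subset _ _))
    · intro t ht t' ht' hne
      obtain ⟨j, hj, rfl⟩ := Finset.mem_image.1 ht
      obtain ⟨j', hj', rfl⟩ := Finset.mem_image.1 ht'
      obtain ⟨e1, e2⟩ := Finset.mem_filter.1 hj
      obtain ⟨e3, e4⟩ := Finset.mem_filter.1 hj'
      have h3 := gs_far hτ (fun h => hne (congrArg τ h)) (e2.trans e4.symm)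
      exact ⟨h3.1, h3.2.trans (hd j e1 j' e3)⟩
  have e : J.filter (fun j => ¬ j % 2 = 0) = J.filter (fun j => j % 2 = 1) :=
    Finset.filter_congr fun j _ => by omega
  rw [← Finset.sum_filter_add_sum_filter_not J (fun j => j % 2 = 0), e]
  linarith [key 0, key 1]

end Pool.Agent.MOM
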