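import Pool.Agent.MOM.Rec.Defs
import Pool.Agent.MOM.Hal.Hal

/-!
MOM, section 3, final part: discretisation and the three inputs (large values over primes,
Halász-Montgomery, Halász) in the form in which they are used. `τ j` is a point of `[j, j+1]`.

PROOF of `unit_int`: `f` continuous; let `τ j` be a point of `[j, j+1]` where `f` is maximal
(compactness). `∫_U f ≤ ∑_{j ∈ J} ∫_{[j,j+1]} f ≤ ∑_{j ∈ J} f(τ j)`, because `U` is contained in the
union of the intervals `[j, j+1]`, `j ∈ J` (`⌊t⌋ ≤ t < ⌊t⌋ + 1`).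

PROOF of `bad_count`: let `C = C(H,K)` be the constant of `large_primes H hH K hK`, and `u` large for
`R = ⌊C/d²⌋₊ + 1`. For each residue class `c` modulo `H + 1` let `J_c` be the elements of `J` in this
class: for `j ≠ j'` in `J_c`, `|j - j'| ≥ H + 1`, so `H ≤ |τ j - τ j'| ≤ |j - j'| + 1 ≤ exp(K u/H)`; in
particular `τ` is injective on `J_c`. If `#J_c > C/d²` then `J_c` has a subset with exactly `R`
elements, and `R d²/u² ≤ ∑ ‖Pp (τ j)‖² ≤ C/u²`, so `R ≤ C/d²`: contradiction. So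
`#J = ∑_c #J_c ≤ (H+1) C/d²`.

PROOF of `good_sum`: split `J` into the even and the odd integers; for `j ≠ j'` of the same parity
`1 ≤ |j - j'| - 1 ≤ |τ j - τ j'| ≤ |j - j'| + 1 ≤ M³`. Apply `halasz_montgomery` to both images.

PROOF of `hal_bq`: `1/(k+1) = ∫_0^1 θ^k dθ` (`integral_pow`), so `bq Q m = ∫_0^1 μ(m) θ^{ω_Q(m)} dθ` and
`dp W (bq Q) t = ∫_0^1 dp W (fun n => mu n * θ^{om Q n}) t dθ` (finite sum of integrals), of norm `≤ d`
by `hal`.

THIS FILE: `hal_bq`.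
-/

set_option autoImplicit false

namespace Pool.Agent.MOM

open Finset MeasureTheory

private theorem int_pow_ofReal (k : ℕ) :
    ∫ x : ℝ in (0 : ℝ)..1, ((x : ℂ)) ^ k = 1 / ((k : ℂ) + 1) := by
  have h1 : (fun x : ℝ => ((x : ℂ)) ^ k) = fun x : ℝ => (((x ^ k : ℝ)) : ℂ) := by
    funext x
    push_cast
    rfl
  rw [h1, intervalIntegral.integral_ofReal, integral_pow]
  push_cast
  simp

private theorem dp_bq_eq (W Q : Finset ℕ) (t : ℝ) : dp W (bq Q) t =
    ∫ x : ℝ in (0 : ℝ)..1, dp W (fun n => mu n * (x : ℂ) ^ om Q n) t := by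
  unfold dp
  rw [intervalIntegral.integral_finsetSum]
  · refine Finset.sum_congr rfl fun n _ => ?_
    have h1 : (fun x : ℝ => mu n * (x : ℂ) ^ om Q n / (n : ℂ) * ph t n) =
        fun x : ℝ => (mu n / (n : ℂ) * ph t n) * (x : ℂ) ^ om Q n := by
      funext x
      ring
    rw [h1, intervalIntegral.integral_const_mul, int_pow_ofReal]
    unfold bq
    ring
  · intro n _
    apply Continuous.intervalIntegrable
    fun_prop

theorem hal_bq (lam : ℝ) (hl : 1 < lam) (hl2 : lam ≤ 2) (ε d : ℝ) (hε : 0 < ε) (hε1 : ε < 1)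
    (hd : 0 < d) : ∃ X0 : ℝ, ∀ X : ℝ, X0 ≤ X → ∀ t : ℝ, |t| ≤ X ^ (2 : ℝ) →
      ∀ Q : Finset ℕ, (∀ p ∈ Q, p.Prime ∧ X ^ (ε ^ 2) ≤ p ∧ (p : ℝ) < X ^ ε) →
      ∀ M : ℝ, X ^ (1 / 2 : ℝ) ≤ M → M ≤ X → ‖dp (win M (lam * M)) (bq Q) t‖ ≤ d := by
  obtain ⟨X0, hX0⟩ := hal lam hl hl2 ε 2 d hε hε1 (by norm_num) hd
  refine ⟨X0, fun X hX t ht Q hQ M hM1 hM2 => ?_⟩
  rw [dp_bq_eq]
  have h := intervalIntegral.norm_integral_le_of_norm_le_const (a := (0 : ℝ)) (b := 1) (C := d)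
    (f := fun x : ℝ => dp (win M (lam * M)) (fun n => mu n * (x : ℂ) ^ om Q n) t) (by
      intro x hx
      rw [Set.uIoc_of_le zero_le_one] at hx
      exact hX0 X hX t ht Q hQ x hx.1.le hx.2 M hM1 hM2)
  simpa using h

end Pool.Agent.MOM
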