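import Pool.Agent.MOM.Rec.FinA2
import Pool.Agent.MOM.Rec.FinA3
import Pool.Agent.MOM.Rec.FinA4
import Pool.Agent.MOM.Rec.Cells
import Pool.Agent.MOM.NT.BT

/-!
MOM, section 3, final part: one cell.

PROOF of `one_u`. `c, C7, M0` from `good_sum`, `C4` from `brun_titchmarsh`. Given `H, ε` put `K = 4/ε²`,
`CB` = constant of `bad_count H K`, divided by `C4²`. Given `d, Δ, lam, C1` let `X` be large, and `u`
as in the statement: then `u ≥ H ε² log X` is large. `q = C4/u`. By `brun_titchmarsh` and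
`norm_Pp_le`, `‖Pp (cell H u) t‖ ≤ q` for all `t`. All differences: for `j, j' ∈ J`,
`|j - j'| + 1 ≤ 2 C1 X + 5` (as `|τ j| ≤ C1 X + 1`), `≤ X^4 ≤ exp(K u/H)` (`u/H ≥ ε² log X`) and
`≤ M^3` with `M = Mu X H u`, `M ≥ X exp(-ε log X) = X^{1-ε} ≥ X^{1/2}` (`u < u1 ≤ ε H log X`). Let
`B = {j ∈ J : d q ≤ ‖Pp (cell H u) (τ j)‖}`; by `bad_count` with `d C4` in the place of `d`,
`#B ≤ CB/d²`. For `j ∈ B` the term is at most `q² Δ²` (`hal_bq`: `|τ j| ≤ C1 X + 1 ≤ X²`,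
`Q = QQ H u0 u1`: its elements are primes `p` with `X^{ε²} ≤ exp(u0/H) ≤ p < exp(u1/H) ≤ X^ε` by
`QQ_eq`, `mem_prs`; `M ≤ X`). For `j ∉ B` it is at most `d² q² ‖Ru (τ j)‖²`, and `good_sum` bounds the
sum of the `‖Ru‖²` by `C7` (`J.card ≤ X^{c/2} ≤ M^c`, `norm_bq_le_one`).
-/

set_option autoImplicit false

namespace Pool.Agent.MOM

open Finset MeasureTheory

theorem one_u : ∃ c : ℝ, 0 < c ∧ c ≤ 1 ∧ ∃ C4 C7 : ℝ, 0 < C4 ∧ 0 < C7 ∧ ∀ (H : ℕ) (ε : ℝ),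
    1 ≤ H → 0 < ε → ε ≤ 1 / 2 → ∃ CB : ℝ, 0 < CB ∧ ∀ d Δ lam C1 : ℝ, 0 < d → 0 < Δ → 1 < lam →
      lam ≤ 2 → 0 ≤ C1 → ∃ X0 : ℝ, ∀ X : ℝ, X0 ≤ X → ∀ u0 u1 u : ℕ,
        ε ^ 2 * H * Real.log X ≤ u0 → u0 ≤ u → u < u1 → (u1 : ℝ) ≤ ε * H * Real.log X →
        ∀ (J : Finset ℤ) (τ : ℤ → ℝ), (∀ j : ℤ, (j : ℝ) ≤ τ j ∧ τ j ≤ j + 1) →
          (∀ j ∈ J, |τ j| ≤ C1 * X + 1) → (J.card : ℝ) ≤ X ^ (c / 2) →
          ∑ j ∈ J, ‖Pp (cell H u) (τ j) * Ru lam X H u0 u1 u (τ j)‖ ^ 2 ≤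
            (C4 / u) ^ 2 * (CB / d ^ 2 * Δ ^ 2 + C7 * d ^ 2) := by
  obtain ⟨c, hc, hc1, C7, M0, hC7, hGood⟩ := good_sum
  obtain ⟨C4, hC4, hBT⟩ := brun_titchmarsh
  refine ⟨c, hc, hc1, C4, C7, hC4, hC7, fun H ε hH hε hε2 => ?_⟩
  have hH1 : (1 : ℝ) ≤ H := by exact_mod_cast hH
  have hH0 : (0 : ℝ) < H := by linarith
  have hK : 1 ≤ 4 / ε ^ 2 := by
    rw [le_div_iff₀ (by positivity)]
    nlinarith
  obtain ⟨CB, hCB, hBad⟩ := bad_count H hH (4 / ε ^ 2) hK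
  refine ⟨CB / C4 ^ 2, by positivity, fun d Δ lam C1 hd hΔ hl hl2 hC1 => ?_⟩
  obtain ⟨uB, hBad⟩ := hBad (d * C4) (by positivity)
  obtain ⟨uT, hBT⟩ := hBT H hH
  obtain ⟨XH, hHal⟩ := hal_bq lam hl hl2 ε Δ hε (by linarith) hΔ
  refine ⟨max XH (max (Real.exp (((uB : ℝ) + uT + 1) / ε ^ 2))
    (max (M0 ^ 2) ((2 * C1 + 5) ^ 2))), fun X hX u0 u1 u hu0 hu hu1 hu1' J τ hτ hJ hJc => ?_⟩
  have x1 : XH ≤ X := (le_max_left _ _).trans hX
  have hX2 := (le_max_right _ _).trans hX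
  have x2 : Real.exp (((uB : ℝ) + uT + 1) / ε ^ 2) ≤ X := (le_max_left _ _).trans hX2
  have hX3 := (le_max_right _ _).trans hX2
  have x3 : M0 ^ 2 ≤ X := (le_max_left _ _).trans hX3
  have x4 : (2 * C1 + 5) ^ 2 ≤ X := (le_max_right _ _).trans hX3
  have hXpos : 0 < X := (Real.exp_pos _).trans_le x2
  set L : ℝ := Real.log X with hL
  have hXL : X = Real.exp L := (Real.exp_log hXpos).symm
  have hL1 : ((uB : ℝ) + uT + 1) / ε ^ 2 ≤ L := by
    rw [hL, Real.le_log_iff_exp_le hXpos]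
    exact x2
  have hL2 : (uB : ℝ) + uT + 1 ≤ ε ^ 2 * L := by
    rw [div_le_iff₀ (by positivity)] at hL1
    linarith
  have hL0 : 0 ≤ L := by
    refine le_trans ?_ hL1
    positivity
  have hLH : ε ^ 2 * L ≤ ε ^ 2 * H * L := by
    have : 0 ≤ ε ^ 2 * L := by positivity
    nlinarith
  have huR : (u0 : ℝ) ≤ u := by exact_mod_cast hu
  have hu1R : (u : ℝ) < u1 := by exact_mod_cast hu1
  have hub : (uB : ℝ) + uT + 1 ≤ u := by linarith
  have huB : uB ≤ u := by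
    have h1 : (0 : ℝ) ≤ uT := Nat.cast_nonneg _
    have h2 : (uB : ℝ) ≤ u := by linarith
    exact_mod_cast h2
  have huT : uT ≤ u := by
    have h1 : (0 : ℝ) ≤ uB := Nat.cast_nonneg _
    have h2 : (uT : ℝ) ≤ u := by linarith
    exact_mod_cast h2
  have hupos : (0 : ℝ) < u := by
    have h1 : (0 : ℝ) ≤ uT := Nat.cast_nonneg _
    have h2 : (0 : ℝ) ≤ uB := Nat.cast_nonneg _
    linarith
  -- the number `M`
  have hMe : Mu X H u = Real.exp (L - (u : ℝ) / H) := by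
    unfold Mu
    rw [hXL, ← Real.exp_add]
    rfl
  have huH : (u : ℝ) / H ≤ ε * L := by
    rw [div_le_iff₀ hH0]
    linarith
  have huH2 : ε ^ 2 * L ≤ (u : ℝ) / H := by
    rw [le_div_iff₀ hH0]
    linarith
  have hM1 : Real.exp (L / 2) ≤ Mu X H u := by
    rw [hMe]
    apply Real.exp_le_exp.2
    nlinarith
  have hM2 : Mu X H u ≤ X := by
    rw [hMe, hXL]
    apply Real.exp_le_exp.2
    have : 0 ≤ (u : ℝ) / H := by positivity
    linarith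
  have hMpos : 0 < Mu X H u := (Real.exp_pos _).trans_le hM1
  have hsq : Real.exp (L / 2) * Real.exp (L / 2) = X := by
    rw [← Real.exp_add, hXL]
    congr 1
    ring
  have hE0 : 0 < Real.exp (L / 2) := Real.exp_pos _
  have hM0 : M0 ≤ Real.exp (L / 2) := by
    by_contra hcon
    rw [not_le] at hcon
    nlinarith
  have hC1E : 2 * C1 + 5 ≤ Real.exp (L / 2) := by
    by_contra hcon
    rw [not_le] at hcon
    nlinarith
  have hX1 : 1 ≤ X := by nlinarith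
  have hD : 2 * C1 * X + 5 ≤ Real.exp (3 * L / 2) := by
    have e1 : Real.exp (3 * L / 2) = X * Real.exp (L / 2) := by
      rw [hXL, ← Real.exp_add]
      congr 1
      ring
    rw [e1]
    nlinarith
  have hdiff : ∀ j ∈ J, ∀ j' ∈ J, |(j : ℝ) - j'| + 1 ≤ 2 * C1 * X + 5 := by
    intro j hj j' hj'
    have h1 := abs_le.1 (hJ j hj)
    have h2 := abs_le.1 (hJ j' hj')
    have h3 := hτ j
    have h4 := hτ j'
    have h5 : |(j : ℝ) - j'| ≤ 2 * C1 * X + 4 := by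
      rw [abs_le]
      constructor <;> linarith [h1.1, h1.2, h2.1, h2.2, h3.1, h3.2, h4.1, h4.2]
    linarith
  have hdM : ∀ j ∈ J, ∀ j' ∈ J, |(j : ℝ) - j'| + 1 ≤ Mu X H u ^ (3 : ℕ) := by
    intro j hj j' hj'
    refine (hdiff j hj j' hj').trans (hD.trans ?_)
    have e1 : Real.exp (3 * L / 2) = Real.exp (L / 2) ^ 3 := by
      rw [← Real.exp_nat_mul]
      congr 1
      push_cast
      ring
    rw [e1]
    exact pow_le_pow_left₀ hE0.le hM1 3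
  have hdK : ∀ j ∈ J, ∀ j' ∈ J, |(j : ℝ) - j'| + 1 ≤ Real.exp (4 / ε ^ 2 * u / H) := by
    intro j hj j' hj'
    refine (hdiff j hj j' hj').trans (hD.trans ?_)
    apply Real.exp_le_exp.2
    have h1 : 4 / ε ^ 2 * (ε ^ 2 * L) ≤ 4 / ε ^ 2 * (u / H) :=
      mul_le_mul_of_nonneg_left huH2 (by positivity)
    have h2 : 4 / ε ^ 2 * (ε ^ 2 * L) = 4 * L := by field_simp
    have h3 : 4 / ε ^ 2 * u / H = 4 / ε ^ 2 * (u / H) := by ring
    rw [h3]
    linarith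
  -- the three inputs
  have hPq : ∀ t : ℝ, ‖Pp (cell H u) t‖ ≤ C4 / u := fun t => (norm_Pp_le _ t).trans (hBT u huT)
  have hRG : ∑ j ∈ J, ‖Ru lam X H u0 u1 u (τ j)‖ ^ 2 ≤ C7 := by
    refine hGood lam hl hl2 (Mu X H u) (hM0.trans hM1) J τ hτ (hJc.trans ?_) hdM
      (bq (QQ H u0 u1)) (norm_bq_le_one _)
    have e1 : X ^ (c / 2) = Real.exp (L / 2) ^ c := by
      rw [← Real.exp_mul, Real.rpow_def_of_pos hXpos]
      congr 1
      rw [← hL]
      ring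
    rw [e1]
    exact Real.rpow_le_rpow hE0.le hM1 hc.le
  have hRD : ∀ j ∈ J, ‖Ru lam X H u0 u1 u (τ j)‖ ≤ Δ := by
    intro j hj
    refine hHal X x1 (τ j) ?_ (QQ H u0 u1) ?_ (Mu X H u) ?_ hM2
    · refine (hJ j hj).trans ?_
      have h1 : Real.exp (3 * L / 2) ≤ X ^ (2 : ℝ) := by
        rw [Real.rpow_def_of_pos hXpos]
        apply Real.exp_le_exp.2
        rw [← hL]
        linarith
      have h2 : 0 ≤ C1 * X := by positivity
      linarith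
    · intro p hp
      rw [QQ_eq hH (by omega), mem_prs] at hp
      refine ⟨hp.2, ?_, ?_⟩
      · refine le_trans ?_ hp.1.1
        rw [Real.rpow_def_of_pos hXpos]
        apply Real.exp_le_exp.2
        rw [← hL, le_div_iff₀ hH0]
        linarith
      · refine lt_of_lt_of_le hp.1.2 ?_
        rw [Real.rpow_def_of_pos hXpos]
        apply Real.exp_le_exp.2
        rw [← hL, div_le_iff₀ hH0]
        linarith
    · refine le_trans (le_of_eq ?_) hM1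
      rw [Real.rpow_def_of_pos hXpos]
      congr 1
      rw [← hL]
      ring
  -- the two parts of the sum
  classical
  set B : Finset ℤ := J.filter fun j => d * C4 / u ≤ ‖Pp (cell H u) (τ j)‖ with hB
  have hBJ : ∀ j ∈ B, j ∈ J := fun j hj => (Finset.mem_filter.1 hj).1
  have hBc : (B.card : ℝ) ≤ CB / (d * C4) ^ 2 :=
    hBad u huB B τ hτ (fun j hj j' hj' => hdK j (hBJ j hj) j' (hBJ j' hj'))
      (fun j hj => (Finset.mem_filter.1 hj).2)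
  have hq0 : 0 < C4 / (u : ℝ) := by positivity
  have s1 : ∑ j ∈ B, ‖Pp (cell H u) (τ j) * Ru lam X H u0 u1 u (τ j)‖ ^ 2 ≤
      (C4 / u) ^ 2 * (CB / C4 ^ 2 / d ^ 2 * Δ ^ 2) := by
    have h1 : ∀ j ∈ B, ‖Pp (cell H u) (τ j) * Ru lam X H u0 u1 u (τ j)‖ ^ 2 ≤
        (C4 / u * Δ) ^ 2 := by
      intro j hj
      rw [norm_mul]
      exact pow_le_pow_left₀ (by positivity)
        (mul_le_mul (hPq _) (hRD j (hBJ j hj)) (norm_nonneg _) hq0.le) 2
    refine (Finset.sum_le_card_nsmul _ _ _ h1).trans ?_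
    rw [nsmul_eq_mul]
    refine (mul_le_mul_of_nonneg_right hBc (by positivity)).trans (le_of_eq ?_)
    field_simp
  have s2 : ∑ j ∈ J.filter (fun j => ¬ d * C4 / u ≤ ‖Pp (cell H u) (τ j)‖),
      ‖Pp (cell H u) (τ j) * Ru lam X H u0 u1 u (τ j)‖ ^ 2 ≤ (C4 / u) ^ 2 * (C7 * d ^ 2) := by
    have h1 : ∀ j ∈ J.filter (fun j => ¬ d * C4 / u ≤ ‖Pp (cell H u) (τ j)‖),
        ‖Pp (cell H u) (τ j) * Ru lam X H u0 u1 u (τ j)‖ ^ 2 ≤
          (d * (C4 / u)) ^ 2 * ‖Ru lam X H u0 u1 u (τ j)‖ ^ 2 := by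
      intro j hj
      have h2 := not_le.1 (Finset.mem_filter.1 hj).2
      rw [norm_mul, mul_pow]
      refine mul_le_mul_of_nonneg_right (pow_le_pow_left₀ (norm_nonneg _) ?_ 2) (by positivity)
      rw [← mul_div_assoc]
      exact h2.le
    refine (Finset.sum_le_sum h1).trans ?_
    rw [← Finset.mul_sum]
    have h3 : ∑ j ∈ J.filter (fun j => ¬ d * C4 / u ≤ ‖Pp (cell H u) (τ j)‖),
        ‖Ru lam X H u0 u1 u (τ j)‖ ^ 2 ≤ C7 :=
      (Finset.sum_le_sum_of_subset_of_nonneg (Finset.filter_subset _ _)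
        fun j _ _ => by positivity).trans hRG
    refine (mul_le_mul_of_nonneg_left h3 (by positivity)).trans (le_of_eq ?_)
    ring
  have hsum := Finset.sum_filter_add_sum_filter_not J
    (fun j => d * C4 / u ≤ ‖Pp (cell H u) (τ j)‖)
    (fun j => ‖Pp (cell H u) (τ j) * Ru lam X H u0 u1 u (τ j)‖ ^ 2)
  rw [← hsum, mul_add]
  exact add_le_add s1 s2

end Pool.Agent.MOM
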