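import Pool.Agent.MOM.Rec.Cells
import Pool.Agent.MOM.NT.Sieve

/-!
MOM, section 3: Ramaré's lemma, part 3: the mean square of the error term.

PROOF of `ramare`. `N = ⌈lam X exp(1/H)⌉₊ ≤ 5 X + 1 ≤ 6 X` (`exp(1/2) < 1.7`). By `EE_eq` and `mvt` with
`T = C1 X + 1`, the integral is at most `C (C1 X + 1 + 6X) ∑_{n ≤ N} ‖e n‖²/n²`, and by
`ecf_support` `1/n² ≤ 1/X²` for the nonzero terms. So it remains: `∑ ‖e n‖² ≤ F + G + 4 (E1 + E2)`,
where `F = #{n ∈ win X (2X), ω_Q(n) = 0}`, `G = #{n : X < n ≤ 2X, p² ∣ n for some p ∈ Q}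
≤ ∑_{p ∈ Q} 2X/p²`, `E1 = #(X, X exp(1/H)] ≤ X (exp(1/H) - 1) + 1 ≤ 2X/H + 1`,
`E2 = #(lam X, lam X exp(1/H)] ≤ 4X/H + 1` (`exp x - 1 ≤ 2x` for `0 ≤ x ≤ 1`). For `n` off the edges use
`ecf_main`, for `n` in the edges `ecf_le_two`. Total:
`C (C1 + 7) X X⁻² (F + 2X ∑ 1/p² + 24 X/H + 8)`.

PROOF of `free_le`. With `y = exp(u0/H)`, `z = exp(u1/H)`, `QQ_eq`, the integers counted lie in
`free y z (2X)` (`om Q n = 0` iff no prime of `Q` divides `n`), and `sieve_count` gives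
`≤ C 2X (u0/H)/(u1/H)`.
PROOF of `sum_inv_sq_QQ`: the elements of `Q` are integers `n ≥ exp(u0/H) =: y ≥ 1`, and
`∑_{n ≥ ⌈y⌉} 1/n² ≤ 1/⌈y⌉² + 1/⌈y⌉ ≤ 2/y` (`1/n² ≤ 1/(n-1) - 1/n`).

THIS FILE: `free_le`, `sum_inv_sq_QQ`.
-/

set_option autoImplicit false

namespace Pool.Agent.MOM

open Finset MeasureTheory

theorem free_le : ∃ C : ℝ, 0 < C ∧ ∀ (X : ℝ) (H u0 u1 : ℕ), 1 ≤ X → 1 ≤ H → u0 < u1 →
    2 ≤ Real.exp ((u0 : ℝ) / H) → Real.exp ((u1 : ℝ) / H) ≤ 2 * X →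
    (((win X (2 * X)).filter fun n => om (QQ H u0 u1) n = 0).card : ℝ) / X ≤
      C * ((u0 : ℝ) / u1) := by
  obtain ⟨C, hC, h⟩ := sieve_count
  refine ⟨C * 2, by positivity, fun X H u0 u1 hX hH hu hy hz => ?_⟩
  have hH0 : (0 : ℝ) < H := by exact_mod_cast hH
  have hu1 : (0 : ℝ) < u1 := by
    have : 0 < u1 := by omega
    exact_mod_cast this
  have hX0 : 0 < X := by linarith
  have hyz : Real.exp ((u0 : ℝ) / H) ≤ Real.exp ((u1 : ℝ) / H) := by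
    apply Real.exp_le_exp.2
    apply div_le_div_of_nonneg_right _ hH0.le
    exact_mod_cast hu.le
  have h1 := h _ _ _ hy hyz hz
  rw [Real.log_exp, Real.log_exp] at h1
  have h2 : (win X (2 * X)).filter (fun n => om (QQ H u0 u1) n = 0) ⊆
      free (Real.exp ((u0 : ℝ) / H)) (Real.exp ((u1 : ℝ) / H)) (2 * X) := by
    intro n hn
    rw [Finset.mem_filter] at hn
    obtain ⟨hn1, hn2⟩ := hn
    unfold free
    rw [Finset.mem_filter]
    refine ⟨?_, ?_⟩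
    · unfold win at hn1
      rw [Finset.mem_Ioc] at hn1 ⊢
      exact ⟨by omega, hn1.2⟩
    · intro p hp hpn
      rw [← QQ_eq hH hu.le] at hp
      unfold om at hn2
      rw [Finset.card_eq_zero, Finset.filter_eq_empty_iff] at hn2
      exact hn2 hp hpn
  have h3 : (((win X (2 * X)).filter fun n => om (QQ H u0 u1) n = 0).card : ℝ) ≤
      (free (Real.exp ((u0 : ℝ) / H)) (Real.exp ((u1 : ℝ) / H)) (2 * X)).card := by
    exact_mod_cast Finset.card_le_card h2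
  rw [div_le_iff₀ hX0]
  refine (h3.trans h1).trans (le_of_eq ?_)
  field_simp

theorem sum_inv_sq_QQ {H u0 u1 : ℕ} (hH : 1 ≤ H) :
    ∑ p ∈ QQ H u0 u1, 1 / (p : ℝ) ^ 2 ≤ 2 * Real.exp (-((u0 : ℝ) / H)) := by
  have hH0 : (0 : ℝ) < H := by exact_mod_cast hH
  set y : ℝ := Real.exp ((u0 : ℝ) / H) with hy
  have hy0 : 0 < y := Real.exp_pos _
  set N : ℕ := ⌈y⌉₊ with hN
  have hN1 : 1 ≤ N := Nat.one_le_ceil_iff.2 hy0
  set K : ℕ := (QQ H u0 u1).sup id + 1 with hK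
  have hsub : QQ H u0 u1 ⊆ Ioo (N - 1) K := by
    intro p hp
    have h1 : p ≤ (QQ H u0 u1).sup id := Finset.le_sup (f := id) hp
    obtain ⟨u, hu0, _, hu⟩ := mem_QQ.1 hp
    have h2 := (mem_cell.1 hu).1.1
    have h3 : y ≤ p := by
      refine le_trans ?_ h2
      apply Real.exp_le_exp.2
      apply div_le_div_of_nonneg_right _ hH0.le
      exact_mod_cast hu0
    have h4 : N ≤ p := Nat.ceil_le.2 h3
    rw [Finset.mem_Ioo]
    omega
  have h5 : ∑ p ∈ QQ H u0 u1, 1 / (p : ℝ) ^ 2 ≤ ∑ p ∈ Ioo (N - 1) K, ((p : ℝ) ^ 2)⁻¹ := by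
    refine (Finset.sum_le_sum_of_subset_of_nonneg hsub fun i _ _ => by positivity).trans
      (le_of_eq ?_)
    refine Finset.sum_congr rfl fun i _ => ?_
    rw [one_div]
  have h6 := sum_Ioo_inv_sq_le (α := ℝ) (N - 1) K
  have h7 : ((N - 1 : ℕ) : ℝ) + 1 = N := by
    rw [Nat.cast_sub hN1, Nat.cast_one, sub_add_cancel]
  rw [h7] at h6
  have h8 : (2 : ℝ) / N ≤ 2 * Real.exp (-((u0 : ℝ) / H)) := by
    rw [Real.exp_neg, ← hy, ← div_eq_mul_inv]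
    exact div_le_div_of_nonneg_left (by norm_num) hy0 (Nat.le_ceil y)
  linarith

end Pool.Agent.MOM
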