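import Pool.Agent.MOM.Rec.RamC
import Pool.Agent.MOM.Rec.RamD

/-!
MOM, section 3, final part: Ramaré's error term for the primes from `X^{ε²}` to `X^ε`.
`u₀ = f0 ε H X = ⌈ε² H log X⌉`, `u₁ = f1 ε H X = ⌊ε H log X⌋`.

PROOF of `final_E`: `ramare`. For `X` large `u₀ < u₁`, `u₀/u₁ ≤ 2ε` (limit `ε ≤ 1/2`), `exp(u0/H) ≥ 2`,
`exp(u1/H) ≤ X^ε ≤ 2X`: `free_le` gives `≤ 2 C ε`; `sum_inv_sq_QQ`: `≤ 2 X^{-ε²} ≤ ε` for `X` large;
`1/X ≤ ε`.
PROOF of `final_sum`: `1/u ≤ log u - log(u-1)` for `u ≥ 2`, so the sum is at most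
`1/u₀ + log(u₁/u₀)`, and `u₁/u₀ ≤ 1/ε`, `1/u₀ ≤ 1`.
-/

set_option autoImplicit false

namespace Pool.Agent.MOM

open Finset MeasureTheory

/-- `u₀ = ⌈ε² H log X⌉`. -/
noncomputable def f0 (ε : ℝ) (H : ℕ) (X : ℝ) : ℕ := ⌈ε ^ 2 * H * Real.log X⌉₊

/-- `u₁ = ⌊ε H log X⌋`. -/
noncomputable def f1 (ε : ℝ) (H : ℕ) (X : ℝ) : ℕ := ⌊ε * H * Real.log X⌋₊

private theorem f0_lt {ε : ℝ} {H : ℕ} {X : ℝ} (hX : 1 ≤ X) :
    (f0 ε H X : ℝ) < ε ^ 2 * H * Real.log X + 1 :=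
  Nat.ceil_lt_add_one (by have := Real.log_nonneg hX; positivity)

private theorem le_f0 {ε : ℝ} {H : ℕ} {X : ℝ} : ε ^ 2 * H * Real.log X ≤ (f0 ε H X : ℝ) :=
  Nat.le_ceil _

private theorem lt_f1 {ε : ℝ} {H : ℕ} {X : ℝ} :
    ε * H * Real.log X - 1 < (f1 ε H X : ℝ) := by
  have := Nat.lt_floor_add_one (ε * H * Real.log X)
  unfold f1
  linarith

private theorem f1_le {ε : ℝ} {H : ℕ} {X : ℝ} (hε : 0 < ε) (hX : 1 ≤ X) :
    (f1 ε H X : ℝ) ≤ ε * H * Real.log X :=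
  Nat.floor_le (by have := Real.log_nonneg hX; positivity)

private theorem sum_inv_le {m n : ℕ} (hm : 1 ≤ m) (hmn : m ≤ n) :
    ∑ u ∈ Ico m (n + 1), 1 / (u : ℝ) ≤ 1 / m + Real.log ((n : ℝ) / m) := by
  induction n, hmn using Nat.le_induction with
  | base =>
    have hm0 : (m : ℝ) ≠ 0 := by positivity
    rw [div_self hm0, Real.log_one, Nat.Ico_succ_singleton]
    simp
  | succ n hmn ih =>
    have hm0 : (0 : ℝ) < m := by exact_mod_cast hm
    have hn0 : (0 : ℝ) < n := by exact_mod_cast (lt_of_lt_of_le hm hmn)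
    rw [Finset.sum_Ico_succ_top (by omega)]
    have h1 : Real.log ((n : ℝ) / m) = Real.log n - Real.log m :=
      Real.log_div hn0.ne' hm0.ne'
    have h2 : Real.log (((n + 1 : ℕ) : ℝ) / m) = Real.log ((n + 1 : ℕ) : ℝ) - Real.log m :=
      Real.log_div (by positivity) hm0.ne'
    have h3 : Real.log (n : ℝ) - Real.log ((n + 1 : ℕ) : ℝ) ≤ - (1 / ((n + 1 : ℕ) : ℝ)) := by
      rw [← Real.log_div hn0.ne' (by positivity)]
      refine (Real.log_le_sub_one_of_pos (by positivity)).trans (le_of_eq ?_)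
      push_cast
      field_simp
      ring
    rw [h1] at ih
    rw [h2]
    linarith

theorem final_E : ∃ C : ℝ, 0 < C ∧ ∀ (ε lam C1 : ℝ) (H : ℕ), 0 < ε → ε ≤ 1 / 2 → 1 < lam →
    lam ≤ 2 → 0 ≤ C1 → 2 ≤ H → ∃ X0 : ℝ, ∀ X : ℝ, X0 ≤ X →
    ∫ t in Set.Icc (-(C1 * X)) (C1 * X), ‖EE lam X H (f0 ε H X) (f1 ε H X) t‖ ^ 2 ≤
      C * (1 + C1) * (ε + 1 / H) := by
  obtain ⟨Ca, hCa, hram⟩ := ramare
  obtain ⟨Cb, hCb, hfr⟩ := free_le
  refine ⟨Ca * (2 * Cb + 2), by positivity, ?_⟩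
  intro ε lam C1 H hε hε2 hlam hlam2 hC1 hH
  refine ⟨max (Real.exp (4 / ε ^ 2)) (max (Real.exp (Real.log (2 / ε) / ε ^ 2)) (1 / ε)), ?_⟩
  intro X hX
  have hXa : Real.exp (4 / ε ^ 2) ≤ X := (le_max_left _ _).trans hX
  have hXb : Real.exp (Real.log (2 / ε) / ε ^ 2) ≤ X :=
    ((le_max_left _ _).trans (le_max_right _ _)).trans hX
  have hXc : 1 / ε ≤ X := ((le_max_right _ _).trans (le_max_right _ _)).trans hX
  have hX1 : 1 ≤ X := (Real.one_le_exp (by positivity)).trans hXa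
  have hX0 : 0 < X := by linarith
  have hL1 : 4 / ε ^ 2 ≤ Real.log X := (Real.le_log_iff_exp_le hX0).2 hXa
  have hL2 : Real.log (2 / ε) / ε ^ 2 ≤ Real.log X := (Real.le_log_iff_exp_le hX0).2 hXb
  have he2 : 0 < ε ^ 2 := by positivity
  have hL3 : 4 ≤ ε ^ 2 * Real.log X := by
    rw [div_le_iff₀ he2] at hL1
    linarith
  have hL4 : Real.log (2 / ε) ≤ ε ^ 2 * Real.log X := by
    rw [div_le_iff₀ he2] at hL2
    linarith
  have hL0 : 0 < Real.log X := by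
    by_contra h
    push Not at h
    nlinarith
  have hHr : (2 : ℝ) ≤ H := by exact_mod_cast hH
  have hH0 : (0 : ℝ) < H := by linarith
  have hH1 : 1 ≤ H := by omega
  have hb0 := f0_lt (ε := ε) (H := H) hX1
  have ha0 := le_f0 (ε := ε) (H := H) (X := X)
  have ha1 := lt_f1 (ε := ε) (H := H) (X := X)
  have hb1 := f1_le (H := H) hε hX1
  set u0 := f0 ε H X with hu0
  set u1 := f1 ε H X with hu1
  have hk : 8 ≤ ε ^ 2 * H * Real.log X := by
    have : 4 * 2 ≤ (ε ^ 2 * Real.log X) * H := by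
      apply mul_le_mul hL3 hHr (by norm_num) (by positivity)
    linarith
  have hk2 : ε ^ 2 * H * Real.log X ≤ (1 / 2) * (ε * H * Real.log X) := by
    have h0 : 0 ≤ ε * H * Real.log X := by positivity
    nlinarith
  have hlt : (u0 : ℝ) < u1 := by linarith
  have hlt' : u0 < u1 := by exact_mod_cast hlt
  have hu1pos : (0 : ℝ) < u1 := lt_of_le_of_lt (by positivity) hlt
  have hratio : (u0 : ℝ) / u1 ≤ 2 * ε := by
    rw [div_le_iff₀ hu1pos]
    have h1 : 2 * ε * (ε * H * Real.log X - 1) ≤ 2 * ε * u1 :=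
      mul_le_mul_of_nonneg_left ha1.le (by positivity)
    have h2 : 2 * ε * (ε * H * Real.log X - 1) = 2 * (ε ^ 2 * H * Real.log X) - 2 * ε := by
      ring
    linarith
  have hdiv0 : ε ^ 2 * Real.log X ≤ (u0 : ℝ) / H := by
    rw [le_div_iff₀ hH0]
    linarith
  have hdiv1 : (u1 : ℝ) / H ≤ ε * Real.log X := by
    rw [div_le_iff₀ hH0]
    linarith
  have hexp0 : 2 ≤ Real.exp ((u0 : ℝ) / H) := by
    have := Real.add_one_le_exp ((u0 : ℝ) / H)
    linarith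
  have hexp1 : Real.exp ((u1 : ℝ) / H) ≤ 2 * X := by
    have h1 : Real.exp ((u1 : ℝ) / H) ≤ Real.exp (Real.log X) := by
      apply Real.exp_le_exp.2
      nlinarith
    rw [Real.exp_log hX0] at h1
    linarith
  have hF := hfr X H u0 u1 hX1 hH1 hlt' hexp0 hexp1
  have hF2 : Cb * ((u0 : ℝ) / u1) ≤ Cb * (2 * ε) := mul_le_mul_of_nonneg_left hratio hCb.le
  have hS := sum_inv_sq_QQ (H := H) (u0 := u0) (u1 := u1) hH1
  have hS2 : 2 * Real.exp (-((u0 : ℝ) / H)) ≤ ε := by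
    have h1 : Real.exp (-((u0 : ℝ) / H)) ≤ Real.exp (-(Real.log (2 / ε))) := by
      apply Real.exp_le_exp.2
      linarith
    rw [Real.exp_neg (Real.log (2 / ε)), Real.exp_log (by positivity), inv_div] at h1
    linarith
  have hXi : 1 / X ≤ ε := by
    rw [div_le_iff₀ hX0]
    rw [div_le_iff₀ hε] at hXc
    linarith
  have hHi : 0 ≤ 1 / (H : ℝ) := by positivity
  refine (hram lam X C1 H u0 u1 hlam hlam2 hX1 hC1 hH).trans ?_
  have hsum : (((win X (2 * X)).filter fun n => om (QQ H u0 u1) n = 0).card : ℝ) / X +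
        ∑ p ∈ QQ H u0 u1, 1 / (p : ℝ) ^ 2 + 1 / H + 1 / X ≤
        (2 * Cb + 2) * (ε + 1 / H) := by
    nlinarith [mul_nonneg hCb.le hHi]
  calc _ ≤ Ca * (1 + C1) * ((2 * Cb + 2) * (ε + 1 / H)) :=
        mul_le_mul_of_nonneg_left hsum (by positivity)
    _ = _ := by ring

theorem final_sum (ε : ℝ) (hε : 0 < ε) (hε1 : ε ≤ 1 / 2) (H : ℕ) (hH : 1 ≤ H) : ∃ X0 : ℝ,
    ∀ X : ℝ, X0 ≤ X → ∑ u ∈ Ico (f0 ε H X) (f1 ε H X), 1 / (u : ℝ) ≤ 1 + Real.log (1 / ε) := by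
  refine ⟨Real.exp 1, ?_⟩
  intro X hX
  have hX1 : 1 ≤ X := (Real.one_le_exp (by norm_num)).trans hX
  have hX0 : 0 < X := by linarith
  have hL1 : 1 ≤ Real.log X := (Real.le_log_iff_exp_le hX0).2 hX
  have hHr : (1 : ℝ) ≤ H := by exact_mod_cast hH
  have hH0 : (0 : ℝ) < H := by linarith
  have ha0 := le_f0 (ε := ε) (H := H) (X := X)
  have hb1 := f1_le (H := H) hε hX1
  set u0 := f0 ε H X with hu0
  set u1 := f1 ε H X with hu1
  have hlog : 0 ≤ Real.log (1 / ε) := by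
    apply Real.log_nonneg
    rw [le_div_iff₀ hε]
    linarith
  have hpos : 0 < ε ^ 2 * H * Real.log X := by positivity
  have hu0pos : (0 : ℝ) < u0 := lt_of_lt_of_le hpos ha0
  have hu01 : 1 ≤ u0 := by exact_mod_cast hu0pos
  rcases lt_or_ge u0 u1 with h | h
  · obtain ⟨n, hn⟩ : ∃ n, u1 = n + 1 := ⟨u1 - 1, by omega⟩
    have hmn : u0 ≤ n := by omega
    have h1 := sum_inv_le hu01 hmn
    rw [hn]
    refine h1.trans ?_
    have hn1 : (n : ℝ) ≤ u1 := by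
      rw [hn]
      push_cast
      linarith
    have hn0 : (0 : ℝ) < n := lt_of_lt_of_le hu0pos (by exact_mod_cast hmn)
    have h2 : (n : ℝ) / u0 ≤ 1 / ε := by
      rw [div_le_div_iff₀ hu0pos hε]
      have h3 : (n : ℝ) * ε ≤ (ε * H * Real.log X) * ε :=
        mul_le_mul_of_nonneg_right (hn1.trans hb1) hε.le
      have h4 : (ε * H * Real.log X) * ε = ε ^ 2 * H * Real.log X := by ring
      linarith
    have h5 : 1 / (u0 : ℝ) ≤ 1 := by
      rw [div_le_one hu0pos]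
      exact_mod_cast hu01
    have h6 : Real.log ((n : ℝ) / u0) ≤ Real.log (1 / ε) :=
      Real.log_le_log (by positivity) h2
    linarith
  · rw [Finset.Ico_eq_empty_of_le h, Finset.sum_empty]
    linarith

end Pool.Agent.MOM
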