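import Pool.Agent.MOM.Rec.Defs

/-!
MOM, section 3: the recursion. Let `G_j(S, L) = {t : |t| ≤ C1 X, e^{-α_j L} ≤ |Q_S(t)|} \ UU`.

`one_step`: assume the bound of `rec_claim` (with the constant `K`) for all children, i.e. for
`j + 1` and all cells `u ∈ [st0, st1)` of the resolution `H = stH β_j L`. Then the integral over
`G_j(S, L)` is at most `C (1+C1) e^{-β_j L/4} + K/2 e^{-β_j L/4}`. Proof: `G_j(S, L)` is
the union of `D = {t ∈ G_j : ∀ u, |Q_u(t)| ≤ e^{-α_{j+1} u/H}}` and the sets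
`D_u = {t ∈ G_j : e^{-α_{j+1} u/H} ≤ |Q_u(t)|} ⊆ G_{j+1}(cell H u, u/H)`, `u ∈ [st0, st1)`. On `D` use
`step` (`be = β_j`, `al = α_j ≤ 2 a0 ≤ 1/8`, `α_{j+1} = α_j + 4β_j` is `alj_succ`,
`β_j ≤ a0/8 ≤ 1/128`), on `D_u` the hypothesis: total `K ∑_u e^{-β_{j+1} (u/H)/4} ≤ (K/2) e^{-β_j L/4}`
(`bej_succ`, `num_sum`). (Integral over a finite union at most the sum of the integrals, nonnegative
integrand, continuous on the bounded interval: `MeasureTheory.setIntegral_mono_set`,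
`integral_union` or via `lintegral`/indicator functions.)

`measurableSet_UU`: for fixed `X` only finitely many `a` with `a ≤ exp sqrt(log X)`, and for each of
them finitely many `b ≤ 2a`; for fixed `a, b` the set is closed.

`empty_case`: if `(log X)^{4/a0} ≤ e^{u/H}`, `H ≤ e^{u/H}`, `(u+1)/H ≤ sqrt(log X)`, `2 ≤ H`,
`4 ≤ e^{u/H}` then `G_j(cell H u, u/H) = ∅`: take `a = ⌈e^{u/H}⌉₊`, `b = ⌈e^{(u+1)/H}⌉₊`. Then
`a ≤ e^{u/H} + 1 ≤ e^{u/H} + e^{u/H}/H ≤ e^{(u+1)/H} ≤ exp sqrt(log X)`,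
`b ≤ e^{(u+1)/H} + 1 ≤ 1.65 e^{u/H} + 1 ≤ 2a`, and `a^{-2a0} ≤ e^{-2 a0 u/H} ≤ e^{-α_j u/H} ≤ |Q|`
(`alj_le`, `cell_eq`). So every such `t` is in `UU`.

`rec_claim`: induction on `n` for the statement with the additional hypothesis
`(log X)^{4/a0} ≤ 2^n e^{u/H}`, for all `j, H, u`, with `K = 2C(1+C1)`. If
`(log X)^{4/a0} ≤ e^{u/H}`: `empty_case`. Otherwise (so `n ≥ 1`) `L = u/H` has
`e^{β_j L} ≤ ((log X)^{4/a0})^{β_j} ≤ (log X)^{1/2}` since `4 β_j/a0 = 2^{-j-1} ≤ 1/2` and `log X ≥ 1`;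
use `one_step`: the children satisfy the hypotheses by `num_child_H`, `num_child_L`, `num_upp`
(`(v+1)/H' ≤ e^{β_j L} ≤ sqrt(log X)`), `num_H`, and `2^{n-1} e^{v/H'} ≥ 2^n e^{u/H}` by `num_child_P`.
`rec_root`: `one_step` for `j = 0` and `rec_claim` for the children.

THIS FILE: `measurableSet_UU`, `measurableSet_GG`, `empty_case`.
-/

set_option autoImplicit false

namespace Pool.Agent.MOM

open Finset MeasureTheory Real

/-- The set of a node of the recursion. -/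
def GG (a0 C1 X : ℝ) (j : ℕ) (S : Finset ℕ) (L : ℝ) : Set ℝ :=
  {t | |t| ≤ C1 * X ∧ exp (-(alj a0 j * L)) ≤ ‖Pp S t‖} \ UU a0 C1 X

theorem measurableSet_UU (a0 C1 X : ℝ) : MeasurableSet (UU a0 C1 X) := by
  have h : UU a0 C1 X = {t : ℝ | |t| ≤ C1 * X} ∩ ⋃ a : ℕ, ⋃ b : ℕ,
      ({_t : ℝ | b ≤ 2 * a ∧ (Real.log X) ^ (4 / a0) ≤ a ∧
        (a : ℝ) ≤ Real.exp (Real.sqrt (Real.log X))} ∩
        {t : ℝ | (a : ℝ) ^ (-(2 * a0)) ≤ ‖Pp ((Finset.Ico a b).filter Nat.Prime) t‖}) := by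
    ext t
    simp only [UU, Set.mem_ofPred_eq, Set.mem_inter_iff, Set.mem_iUnion]
    constructor
    · rintro ⟨h1, a, b, h2, h3, h4, h5⟩
      exact ⟨h1, a, b, ⟨h2, h3, h4⟩, h5⟩
    · rintro ⟨h1, a, b, ⟨h2, h3, h4⟩, h5⟩
      exact ⟨h1, a, b, h2, h3, h4, h5⟩
  rw [h]
  refine MeasurableSet.inter (isClosed_le continuous_abs continuous_const).measurableSet ?_
  refine MeasurableSet.iUnion fun a => MeasurableSet.iUnion fun b => ?_
  exact (MeasurableSet.const _).inter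
    (isClosed_le continuous_const (continuous_Pp _).norm).measurableSet

theorem measurableSet_GG (a0 C1 X : ℝ) (j : ℕ) (S : Finset ℕ) (L : ℝ) :
    MeasurableSet (GG a0 C1 X j S L) := by
  have h : {t : ℝ | |t| ≤ C1 * X ∧ exp (-(alj a0 j * L)) ≤ ‖Pp S t‖} =
      {t : ℝ | |t| ≤ C1 * X} ∩ {t : ℝ | exp (-(alj a0 j * L)) ≤ ‖Pp S t‖} := rfl
  unfold GG
  rw [h]
  exact ((isClosed_le continuous_abs continuous_const).measurableSet.inter
    (isClosed_le continuous_const (continuous_Pp _).norm).measurableSet).diff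
    (measurableSet_UU a0 C1 X)

private theorem exp_half_le : exp (1 / 2) ≤ 1.65 := by
  have h1 : exp (1 / 2) ^ 2 = exp 1 := by
    rw [← Real.exp_nat_mul]
    norm_num
  have h2 := Real.exp_one_lt_d9
  have h3 : 0 < exp (1 / 2 : ℝ) := Real.exp_pos _
  nlinarith

theorem empty_case {a0 C1 X : ℝ} (h0 : 0 < a0) (j : ℕ) {H u : ℕ} (hH : 2 ≤ H)
    (hH2 : (H : ℝ) ≤ exp ((u : ℝ) / H)) (h4 : 4 ≤ exp ((u : ℝ) / H))
    (hu : ((u : ℝ) + 1) / H ≤ sqrt (log X)) (hX : log X ^ (4 / a0) ≤ exp ((u : ℝ) / H)) :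
    GG a0 C1 X j (cell H u) ((u : ℝ) / H) = ∅ := by
  have hH' : (2 : ℝ) ≤ H := by exact_mod_cast hH
  have hH0 : (0 : ℝ) < H := by linarith
  rw [Set.eq_empty_iff_forall_notMem]
  rintro t ⟨⟨ht1, ht2⟩, ht3⟩
  apply ht3
  have hw : (0 : ℝ) ≤ (u : ℝ) / H := by positivity
  set w : ℝ := (u : ℝ) / H with hwd
  have hw1 : ((u : ℝ) + 1) / H = w + 1 / H := by rw [hwd, add_div]
  have hE0 : 0 < exp w := Real.exp_pos _
  have hdiv : (1 : ℝ) / H ≤ 1 / 2 := one_div_le_one_div_of_le (by norm_num) hH'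
  have hexp1 : exp (w + 1 / H) ≤ 1.65 * exp w := by
    rw [Real.exp_add, mul_comm]
    refine mul_le_mul_of_nonneg_right ?_ hE0.le
    exact (Real.exp_le_exp.2 hdiv).trans exp_half_le
  have hb : ((⌈exp (w + 1 / H)⌉₊ : ℕ) : ℝ) ≤ exp (w + 1 / H) + 1 :=
    (Nat.ceil_lt_add_one (Real.exp_nonneg _)).le
  have ha : ((⌈exp w⌉₊ : ℕ) : ℝ) ≤ exp w + 1 := (Nat.ceil_lt_add_one hE0.le).le
  have ha' : exp w ≤ ((⌈exp w⌉₊ : ℕ) : ℝ) := Nat.le_ceil _
  refine ⟨ht1, ⌈exp w⌉₊, ⌈exp (((u : ℝ) + 1) / H)⌉₊, ?_, hX.trans ha', ?_, ?_⟩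
  · rw [hw1]
    have h5 : ((⌈exp (w + 1 / H)⌉₊ : ℕ) : ℝ) ≤ ((2 * ⌈exp w⌉₊ : ℕ) : ℝ) := by
      push_cast
      linarith
    exact_mod_cast h5
  · have h6 : exp w + 1 ≤ exp w * exp (1 / H) := by
      have h7 : 1 / (H : ℝ) + 1 ≤ exp (1 / H) := Real.add_one_le_exp _
      have h8 : 1 ≤ exp w * (1 / H) := by
        rw [mul_one_div, le_div_iff₀ hH0]
        linarith
      nlinarith
    calc ((⌈exp w⌉₊ : ℕ) : ℝ) ≤ exp w + 1 := ha
      _ ≤ exp w * exp (1 / H) := h6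
      _ = exp (((u : ℝ) + 1) / H) := by rw [← Real.exp_add, hw1]
      _ ≤ exp (sqrt (log X)) := Real.exp_le_exp.2 hu
  · have h9 : (((⌈exp w⌉₊ : ℕ) : ℝ)) ^ (-(2 * a0)) ≤ (exp w) ^ (-(2 * a0)) :=
      Real.rpow_le_rpow_of_nonpos hE0 ha' (by linarith)
    have h10 : (exp w) ^ (-(2 * a0)) = exp (-(2 * a0 * w)) := by
      rw [← Real.exp_mul]
      congr 1
      ring
    have h11 : exp (-(2 * a0 * w)) ≤ exp (-(alj a0 j * w)) := by
      apply Real.exp_le_exp.2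
      have := alj_le h0 j
      nlinarith
    rw [← cell_eq]
    exact (h9.trans (h10.le.trans h11)).trans ht2

end Pool.Agent.MOM
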