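import Pool.Agent.MOM.Rec.FinA1
import Pool.Agent.MOM.Rec.FinB
import Pool.Agent.MOM.Rec.FinE
import Pool.Agent.MOM.Rec.RecA
import Pool.Agent.MOM.Rec.Cnt

/-!
MOM, section 3, final part: the mean square of `M_X` over `UU_X` tends to zero.

PROOF of `final_S`. `a0 = min (1/16) (c/9)` in `final`, so `J.card ≤ X^{9a0/2} ≤ X^{c/2}`. With
`q_u = C4/u`, `Q = ∑_u q_u ≤ C4 (1 + log(1/ε))`, Cauchy-Schwarz:
`‖∑_u Q_u R_u‖² ≤ (∑_u q_u) ∑_u ‖Q_u R_u‖²/q_u`. Integrate over `UU` (measurable, bounded) and use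
`unit_int` for every `u` with `f = ‖Q_u R_u‖²` and `J` restricted to the `j = ⌊t⌋`, `t ∈ UU`
(so that `|τ j| ≤ C1 X + 1`), and `one_u`:
`∫ ≤ Q ∑_u q_u (CB/d² Δ² + C7 d²) = Q² (CB/d² Δ² + C7 d²)`.

PROOF of `final`. Given `η`: choose `ε` and `H` with `2 C (1+C1) (ε + 1/H) ≤ η/2`, then `d` with
`2 C4² (1+log(1/ε))² C7 d² ≤ η/4`, then `Δ` with `2 C4² (1+log(1/ε))² CB/d² Δ² ≤ η/4`, then `X` large;
`‖MX‖² ≤ 2‖EE‖² + 2‖∑‖²` (`MX_eq`), `UU ⊆ Set.Icc (-(C1 X)) (C1 X)`, `final_E`, `final_S`.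

THIS FILE: `final_S`.
-/

set_option autoImplicit false

namespace Pool.Agent.MOM

open Finset MeasureTheory

private theorem fS_cs (s : Finset ℕ) (q : ℕ → ℝ) (z : ℕ → ℂ) (hq : ∀ u ∈ s, 0 < q u) :
    ‖∑ u ∈ s, z u‖ ^ 2 ≤ (∑ u ∈ s, q u) * ∑ u ∈ s, ‖z u‖ ^ 2 / q u := by
  have h1 : ‖∑ u ∈ s, z u‖ ≤ ∑ u ∈ s, ‖z u‖ := norm_sum_le _ _
  have h2 : ‖∑ u ∈ s, z u‖ ^ 2 ≤ (∑ u ∈ s, ‖z u‖) ^ 2 :=
    pow_le_pow_left₀ (norm_nonneg _) h1 2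
  refine h2.trans (Finset.sum_sq_le_sum_mul_sum_of_sq_le_mul s (fun u hu => (hq u hu).le)
    (fun u hu => div_nonneg (sq_nonneg _) (hq u hu).le) (fun u hu => ?_))
  have := hq u hu
  exact le_of_eq (by field_simp)

theorem final_S : ∃ c : ℝ, 0 < c ∧ c ≤ 1 ∧ ∃ C4 C7 : ℝ, 0 < C4 ∧ 0 < C7 ∧ ∀ (H : ℕ) (ε : ℝ),
    1 ≤ H → 0 < ε → ε ≤ 1 / 2 → ∃ CB : ℝ, 0 < CB ∧ ∀ d Δ lam C1 a0 : ℝ, 0 < d → 0 < Δ →
      1 < lam → lam ≤ 2 → 0 ≤ C1 → 0 < a0 → a0 ≤ 1 / 16 → 9 * a0 ≤ c →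
      ∃ X0 : ℝ, ∀ X : ℝ, X0 ≤ X →
        ∫ t in UU a0 C1 X, ‖∑ u ∈ Ico (f0 ε H X) (f1 ε H X),
          Pp (cell H u) t * Ru lam X H (f0 ε H X) (f1 ε H X) u t‖ ^ 2 ≤
        (C4 * (1 + Real.log (1 / ε))) ^ 2 * (CB / d ^ 2 * Δ ^ 2 + C7 * d ^ 2) := by
  obtain ⟨c, hc, hc1, C4, C7, hC4, hC7, h⟩ := one_u
  refine ⟨c, hc, hc1, C4, C7, hC4, hC7, fun H ε hH hε hε2 => ?_⟩
  obtain ⟨CB, hCB, h⟩ := h H ε hH hε hε2
  refine ⟨CB, hCB, fun d Δ lam C1 a0 hd hΔ hlam hlam2 hC1 ha0 ha01 hac => ?_⟩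
  obtain ⟨X1, h⟩ := h d Δ lam C1 hd hΔ hlam hlam2 hC1
  obtain ⟨X2, h2⟩ := final_sum ε hε hε2 H hH
  obtain ⟨X3, h3⟩ := count a0 C1 ha0 ha01 hC1
  refine ⟨max (max X1 X2) (max X3 2), fun X hX => ?_⟩
  have hX1 : X1 ≤ X := (le_max_left _ _).trans ((le_max_left _ _).trans hX)
  have hX2 : X2 ≤ X := (le_max_right _ _).trans ((le_max_left _ _).trans hX)
  have hX3 : X3 ≤ X := (le_max_left _ _).trans ((le_max_right _ _).trans hX)
  have hX4 : 2 ≤ X := (le_max_right _ _).trans ((le_max_right _ _).trans hX)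
  have hH0 : (0 : ℝ) < H := by exact_mod_cast hH
  have hlog : 0 < Real.log X := Real.log_pos (by linarith)
  have hsum := h2 X hX2
  obtain ⟨J, hJ, hJc⟩ := h3 X hX3
  have hf0 : ε ^ 2 * H * Real.log X ≤ (f0 ε H X : ℝ) := Nat.le_ceil _
  have hf1 : (f1 ε H X : ℝ) ≤ ε * H * Real.log X := Nat.floor_le (by positivity)
  have hf0p : 0 < f0 ε H X := by
    unfold f0
    exact Nat.ceil_pos.2 (by positivity)
  set I := Ico (f0 ε H X) (f1 ε H X) with hI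
  set B := CB / d ^ 2 * Δ ^ 2 + C7 * d ^ 2 with hB
  have hB0 : 0 ≤ B := by positivity
  have hup : ∀ u ∈ I, (0 : ℝ) < u := by
    intro u hu
    rw [hI, Finset.mem_Ico] at hu
    have : 0 < u := lt_of_lt_of_le hf0p hu.1
    exact_mod_cast this
  have hqp : ∀ u ∈ I, (0 : ℝ) < C4 / u := fun u hu => div_pos hC4 (hup u hu)
  -- the functions
  let g : ℕ → ℝ → ℂ := fun u t => Pp (cell H u) t * Ru lam X H (f0 ε H X) (f1 ε H X) u t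
  have hgc : ∀ u, Continuous (g u) := fun u => (continuous_Pp _).mul (continuous_Ru _ _ _ _ _ _)
  have hfc : ∀ u, Continuous (fun t => ‖g u t‖ ^ 2) := fun u => (hgc u).norm.pow 2
  have hUsub : UU a0 C1 X ⊆ Set.Icc (-(C1 * X)) (C1 * X) := by
    intro t ht
    exact abs_le.1 ht.1
  have hint : ∀ f : ℝ → ℝ, Continuous f → IntegrableOn f (UU a0 C1 X) := fun f hf =>
    (hf.continuousOn.integrableOn_Icc).mono_set hUsub
  have hone : ∀ u ∈ I, ∫ t in UU a0 C1 X, ‖g u t‖ ^ 2 ≤ (C4 / u) ^ 2 * B := by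
    intro u hu
    have hu' := hu
    rw [hI, Finset.mem_Ico] at hu'
    obtain ⟨τ, hτ, hτi⟩ := unit_int (hfc u) (fun t => sq_nonneg _)
    classical
    have h4 := hτi (J.filter fun j => ∃ t ∈ UU a0 C1 X, ⌊t⌋ = j) (UU a0 C1 X)
      (measurableSet_UU a0 C1 X) (fun t ht => by
        rw [Finset.mem_filter]
        exact ⟨hJ t ht, t, ht, rfl⟩)
    refine h4.trans ?_
    refine h X hX1 (f0 ε H X) (f1 ε H X) u hf0 hu'.1 hu'.2 hf1 _ τ hτ ?_ ?_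
    · intro j hj
      rw [Finset.mem_filter] at hj
      obtain ⟨-, t, ht, rfl⟩ := hj
      have h5 : |t| ≤ C1 * X := ht.1
      have h6 := hτ ⌊t⌋
      have h7 := Int.floor_le t
      have h8 := Int.lt_floor_add_one t
      rw [abs_le] at h5 ⊢
      constructor <;> linarith [h5.1, h5.2, h6.1, h6.2]
    · have h5 : ((J.filter fun j => ∃ t ∈ UU a0 C1 X, ⌊t⌋ = j).card : ℝ) ≤ J.card := by
        exact_mod_cast Finset.card_filter_le _ _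
      refine h5.trans (hJc.trans (Real.rpow_le_rpow_of_exponent_le (by linarith) ?_))
      linarith
  have hQ : ∑ u ∈ I, C4 / (u : ℝ) ≤ C4 * (1 + Real.log (1 / ε)) := by
    have : ∑ u ∈ I, C4 / (u : ℝ) = C4 * ∑ u ∈ I, 1 / (u : ℝ) := by
      rw [Finset.mul_sum]
      exact Finset.sum_congr rfl fun u _ => by ring
    rw [this]
    exact mul_le_mul_of_nonneg_left hsum hC4.le
  have hQ0 : 0 ≤ ∑ u ∈ I, C4 / (u : ℝ) := Finset.sum_nonneg fun u hu => (hqp u hu).le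
  have hmain : ∫ t in UU a0 C1 X, ‖∑ u ∈ I, g u t‖ ^ 2 ≤
      (∑ u ∈ I, C4 / (u : ℝ)) * ∑ u ∈ I, (C4 / (u : ℝ)) * B := by
    have h5 : ∫ t in UU a0 C1 X, ‖∑ u ∈ I, g u t‖ ^ 2 ≤
        ∫ t in UU a0 C1 X, (∑ u ∈ I, C4 / (u : ℝ)) *
          ∑ u ∈ I, ‖g u t‖ ^ 2 / (C4 / (u : ℝ)) := by
      refine setIntegral_mono (hint _ ?_) (hint _ ?_) fun t => fS_cs I _ _ hqp
      · exact (continuous_finsetSum _ fun u _ => hgc u).norm.pow 2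
      · exact continuous_const.mul (continuous_finsetSum _ fun u _ => (hfc u).div_const _)
    refine h5.trans ?_
    rw [integral_const_mul]
    refine mul_le_mul_of_nonneg_left ?_ hQ0
    rw [integral_finsetSum _ fun u _ => hint _ ((hfc u).div_const _)]
    refine Finset.sum_le_sum fun u hu => ?_
    rw [integral_div, div_le_iff₀ (hqp u hu)]
    refine (hone u hu).trans (le_of_eq ?_)
    ring
  refine hmain.trans ?_
  rw [← Finset.sum_mul, ← mul_assoc, sq]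
  have h6 : (∑ u ∈ I, C4 / (u : ℝ)) * ∑ u ∈ I, C4 / (u : ℝ) ≤
      C4 * (1 + Real.log (1 / ε)) * (C4 * (1 + Real.log (1 / ε))) :=
    mul_le_mul hQ hQ hQ0 (hQ0.trans hQ)
  exact mul_le_mul_of_nonneg_right h6 hB0

end Pool.Agent.MOM
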