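import Pool.Agent.MOM.Rec.MomB

/-!
MOM, section 3: the moment lemma.

PROOF of `qs_dyadic`: the elements of `S` are distinct integers in `[P, 2P]`, so
`qs S ≤ ∑_{⌈P⌉ ≤ n ≤ ⌊2P⌋} 1/n ≤ 1/P + log(2P/P) ≤ 1/4 + log 2 < 1` (compare with `∫ dx/x`; e.g. by
`1/n ≤ log n - log(n-1)` for `n ≥ ⌈P⌉ + 1`). 

PROOF of `win_inv_sum`: for `M > 0`, `lam ≤ 2` and `d ≥ 1` the `m` with
`M < d m ≤ lam M` are in `(M', 2M']`, `M' = M/d`. If `M' < 1` then only `m = 1` is possible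
(`m ≤ 2M' < 2`) and the sum is `≤ 1`; if `M' ≥ 1` there are at most `M' + 1` of them, each
`1/m ≤ 1/M'`, total `≤ 1 + 1/M' ≤ 2`.

PROOF of `pow_mv`. Put `a n = b n` for `Y ≤ n ≤ N` (hypothesis: `b n = 0` otherwise), `B n = 1` for
`b n ≠ 0`... precisely: `‖b n‖ ≤ B n ≤ 1`. By `dp_up_iter` (with the natural number `⌊2P⌋₊` as bound
of `S`, `N0 = ⌊N⌋₊`) `Pp S t ^ l * dp (Icc 1 N0) b t = dp (Icc 1 K) c t`, `c = (up S)^[l] b`,
`K = ⌊2P⌋₊^l N0 ≤ (2P)^l N`. By `mvt` its mean square over `[-T,T]` is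
`≤ C (T + (2P)^l N) ∑_{n ≤ K} ‖c n‖²/n²` (if `K = 0` everything is `0`). By `norm_up_iter_le`
`‖c n‖ ≤ (upR S)^[l] B n` and `‖c n‖ ≤ (upR S)^[l] 1 n`; and `c n ≠ 0` implies `n ≥ P^l Y`
(`up_iter_support`). So `‖c n‖²/n² ≤ (P^l Y)⁻¹ (upR S)^[l] B n (upR S)^[l] 1 n/n`, and
`moment_comb` with `j = l` bounds the sum by `2 (l+1)^l`.

PROOF of `moment`. On `A`: `‖R‖² ≤ P^{2 al l} ‖Pp S t‖^{2l} ‖R‖²`. Use `pow_mv` for
`b n` restricted to the window `win M (lam M)`, `B` its indicator function (`hB2` by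
`win_inv_sum`), `Y = M`, `N = lam M`, `T = C1 X` (if `C1 X = 0` the integral is `0`; enlarge `T` to
`C1 X + 1`): `∫ ≤ P^{2 al l} C (C1 X + 1 + (2P)^l lam M)/(P^l M) 2 (l+1)^l`
`≤ P^{2 al l} C (C1 + 1 + 2^{l+1}) 2 (l+1)^l` because `P^l M ≥ X ≥ 1`.

THIS FILE: `moment`.
-/

set_option autoImplicit false

namespace Pool.Agent.MOM

open Finset MeasureTheory

private theorem mom_window {lam M : ℝ} (b : ℕ → ℂ) (t : ℝ) :
    dp (Icc 1 ⌊lam * M⌋₊) (fun n => if n ∈ win M (lam * M) then b n else 0) t =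
      dp (win M (lam * M)) b t := by
  unfold dp
  have hsub : win M (lam * M) ⊆ Icc 1 ⌊lam * M⌋₊ := by
    intro n hn
    unfold win at hn
    rw [Finset.mem_Ioc] at hn
    rw [Finset.mem_Icc]
    omega
  rw [← Finset.sum_subset hsub]
  · refine Finset.sum_congr rfl fun n hn => ?_
    simp only [if_pos hn]
  · intro n _ hn
    simp only [if_neg hn, zero_div, zero_mul]

private theorem mom_pow {P al p : ℝ} (hP : 0 < P) (hp : P ^ (-al) ≤ p) (l : ℕ) :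
    1 ≤ P ^ (2 * al * l) * (p ^ l) ^ 2 := by
  have h0 : 0 ≤ P ^ (-al) := Real.rpow_nonneg hP.le _
  have h1 : (P ^ (-al)) ^ l ≤ p ^ l := pow_le_pow_left₀ h0 hp l
  have h2 : ((P ^ (-al)) ^ l) ^ 2 ≤ (p ^ l) ^ 2 := pow_le_pow_left₀ (pow_nonneg h0 l) h1 2
  have h3 : P ^ (2 * al * l) * ((P ^ (-al)) ^ l) ^ 2 = 1 := by
    rw [← Real.rpow_natCast (P ^ (-al)) l, ← Real.rpow_mul hP.le,
      ← Real.rpow_natCast (P ^ (-al * (l : ℝ))) 2, ← Real.rpow_mul hP.le, ← Real.rpow_add hP]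
    have e : 2 * al * (l : ℝ) + -al * (l : ℝ) * ((2 : ℕ) : ℝ) = 0 := by
      push_cast
      ring
    rw [e, Real.rpow_zero]
  rw [← h3]
  exact mul_le_mul_of_nonneg_left h2 (Real.rpow_nonneg hP.le _)

theorem moment : ∃ C : ℝ, 0 < C ∧ ∀ (lam P X M al C1 : ℝ) (l : ℕ) (S : Finset ℕ) (b : ℕ → ℂ),
    1 < lam → lam ≤ 2 → 4 ≤ P → 1 ≤ X → 0 < M → 0 ≤ C1 →
    (∀ p ∈ S, p.Prime ∧ P ≤ p ∧ (p : ℝ) ≤ 2 * P) → (∀ m, ‖b m‖ ≤ 1) → X ≤ P ^ l * M →
    ∀ A : Set ℝ, MeasurableSet A → (∀ t ∈ A, |t| ≤ C1 * X) → (∀ t ∈ A, P ^ (-al) ≤ ‖Pp S t‖) →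
    ∫ t in A, ‖dp (win M (lam * M)) b t‖ ^ 2 ≤
      C * (1 + C1) * P ^ (2 * al * l) * 2 ^ l * ((l : ℝ) + 1) ^ l := by
  obtain ⟨C0, hC0, hpow⟩ := pow_mv
  refine ⟨3 * C0, by positivity, ?_⟩
  intro lam P X M al C1 l S b hl1 hl2 hP hX hM hC1 hS hb hXM A hA hAt hAP
  have hP0 : 0 < P := by linarith
  have hlM : M ≤ lam * M := by nlinarith
  have hT : 0 < C1 * X + 1 := by positivity
  set b' : ℕ → ℂ := fun n => if n ∈ win M (lam * M) then b n else 0 with hb'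
  set B : ℕ → ℝ := fun n => if n ∈ win M (lam * M) then (1 : ℝ) else 0 with hB
  have h1 := hpow P M (lam * M) (C1 * X + 1) S b' B l hP hM hlM hT hS (fun n => by
      by_cases h : n ∈ win M (lam * M)
      · simp only [hb', hB, if_pos h]
        exact hb n
      · simp only [hb', hB, if_neg h, norm_zero]
        exact le_rfl) (fun n => by
      by_cases h : n ∈ win M (lam * M)
      · simp only [hB, if_pos h]
        exact le_rfl
      · simp only [hB, if_neg h]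
        exact zero_le_one) (fun n hn => by
      have h : n ∈ win M (lam * M) := by
        by_contra h
        exact hn (if_neg h)
      obtain ⟨h2, h3⟩ := (mem_win hM.le).1 h
      exact ⟨h2.le, h3⟩) (fun d K hd => by
      simp only [hB]
      exact win_inv_sum hl2 hM d K hd)
  have hsubA : A ⊆ Set.Icc (-(C1 * X + 1)) (C1 * X + 1) := by
    intro t ht
    have h2 := abs_le.1 (hAt t ht)
    exact ⟨by linarith [h2.1], by linarith [h2.2]⟩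
  have cR : Continuous fun t => ‖dp (win M (lam * M)) b t‖ ^ 2 :=
    (continuous_dp _ _).norm.pow 2
  have cG : Continuous fun t => ‖Pp S t ^ l * dp (Icc 1 ⌊lam * M⌋₊) b' t‖ ^ 2 :=
    ((((continuous_Pp S).pow l).mul (continuous_dp _ _)).norm).pow 2
  have iR : IntegrableOn (fun t => ‖dp (win M (lam * M)) b t‖ ^ 2) A :=
    (cR.continuousOn.integrableOn_compact isCompact_Icc).mono_set hsubA
  have iG : IntegrableOn (fun t => ‖Pp S t ^ l * dp (Icc 1 ⌊lam * M⌋₊) b' t‖ ^ 2)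
      (Set.Icc (-(C1 * X + 1)) (C1 * X + 1)) :=
    cG.continuousOn.integrableOn_compact isCompact_Icc
  have hPal : 0 ≤ P ^ (2 * al * l) := Real.rpow_nonneg hP0.le _
  have h2 : ∫ t in A, ‖dp (win M (lam * M)) b t‖ ^ 2 ≤
      ∫ t in A, P ^ (2 * al * l) * ‖Pp S t ^ l * dp (Icc 1 ⌊lam * M⌋₊) b' t‖ ^ 2 := by
    refine setIntegral_mono_on iR ((iG.mono_set hsubA).const_mul _) hA fun t ht => ?_
    rw [hb', mom_window, norm_mul, norm_pow, mul_pow, ← mul_assoc]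
    have h3 := mom_pow hP0 (hAP t ht) l
    nlinarith [sq_nonneg ‖dp (win M (lam * M)) b t‖]
  have h3 : ∫ t in A, P ^ (2 * al * l) * ‖Pp S t ^ l * dp (Icc 1 ⌊lam * M⌋₊) b' t‖ ^ 2 ≤
      P ^ (2 * al * l) * ∫ t in Set.Icc (-(C1 * X + 1)) (C1 * X + 1),
        ‖Pp S t ^ l * dp (Icc 1 ⌊lam * M⌋₊) b' t‖ ^ 2 := by
    rw [integral_const_mul]
    refine mul_le_mul_of_nonneg_left ?_ hPal
    exact setIntegral_mono_set iG (Filter.Eventually.of_forall fun t => sq_nonneg _)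
      (Filter.Eventually.of_forall hsubA)
  have hPM : 0 < P ^ l * M := by positivity
  have hPM1 : 1 ≤ P ^ l * M := hX.trans hXM
  have h4 : C0 * (C1 * X + 1 + (2 * P) ^ l * (lam * M)) / (P ^ l * M) ≤
      3 * C0 * (1 + C1) * 2 ^ l := by
    rw [div_le_iff₀ hPM, mul_pow]
    have h5 : (1 : ℝ) ≤ 2 ^ l := one_le_pow₀ (by norm_num)
    have h6 : C1 * X ≤ C1 * (P ^ l * M) := mul_le_mul_of_nonneg_left hXM hC1
    have h7 : (2 : ℝ) ^ l * P ^ l * (lam * M) ≤ 2 * (2 ^ l * (P ^ l * M)) := by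
      have h8 : 0 ≤ (2 : ℝ) ^ l * (P ^ l * M) := by positivity
      nlinarith
    have h8 : (C1 + 1) * (P ^ l * M) ≤ (C1 + 1) * (2 ^ l * (P ^ l * M)) := by
      have : P ^ l * M ≤ 2 ^ l * (P ^ l * M) := by nlinarith
      exact mul_le_mul_of_nonneg_left this (by linarith)
    have h9 : 0 ≤ C1 * (2 ^ l * (P ^ l * M)) := by positivity
    have h10 : C1 * X + 1 + (2 : ℝ) ^ l * P ^ l * (lam * M) ≤
        3 * (1 + C1) * 2 ^ l * (P ^ l * M) := by nlinarith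
    calc C0 * (C1 * X + 1 + 2 ^ l * P ^ l * (lam * M))
        ≤ C0 * (3 * (1 + C1) * 2 ^ l * (P ^ l * M)) := mul_le_mul_of_nonneg_left h10 hC0.le
      _ = _ := by ring
  have hl0 : 0 ≤ ((l : ℝ) + 1) ^ l := by positivity
  calc ∫ t in A, ‖dp (win M (lam * M)) b t‖ ^ 2
      ≤ P ^ (2 * al * l) * ∫ t in Set.Icc (-(C1 * X + 1)) (C1 * X + 1),
        ‖Pp S t ^ l * dp (Icc 1 ⌊lam * M⌋₊) b' t‖ ^ 2 := h2.trans h3
    _ ≤ P ^ (2 * al * l) * (C0 * (C1 * X + 1 + (2 * P) ^ l * (lam * M)) / (P ^ l * M) *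
        ((l : ℝ) + 1) ^ l) := mul_le_mul_of_nonneg_left h1 hPal
    _ ≤ P ^ (2 * al * l) * (3 * C0 * (1 + C1) * 2 ^ l * ((l : ℝ) + 1) ^ l) :=
        mul_le_mul_of_nonneg_left (mul_le_mul_of_nonneg_right h4 hl0) hPal
    _ = 3 * C0 * (1 + C1) * P ^ (2 * al * l) * 2 ^ l * ((l : ℝ) + 1) ^ l := by ring

end Pool.Agent.MOM
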