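import Pool.Agent.MOM.Rec.Defs

/-!
MOM, section 3: the moment lemma.

PROOF of `qs_dyadic`: the elements of `S` are distinct integers in `[P, 2P]`, so
`qs S ≤ ∑_{⌈P⌉ ≤ n ≤ ⌊2P⌋} 1/n ≤ 1/P + log(2P/P) ≤ 1/4 + log 2 < 1` (compare with `∫ dx/x`; e.g. by
`1/n ≤ log n - log(n-1)` for `n ≥ ⌈P⌉ + 1`). 

PROOF of `win_inv_sum`: for `M > 0`, `lam ≤ 2` and `d ≥ 1` the `m` with
`M < d m ≤ lam M` are in `(M', 2M']`, `M' = M/d`. If `M' < 1` then only `m = 1` is possible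
(`m ≤ 2M' < 2`) and the sum is `≤ 1`; if `M' ≥ 1` there are at most `M' + 1` of them, each
`1/m ≤ 1/M'`, total `≤ 1 + 1/M' ≤ 2`.

PROOF of `pow_mv`. Put `a n = b n` for `Y ≤ n ≤ N` (hypothesis: `b n = 0` otherwise), `B n = 1` for
`b n ≠ 0`... precisely: `‖b n‖ ≤ B n ≤ 1`. By `dp_up_iter` (with the natural number `⌊2P⌋₊` as bound
of `S`, `N0 = ⌊N⌋₊`) `Pp S t ^ l * dp (Icc 1 N0) b t = dp (Icc 1 K) c t`, `c = (up S)^[l] b`,
`K = ⌊2P⌋₊^l N0 ≤ (2P)^l N`. By `mvt` its mean square over `[-T,T]` is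
`≤ C (T + (2P)^l N) ∑_{n ≤ K} ‖c n‖²/n²` (if `K = 0` everything is `0`). By `norm_up_iter_le`
`‖c n‖ ≤ (upR S)^[l] B n` and `‖c n‖ ≤ (upR S)^[l] 1 n`; and `c n ≠ 0` implies `n ≥ P^l Y`
(`up_iter_support`). So `‖c n‖²/n² ≤ (P^l Y)⁻¹ (upR S)^[l] B n (upR S)^[l] 1 n/n`, and
`moment_comb` with `j = l` bounds the sum by `2 (l+1)^l`.

PROOF of `moment`. On `A`: `‖R‖² ≤ P^{2 al l} ‖Pp S t‖^{2l} ‖R‖²`. Use `pow_mv` for
`b n` restricted to the window `win M (lam M)`, `B` its indicator function (`hB2` by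
`win_inv_sum`), `Y = M`, `N = lam M`, `T = C1 X` (if `C1 X = 0` the integral is `0`; enlarge `T` to
`C1 X + 1`): `∫ ≤ P^{2 al l} C (C1 X + 1 + (2P)^l lam M)/(P^l M) 2 (l+1)^l`
`≤ P^{2 al l} C (C1 + 1 + 2^{l+1}) 2 (l+1)^l` because `P^l M ≥ X ≥ 1`.

THIS FILE: `qs_dyadic`, `win_inv_sum`.
-/

set_option autoImplicit false

namespace Pool.Agent.MOM

open Finset MeasureTheory

private theorem inv_le_log_sub {i : ℕ} (hi : 1 ≤ i) :
    1 / ((i + 1 : ℕ) : ℝ) ≤ Real.log ((i + 1 : ℕ) : ℝ) - Real.log i := by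
  have h0 : (0 : ℝ) < i := by exact_mod_cast hi
  have h1 : (0 : ℝ) < ((i + 1 : ℕ) : ℝ) := by positivity
  have h2 := Real.one_sub_inv_le_log_of_pos (div_pos h1 h0)
  rw [Real.log_div h1.ne' h0.ne', inv_div] at h2
  have h3 : 1 - (i : ℝ) / ((i + 1 : ℕ) : ℝ) = 1 / ((i + 1 : ℕ) : ℝ) := by
    field_simp
    push_cast
    ring
  rw [h3] at h2
  exact h2

theorem qs_dyadic {S : Finset ℕ} {P : ℝ} (hP : 4 ≤ P) (hS : ∀ p ∈ S, P ≤ p ∧ (p : ℝ) ≤ 2 * P) :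
    qs S ≤ 1 := by
  set a : ℕ := ⌈P⌉₊ with ha
  set b : ℕ := ⌊2 * P⌋₊ with hb
  have hPa : P ≤ a := Nat.le_ceil P
  have hbP : (b : ℝ) ≤ 2 * P := Nat.floor_le (by linarith)
  have ha4 : 4 ≤ a := by
    have : (4 : ℝ) ≤ a := hP.trans hPa
    exact_mod_cast this
  have hac : ((a - 1 : ℕ) : ℝ) = (a : ℝ) - 1 := by
    rw [Nat.cast_sub (by omega), Nat.cast_one]
  have hab : a - 1 ≤ b := by
    rw [hb]
    apply Nat.le_floor
    rw [hac]
    have := Nat.ceil_lt_add_one (show (0 : ℝ) ≤ P by linarith)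
    linarith
  have hsub : S ⊆ (Ico (a - 1) b).image (fun i => i + 1) := by
    intro p hp
    obtain ⟨h1, h2⟩ := hS p hp
    have h3 : a ≤ p := Nat.ceil_le.2 h1
    have h4 : p ≤ b := Nat.le_floor h2
    refine Finset.mem_image.2 ⟨p - 1, ?_, by omega⟩
    rw [Finset.mem_Ico]
    omega
  have h1 : qs S ≤ ∑ i ∈ Ico (a - 1) b, 1 / ((i + 1 : ℕ) : ℝ) := by
    unfold qs
    refine (Finset.sum_le_sum_of_subset_of_nonneg hsub fun i _ _ => by positivity).trans ?_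
    rw [Finset.sum_image fun x _ y _ hxy => Nat.succ_injective hxy]
  have h2 : ∑ i ∈ Ico (a - 1) b, 1 / ((i + 1 : ℕ) : ℝ) ≤
      ∑ i ∈ Ico (a - 1) b, (Real.log ((i + 1 : ℕ) : ℝ) - Real.log i) := by
    refine Finset.sum_le_sum fun i hi => inv_le_log_sub ?_
    rw [Finset.mem_Ico] at hi
    omega
  have h3 : ∑ i ∈ Ico (a - 1) b, (Real.log ((i + 1 : ℕ) : ℝ) - Real.log i) =
      Real.log b - Real.log ((a - 1 : ℕ) : ℝ) :=
    Finset.sum_Ico_sub (fun i : ℕ => Real.log (i : ℝ)) hab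
  have h4 : Real.log b ≤ Real.log (2 * P) := by
    refine Real.log_le_log ?_ hbP
    have : 0 < b := by omega
    exact_mod_cast this
  have h5 : Real.log (P - 1) ≤ Real.log ((a - 1 : ℕ) : ℝ) := by
    rw [hac]
    exact Real.log_le_log (by linarith) (by linarith)
  have h6 : Real.log (2 * P) - Real.log (P - 1) ≤ 1 := by
    rw [← Real.log_div (by linarith) (by linarith)]
    have h7 : 2 * P / (P - 1) ≤ Real.exp 1 := by
      rw [div_le_iff₀ (by linarith)]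
      have h8 := Real.exp_one_gt_d9
      nlinarith
    calc Real.log (2 * P / (P - 1)) ≤ Real.log (Real.exp 1) :=
        Real.log_le_log (div_pos (by linarith) (by linarith)) h7
      _ = 1 := Real.log_exp 1
  linarith

theorem win_inv_sum {lam M : ℝ} (hl : lam ≤ 2) (hM : 0 < M) (d K : ℕ) (hd : 0 < d) :
    ∑ m ∈ Ico 1 K, (if d * m ∈ win M (lam * M) then (1 : ℝ) else 0) / m ≤ 2 := by
  have hd0 : (0 : ℝ) < d := by exact_mod_cast hd
  set M' : ℝ := M / d with hM'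
  have hM'0 : 0 < M' := div_pos hM hd0
  set F : Finset ℕ := (Ico 1 K).filter (fun m => d * m ∈ win M (lam * M)) with hF
  have h1 : ∑ m ∈ Ico 1 K, (if d * m ∈ win M (lam * M) then (1 : ℝ) else 0) / m =
      ∑ m ∈ F, 1 / (m : ℝ) := by
    rw [hF, Finset.sum_filter]
    refine Finset.sum_congr rfl fun m _ => ?_
    split_ifs
    · rfl
    · rw [zero_div]
  have hmem : ∀ m ∈ F, M' < m ∧ (m : ℝ) ≤ 2 * M' ∧ 1 ≤ m := by
    intro m hm
    rw [hF, Finset.mem_filter, Finset.mem_Ico, mem_win hM.le] at hm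
    obtain ⟨⟨h2, _⟩, h3, h4⟩ := hm
    rw [Nat.cast_mul] at h3 h4
    refine ⟨?_, ?_, h2⟩
    · rw [hM', div_lt_iff₀ hd0]
      linarith
    · rw [hM', mul_div_assoc', le_div_iff₀ hd0]
      nlinarith
  rw [h1]
  rcases lt_or_ge M' 1 with h2 | h2
  · have hsub : F ⊆ {1} := by
      intro m hm
      obtain ⟨_, h3, h4⟩ := hmem m hm
      have h5 : (m : ℝ) < 2 := by linarith
      have h6 : m < 2 := by exact_mod_cast h5
      rw [Finset.mem_singleton]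
      omega
    refine (Finset.sum_le_sum_of_subset_of_nonneg hsub fun i _ _ => by positivity).trans ?_
    norm_num
  · have hsub : F ⊆ Ioc ⌊M'⌋₊ ⌊2 * M'⌋₊ := by
      intro m hm
      obtain ⟨h3, h4, _⟩ := hmem m hm
      rw [Finset.mem_Ioc]
      exact ⟨(Nat.floor_lt hM'0.le).2 h3, Nat.le_floor h4⟩
    have hcard : (F.card : ℝ) ≤ M' + 1 := by
      have h3 := Finset.card_le_card hsub
      rw [Nat.card_Ioc] at h3
      have h4 : ⌊M'⌋₊ ≤ ⌊2 * M'⌋₊ := Nat.floor_mono (by linarith)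
      have h5 : (F.card : ℝ) ≤ ((⌊2 * M'⌋₊ - ⌊M'⌋₊ : ℕ) : ℝ) := by exact_mod_cast h3
      rw [Nat.cast_sub h4] at h5
      have h6 : (⌊2 * M'⌋₊ : ℝ) ≤ 2 * M' := Nat.floor_le (by linarith)
      have h7 := Nat.lt_floor_add_one M'
      linarith
    have h3 : ∑ m ∈ F, 1 / (m : ℝ) ≤ F.card • (1 / M') := by
      refine Finset.sum_le_card_nsmul F _ _ fun m hm => ?_
      obtain ⟨h3, _, _⟩ := hmem m hm
      exact one_div_le_one_div_of_le hM'0 h3.le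
    rw [nsmul_eq_mul] at h3
    refine h3.trans ?_
    rw [mul_one_div, div_le_iff₀ hM'0]
    linarith

end Pool.Agent.MOM
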