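import Pool.Agent.MOM.Rec.Defs

/-!
MOM, section 3: products of Dirichlet polynomials with prime polynomials. `up S a` is the sequence of
coefficients of the product of `Pp S` with the Dirichlet polynomial of `a`.

PROOF of `dp_up`. `dp (Icc 1 N') (up S a) t = ∑_{n ≤ N'} ∑_{p ∈ S, p ∣ n} a(n/p)/n ph t n`. Exchange
the sums; for fixed `p ∈ S` the `n` with `p ∣ n`, `1 ≤ n ≤ N'` are the `n = p m`, `1 ≤ m ≤ N'/p`
(`Finset.sum_bij` or `sum_nbij'` with `m ↦ p m`), the summand is
`a m/(p m) ph t p ph t m` (`ph_mul`), and `a m = 0` for `N < m`, while `p m ≤ N'` for `m ≤ N`.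
So the sum over `m` is `(1/p) ph t p * dp (Icc 1 N) a t`.

PROOF of `dp_up_iter`: induction on `l` with `Function.iterate_succ_apply'`, using
`up_iter_support` for the vanishing beyond `B^l N`.

PROOF of `up_iter_support`: if `(up S)^[l] a n ≠ 0` then there are `p_1, .., p_l ∈ S` with product
dividing `n` and `a(n/∏ p_i) ≠ 0`; so `A^l Y ≤ n ≤ B^l N` (reals). Induction on `l`: for
`(up S)^[l+1] a n = up S ((up S)^[l] a) n ≠ 0` some `p ∈ S`, `p ∣ n` with
`(up S)^[l] a (n/p) ≠ 0`, and `n = p (n/p)`.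

PROOF of `norm_up_iter_le`: induction on `l`; norm of a sum `≤` sum of norms; monotonicity of `upR`.
-/

set_option autoImplicit false

namespace Pool.Agent.MOM

open Finset

theorem dp_up {S : Finset ℕ} (hS : ∀ p ∈ S, 0 < p) {a : ℕ → ℂ} {N N' : ℕ}
    (ha : ∀ n, N < n → a n = 0) (hN : ∀ p ∈ S, p * N ≤ N') (t : ℝ) :
    dp (Icc 1 N') (up S a) t = Pp S t * dp (Icc 1 N) a t := by
  have h1 : dp (Icc 1 N') (up S a) t =
      ∑ p ∈ S, ∑ n ∈ (Icc 1 N').filter (p ∣ ·), a (n / p) / (n : ℂ) * ph t n := by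
    unfold dp up
    simp only [Finset.sum_div, Finset.sum_mul, Finset.sum_filter]
    rw [Finset.sum_comm]
    refine Finset.sum_congr rfl fun p _ => Finset.sum_congr rfl fun n _ => ?_
    split_ifs
    · rfl
    · rw [zero_div, zero_mul]
  have h2 : ∀ p ∈ S, ∑ n ∈ (Icc 1 N').filter (p ∣ ·), a (n / p) / (n : ℂ) * ph t n =
      1 / (p : ℂ) * ph t p * dp (Icc 1 N) a t := by
    intro p hp
    have hp0 : 0 < p := hS p hp
    have h3 : (Icc 1 N).image (fun m => p * m) ⊆ (Icc 1 N').filter (p ∣ ·) := by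
      intro n hn
      obtain ⟨m, hm, rfl⟩ := Finset.mem_image.1 hn
      rw [Finset.mem_Icc] at hm
      rw [Finset.mem_filter, Finset.mem_Icc]
      refine ⟨⟨Nat.mul_pos hp0 hm.1, ?_⟩, dvd_mul_right _ _⟩
      exact (Nat.mul_le_mul_left p hm.2).trans (hN p hp)
    rw [← Finset.sum_subset h3]
    · rw [Finset.sum_image fun x _ y _ hxy => Nat.eq_of_mul_eq_mul_left hp0 hxy]
      unfold dp
      rw [Finset.mul_sum]
      refine Finset.sum_congr rfl fun m hm => ?_
      rw [Finset.mem_Icc] at hm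
      have hm0 : m ≠ 0 := by omega
      have e1 : (p : ℂ) ≠ 0 := by exact_mod_cast hp0.ne'
      have e2 : (m : ℂ) ≠ 0 := by exact_mod_cast hm0
      rw [Nat.mul_div_cancel_left m hp0, ph_mul hp0.ne' hm0, Nat.cast_mul]
      field_simp
    · intro n hn hn'
      rw [Finset.mem_filter, Finset.mem_Icc] at hn
      obtain ⟨⟨hn1, hn2⟩, m, rfl⟩ := hn
      have hm : N < m := by
        by_contra hle
        apply hn'
        refine Finset.mem_image.2 ⟨m, ?_, rfl⟩
        rw [Finset.mem_Icc]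
        refine ⟨?_, not_lt.1 hle⟩
        rcases Nat.eq_zero_or_pos m with h0 | h0
        · subst h0
          simp at hn1
        · exact h0
      rw [Nat.mul_div_cancel_left m hp0, ha m hm, zero_div, zero_mul]
  rw [h1, Finset.sum_congr rfl h2, ← Finset.sum_mul]
  rfl

theorem up_iter_support {S : Finset ℕ} {A B Y N : ℝ} (hA : 0 ≤ A) (hB : 0 ≤ B) (hY : 0 ≤ Y)
    (hS : ∀ p ∈ S, A ≤ p ∧ (p : ℝ) ≤ B) {a : ℕ → ℂ} (ha : ∀ n, a n ≠ 0 → Y ≤ n ∧ (n : ℝ) ≤ N)
    (l n : ℕ) (hn : (up S)^[l] a n ≠ 0) : A ^ l * Y ≤ n ∧ (n : ℝ) ≤ B ^ l * N := by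
  induction l generalizing n with
  | zero =>
    rw [pow_zero, one_mul, pow_zero, one_mul]
    exact ha n hn
  | succ l ih =>
    rw [Function.iterate_succ_apply'] at hn
    obtain ⟨p, hp, hpn⟩ := Finset.exists_ne_zero_of_sum_ne_zero hn
    rw [Finset.mem_filter] at hp
    obtain ⟨h1, h2⟩ := ih _ hpn
    obtain ⟨h3, h4⟩ := hS p hp.1
    have h5 : (n : ℝ) = p * ((n / p : ℕ) : ℝ) := by
      rw [← Nat.cast_mul, Nat.mul_div_cancel' hp.2]
    have h6 : (0 : ℝ) ≤ ((n / p : ℕ) : ℝ) := Nat.cast_nonneg _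
    rw [h5]
    generalize ((n / p : ℕ) : ℝ) = v at *
    constructor
    · calc A ^ (l + 1) * Y = A * (A ^ l * Y) := by ring
        _ ≤ A * v := mul_le_mul_of_nonneg_left h1 hA
        _ ≤ p * v := mul_le_mul_of_nonneg_right h3 h6
    · calc (p : ℝ) * v ≤ B * v := mul_le_mul_of_nonneg_right h4 h6
        _ ≤ B * (B ^ l * N) := mul_le_mul_of_nonneg_left h2 hB
        _ = B ^ (l + 1) * N := by ring

theorem dp_up_iter {S : Finset ℕ} {B : ℕ} (hS : ∀ p ∈ S, 0 < p ∧ p ≤ B) {a : ℕ → ℂ} {N : ℕ}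
    (ha : ∀ n, N < n → a n = 0) (l : ℕ) (t : ℝ) :
    dp (Icc 1 (B ^ l * N)) ((up S)^[l] a) t = Pp S t ^ l * dp (Icc 1 N) a t := by
  induction l with
  | zero => rw [pow_zero, one_mul, pow_zero, one_mul]; rfl
  | succ l ih =>
    rw [Function.iterate_succ_apply', dp_up (fun p hp => (hS p hp).1) (N := B ^ l * N), ih]
    · ring
    · intro n hn
      by_contra h0
      have h1 := up_iter_support (A := 0) (B := B) (Y := 0) (N := N) le_rfl (Nat.cast_nonneg _)
        le_rfl (fun p hp => ⟨Nat.cast_nonneg _, by exact_mod_cast (hS p hp).2⟩)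
        (fun n hn => ⟨Nat.cast_nonneg _, by
          by_contra h2
          exact hn (ha n (by exact_mod_cast not_le.1 h2))⟩) l n h0
      have h2 : n ≤ B ^ l * N := by exact_mod_cast h1.2
      omega
    · intro p hp
      calc p * (B ^ l * N) ≤ B * (B ^ l * N) := Nat.mul_le_mul_right _ (hS p hp).2
        _ = B ^ (l + 1) * N := by ring

theorem norm_up_iter_le (S : Finset ℕ) {a : ℕ → ℂ} {b : ℕ → ℝ} (h : ∀ n, ‖a n‖ ≤ b n) (l n : ℕ) :
    ‖(up S)^[l] a n‖ ≤ (upR S)^[l] b n := by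
  induction l generalizing n with
  | zero => exact h n
  | succ l ih =>
    rw [Function.iterate_succ_apply', Function.iterate_succ_apply']
    exact (norm_sum_le _ _).trans (Finset.sum_le_sum fun p _ => ih _)

theorem upR_iter_mono (S : Finset ℕ) {a b : ℕ → ℝ} (h : ∀ n, a n ≤ b n) (l n : ℕ) :
    (upR S)^[l] a n ≤ (upR S)^[l] b n := by
  induction l generalizing n with
  | zero => exact h n
  | succ l ih =>
    rw [Function.iterate_succ_apply', Function.iterate_succ_apply']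
    exact Finset.sum_le_sum fun p _ => ih _

theorem upR_iter_nonneg (S : Finset ℕ) {a : ℕ → ℝ} (h : ∀ n, 0 ≤ a n) (l n : ℕ) :
    0 ≤ (upR S)^[l] a n := by
  induction l generalizing n with
  | zero => exact h n
  | succ l ih =>
    rw [Function.iterate_succ_apply']
    exact Finset.sum_nonneg fun p _ => ih _

end Pool.Agent.MOM
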