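import Pool.Agent.MOM.Rec.MomA
import Pool.Agent.MOM.Rec.Up
import Pool.Agent.MOM.Rec.Comb
import Pool.Agent.MOM.NT.MVT

/-!
MOM, section 3: the moment lemma.

PROOF of `qs_dyadic`: the elements of `S` are distinct integers in `[P, 2P]`, so
`qs S ≤ ∑_{⌈P⌉ ≤ n ≤ ⌊2P⌋} 1/n ≤ 1/P + log(2P/P) ≤ 1/4 + log 2 < 1` (compare with `∫ dx/x`; e.g. by
`1/n ≤ log n - log(n-1)` for `n ≥ ⌈P⌉ + 1`). 

PROOF of `win_inv_sum`: for `M > 0`, `lam ≤ 2` and `d ≥ 1` the `m` with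
`M < d m ≤ lam M` are in `(M', 2M']`, `M' = M/d`. If `M' < 1` then only `m = 1` is possible
(`m ≤ 2M' < 2`) and the sum is `≤ 1`; if `M' ≥ 1` there are at most `M' + 1` of them, each
`1/m ≤ 1/M'`, total `≤ 1 + 1/M' ≤ 2`.

PROOF of `pow_mv`. Put `a n = b n` for `Y ≤ n ≤ N` (hypothesis: `b n = 0` otherwise), `B n = 1` for
`b n ≠ 0`... precisely: `‖b n‖ ≤ B n ≤ 1`. By `dp_up_iter` (with the natural number `⌊2P⌋₊` as bound
of `S`, `N0 = ⌊N⌋₊`) `Pp S t ^ l * dp (Icc 1 N0) b t = dp (Icc 1 K) c t`, `c = (up S)^[l] b`,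
`K = ⌊2P⌋₊^l N0 ≤ (2P)^l N`. By `mvt` its mean square over `[-T,T]` is
`≤ C (T + (2P)^l N) ∑_{n ≤ K} ‖c n‖²/n²` (if `K = 0` everything is `0`). By `norm_up_iter_le`
`‖c n‖ ≤ (upR S)^[l] B n` and `‖c n‖ ≤ (upR S)^[l] 1 n`; and `c n ≠ 0` implies `n ≥ P^l Y`
(`up_iter_support`). So `‖c n‖²/n² ≤ (P^l Y)⁻¹ (upR S)^[l] B n (upR S)^[l] 1 n/n`, and
`moment_comb` with `j = l` bounds the sum by `2 (l+1)^l`.

PROOF of `moment`. On `A`: `‖R‖² ≤ P^{2 al l} ‖Pp S t‖^{2l} ‖R‖²`. Use `pow_mv` for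
`b n` restricted to the window `win M (lam M)`, `B` its indicator function (`hB2` by
`win_inv_sum`), `Y = M`, `N = lam M`, `T = C1 X` (if `C1 X = 0` the integral is `0`; enlarge `T` to
`C1 X + 1`): `∫ ≤ P^{2 al l} C (C1 X + 1 + (2P)^l lam M)/(P^l M) 2 (l+1)^l`
`≤ P^{2 al l} C (C1 + 1 + 2^{l+1}) 2 (l+1)^l` because `P^l M ≥ X ≥ 1`.

THIS FILE: `pow_mv`.
-/

set_option autoImplicit false

namespace Pool.Agent.MOM

open Finset MeasureTheory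

theorem pow_mv : ∃ C : ℝ, 0 < C ∧ ∀ (P Y N T : ℝ) (S : Finset ℕ) (b : ℕ → ℂ) (B : ℕ → ℝ) (l : ℕ),
    4 ≤ P → 0 < Y → Y ≤ N → 0 < T → (∀ p ∈ S, p.Prime ∧ P ≤ p ∧ (p : ℝ) ≤ 2 * P) →
    (∀ n, ‖b n‖ ≤ B n) → (∀ n, B n ≤ 1) → (∀ n, b n ≠ 0 → Y ≤ n ∧ (n : ℝ) ≤ N) →
    (∀ d K : ℕ, 0 < d → ∑ m ∈ Ico 1 K, B (d * m) / m ≤ 2) →
    ∫ t in Set.Icc (-T) T, ‖Pp S t ^ l * dp (Icc 1 ⌊N⌋₊) b t‖ ^ 2 ≤
      C * (T + (2 * P) ^ l * N) / (P ^ l * Y) * ((l : ℝ) + 1) ^ l := by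
  obtain ⟨C0, hC0, hmvt⟩ := mvt
  refine ⟨2 * C0, by positivity, ?_⟩
  intro P Y N T S b B l hP hY hYN hT hS hb hB1 hbs hB2
  have hP0 : 0 < P := by linarith
  have hN : 0 < N := lt_of_lt_of_le hY hYN
  have hB0 : ∀ n, 0 ≤ B n := fun n => (norm_nonneg _).trans (hb n)
  have hbz : ∀ n, ⌊N⌋₊ < n → b n = 0 := by
    intro n hn
    by_contra h
    exact absurd (Nat.le_floor (hbs n h).2) (not_le.2 hn)
  have hSn : ∀ p ∈ S, 0 < p ∧ p ≤ ⌊2 * P⌋₊ := fun p hp =>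
    ⟨(hS p hp).1.pos, Nat.le_floor (hS p hp).2.2⟩
  have hdp := dp_up_iter hSn hbz l
  have hint : ∫ t in Set.Icc (-T) T, ‖Pp S t ^ l * dp (Icc 1 ⌊N⌋₊) b t‖ ^ 2 =
      ∫ t in Set.Icc (-T) T, ‖dp (Icc 1 (⌊2 * P⌋₊ ^ l * ⌊N⌋₊)) ((up S)^[l] b) t‖ ^ 2 := by
    congr 1
    funext t
    rw [hdp t]
  have hN' : 0 < (2 * P) ^ l * N := by positivity
  have hK : ∀ n ∈ Icc 1 (⌊2 * P⌋₊ ^ l * ⌊N⌋₊), 0 < n ∧ (n : ℝ) ≤ (2 * P) ^ l * N := by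
    intro n hn
    rw [Finset.mem_Icc] at hn
    refine ⟨hn.1, ?_⟩
    have h1 : (n : ℝ) ≤ ((⌊2 * P⌋₊ ^ l * ⌊N⌋₊ : ℕ) : ℝ) := by exact_mod_cast hn.2
    refine h1.trans ?_
    push_cast
    exact mul_le_mul (pow_le_pow_left₀ (by positivity) (Nat.floor_le (by positivity)) l)
      (Nat.floor_le hN.le) (by positivity) (by positivity)
  rw [hint]
  refine (hmvt _ _ _ T hT hN' hK).trans ?_
  have hPY : 0 < P ^ l * Y := by positivity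
  have hsum : ∑ n ∈ Icc 1 (⌊2 * P⌋₊ ^ l * ⌊N⌋₊), ‖(up S)^[l] b n‖ ^ 2 / (n : ℝ) ^ 2 ≤
      (P ^ l * Y)⁻¹ * (2 * ((l : ℝ) + 1) ^ l) := by
    have hq : qs S ≤ 1 := qs_dyadic hP fun p hp => (hS p hp).2
    have hcomb := moment_comb (fun p hp => (hS p hp).1) hq l l hB0 hB2
      (⌊2 * P⌋₊ ^ l * ⌊N⌋₊ + 1)
    have hterm : ∀ n ∈ Icc 1 (⌊2 * P⌋₊ ^ l * ⌊N⌋₊),
        ‖(up S)^[l] b n‖ ^ 2 / (n : ℝ) ^ 2 ≤
        (P ^ l * Y)⁻¹ * ((upR S)^[l] B n * (upR S)^[l] (fun _ => 1) n / n) := by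
      intro n hn
      rw [Finset.mem_Icc] at hn
      have hn0 : (0 : ℝ) < n := by exact_mod_cast hn.1
      have hU1 : 0 ≤ (upR S)^[l] B n := upR_iter_nonneg S hB0 l n
      have hU2 : 0 ≤ (upR S)^[l] (fun _ => (1 : ℝ)) n :=
        upR_iter_nonneg S (fun _ => zero_le_one) l n
      by_cases hc : (up S)^[l] b n = 0
      · rw [hc, norm_zero]
        have : (0 : ℝ) ^ 2 / (n : ℝ) ^ 2 = 0 := by simp
        rw [this]
        positivity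
      · have h1 : P ^ l * Y ≤ n :=
          (up_iter_support (A := P) (B := 2 * P) (Y := Y) (N := N) hP0.le (by positivity)
            hY.le (fun p hp => (hS p hp).2) hbs l n hc).1
        have h2 : ‖(up S)^[l] b n‖ ≤ (upR S)^[l] B n := norm_up_iter_le S hb l n
        have h3 : ‖(up S)^[l] b n‖ ≤ (upR S)^[l] (fun _ => (1 : ℝ)) n :=
          norm_up_iter_le S (fun m => (hb m).trans (hB1 m)) l n
        have h4 : ‖(up S)^[l] b n‖ ^ 2 ≤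
            (upR S)^[l] B n * (upR S)^[l] (fun _ => (1 : ℝ)) n := by
          rw [sq]
          exact mul_le_mul h2 h3 (norm_nonneg _) hU1
        calc ‖(up S)^[l] b n‖ ^ 2 / (n : ℝ) ^ 2
            ≤ (upR S)^[l] B n * (upR S)^[l] (fun _ => (1 : ℝ)) n / (n : ℝ) ^ 2 :=
              div_le_div_of_nonneg_right h4 (by positivity)
          _ = (n : ℝ)⁻¹ * ((upR S)^[l] B n * (upR S)^[l] (fun _ => 1) n / n) := by
              field_simp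
          _ ≤ (P ^ l * Y)⁻¹ * ((upR S)^[l] B n * (upR S)^[l] (fun _ => 1) n / n) := by
              refine mul_le_mul_of_nonneg_right ?_ (by positivity)
              exact inv_anti₀ hPY h1
    refine (Finset.sum_le_sum hterm).trans ?_
    rw [← Finset.mul_sum]
    refine mul_le_mul_of_nonneg_left ?_ (by positivity)
    have hI : Icc 1 (⌊2 * P⌋₊ ^ l * ⌊N⌋₊) = Ico 1 (⌊2 * P⌋₊ ^ l * ⌊N⌋₊ + 1) := by
      ext x
      rw [Finset.mem_Icc, Finset.mem_Ico]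
      omega
    rw [hI]
    exact hcomb
  refine (mul_le_mul_of_nonneg_left hsum (by positivity)).trans (le_of_eq ?_)
  field_simp

end Pool.Agent.MOM
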