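import Pool.Agent.MOM.Rec.Defs

/-!
MOM, section 3: numerical inequalities for the recursion step, part A.
`be = β ∈ (0, 1/128]`, `L = log P ≥ 1000/β²`, `H = stH be L = ⌈e^{βL/4}⌉`, `u₀ = st0 = ⌈H L/β⌉`,
`u₁ = st1 = ⌊H e^{βL}⌋`, `l = stl u = ⌈(u/H)/L⌉`. Put `w = u/H`. Note `β L ≥ 1000/β ≥ 128000`.

`num_H`: `H ≥ e^{βL/4} ≥ 2`, `H ≤ e^{βL/4} + 1 ≤ 2 e^{βL/4}`.
`num_LB`: `L/β ≤ 4 e^{βL/2}`: from `x ≤ e^x` with `x = βL/4`, `L ≤ (4/β) e^{βL/4}`, and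
`1/β² ≤ (βL/4)²/2 ≤ e^{βL/4}` because `βL/4 ≥ 250/β`.
`num_bounds`: `u₀ ≤ H L/β + 1 ≤ 2 H L/β`, `u₁ ≥ H e^{βL} - 1 ≥ H e^{βL}/2`, `u₀ < u₁`; for `u ≥ u₀`:
`w ≥ L/β`; for `u < u₁`: `(u+1)/H ≤ e^{βL}`.
`num_ratio`: `u₀/u₁ ≤ 4 (L/β) e^{-βL} ≤ 16 e^{-βL/2} ≤ 16 e^{-βL/4}`.
`num_l`: `l ≤ w/L + 1`, `w ≤ e^{βL}`, so `l + 1 ≤ e^{βL}/L + 2 ≤ e^{βL}` (`L ≥ 2`, `e^{βL} ≥ 4`).
`num_exp`: take logarithms. `log` of the left side is at most, with `l ≤ w/L + 1`,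
`l + 1 ≤ e^{βL}`, `log 2 ≤ 1`:
`-2(α+4β) w + 2αL(w/L + 1) + (w/L + 1) + (w/L + 1) βL
= -8βw + 2αL + w/L + 1 + βw + βL ≤ -6βw + L (2α + β) + 1` (`1/L ≤ β`)
`≤ -6L + L/2 + 1 ≤ -4L`.
`num_card`: `u₁² ≤ (2 e^{βL/4} e^{βL})² = 4 e^{5βL/2} ≤ e^L`.
`num_Xl`: `P^l e^{-w} ≥ 1`: `l L ≥ w`.

THIS FILE: `num_H` to `num_ratio`.
-/

set_option autoImplicit false

namespace Pool.Agent.MOM

open Finset Real

variable {be L : ℝ}

private theorem aux_y (h0 : 0 < be) (hL : 1000 / be ^ 2 ≤ L) :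
    250 / be ≤ be * L / 4 := by
  rw [div_le_iff₀ (by positivity)] at hL
  rw [div_le_iff₀ h0]
  nlinarith

private theorem aux_one (h0 : 0 < be) (h1 : be ≤ 1 / 128) (hL : 1000 / be ^ 2 ≤ L) :
    32000 ≤ be * L / 4 := by
  refine le_trans ?_ (aux_y h0 hL)
  rw [le_div_iff₀ h0]
  linarith

private theorem aux_LB1 (h0 : 0 < be) (h1 : be ≤ 1 / 128) (hL : 1000 / be ^ 2 ≤ L) :
    1 ≤ L / be := by
  have h2 := aux_one h0 h1 hL
  rw [le_div_iff₀ h0]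
  nlinarith

theorem num_H (h0 : 0 < be) (h1 : be ≤ 1 / 128) (hL : 1000 / be ^ 2 ≤ L) :
    2 ≤ stH be L ∧ exp (be * L / 4) ≤ stH be L ∧ (stH be L : ℝ) ≤ 2 * exp (be * L / 4) := by
  have h2 := aux_one h0 h1 hL
  have h3 := Real.add_one_le_exp (be * L / 4)
  have h4 : exp (be * L / 4) ≤ stH be L := Nat.le_ceil _
  have h5 : (stH be L : ℝ) < exp (be * L / 4) + 1 := Nat.ceil_lt_add_one (exp_pos _).le
  refine ⟨?_, h4, by linarith⟩
  have h6 : (2 : ℝ) ≤ (stH be L : ℝ) := by linarith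
  exact_mod_cast h6

theorem num_LB (h0 : 0 < be) (h1 : be ≤ 1 / 128) (hL : 1000 / be ^ 2 ≤ L) :
    L / be ≤ 4 * exp (be * L / 2) := by
  have h2 := aux_y h0 hL
  have h3 := aux_one h0 h1 hL
  set y := be * L / 4 with hy
  have h4 : L / be = 4 * (y * (1 / be ^ 2)) := by
    rw [hy]; field_simp
  have h5 : be * L / 2 = y + y := by rw [hy]; ring
  rw [h4, h5, Real.exp_add]
  have h6 : y ≤ exp y := by
    have := Real.add_one_le_exp y
    linarith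
  have h7 : 1 / be ^ 2 ≤ exp y := by
    have h8 := Real.quadratic_le_exp_of_nonneg (x := y) (by linarith)
    have h9 : 1 / be ≤ y := by
      refine le_trans ?_ h2
      exact div_le_div_of_nonneg_right (by norm_num) h0.le
    have h10 : 1 / be ^ 2 ≤ y ^ 2 / 2 := by
      have h11 : (250 / be) ^ 2 ≤ y ^ 2 := pow_le_pow_left₀ (by positivity) h2 2
      have h12 : (250 / be) ^ 2 = 62500 * (1 / be ^ 2) := by
        rw [div_pow]; ring
      have h13 : 0 ≤ 1 / be ^ 2 := by positivity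
      rw [h12] at h11
      linarith
    linarith
  have h8 : y * (1 / be ^ 2) ≤ exp y * exp y :=
    mul_le_mul h6 h7 (by positivity) (exp_pos _).le
  linarith

private theorem aux_E (h0 : 0 < be) (h1 : be ≤ 1 / 128) (hL : 1000 / be ^ 2 ≤ L) :
    exp (be * L) = exp (be * L / 2) * exp (be * L / 2) ∧ 64001 ≤ exp (be * L / 2) := by
  refine ⟨?_, ?_⟩
  · rw [← Real.exp_add]; congr 1; ring
  · have h2 := aux_one h0 h1 hL
    have h3 := Real.add_one_le_exp (be * L / 2)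
    linarith

theorem num_lt (h0 : 0 < be) (h1 : be ≤ 1 / 128) (hL : 1000 / be ^ 2 ≤ L) :
    st0 be L < st1 be L := by
  obtain ⟨hH, -, -⟩ := num_H h0 h1 hL
  have hH' : (2 : ℝ) ≤ (stH be L : ℝ) := by exact_mod_cast hH
  obtain ⟨hE, hE2⟩ := aux_E h0 h1 hL
  have hLB := num_LB h0 h1 hL
  have hLB1 := aux_LB1 h0 h1 hL
  have h2 : (st0 be L : ℝ) < (stH be L : ℝ) * (L / be) + 1 :=
    Nat.ceil_lt_add_one (by positivity)
  have h3 : (stH be L : ℝ) * exp (be * L) < (st1 be L : ℝ) + 1 := Nat.lt_floor_add_one _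
  have h4 : L / be + 1 ≤ exp (be * L) := by
    rw [hE]
    nlinarith
  have h5 : (stH be L : ℝ) * (L / be + 1) ≤ (stH be L : ℝ) * exp (be * L) :=
    mul_le_mul_of_nonneg_left h4 (by linarith)
  have h6 : (st0 be L : ℝ) < (st1 be L : ℝ) := by linarith
  exact_mod_cast h6

theorem num_low (h0 : 0 < be) (h1 : be ≤ 1 / 128) (hL : 1000 / be ^ 2 ≤ L) {u : ℕ}
    (hu : st0 be L ≤ u) : L / be ≤ (u : ℝ) / stH be L := by
  obtain ⟨hH, -, -⟩ := num_H h0 h1 hL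
  have hH' : (2 : ℝ) ≤ (stH be L : ℝ) := by exact_mod_cast hH
  rw [le_div_iff₀ (by linarith), mul_comm]
  exact Nat.ceil_le.mp hu

theorem num_upp (h0 : 0 < be) (h1 : be ≤ 1 / 128) (hL : 1000 / be ^ 2 ≤ L) {u : ℕ}
    (hu : u < st1 be L) : ((u : ℝ) + 1) / stH be L ≤ exp (be * L) := by
  obtain ⟨hH, -, -⟩ := num_H h0 h1 hL
  have hH' : (2 : ℝ) ≤ (stH be L : ℝ) := by exact_mod_cast hH
  rw [div_le_iff₀ (by linarith), mul_comm]
  have h2 : u + 1 ≤ st1 be L := hu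
  have h3 : ((u + 1 : ℕ) : ℝ) ≤ (st1 be L : ℝ) := by exact_mod_cast h2
  have h4 : (st1 be L : ℝ) ≤ (stH be L : ℝ) * exp (be * L) := Nat.floor_le (by positivity)
  push_cast at h3
  linarith

theorem num_upp1 (h0 : 0 < be) (h1 : be ≤ 1 / 128) (hL : 1000 / be ^ 2 ≤ L) :
    (st1 be L : ℝ) / stH be L ≤ exp (be * L) := by
  obtain ⟨hH, -, -⟩ := num_H h0 h1 hL
  have hH' : (2 : ℝ) ≤ (stH be L : ℝ) := by exact_mod_cast hH
  rw [div_le_iff₀ (by linarith), mul_comm]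
  exact Nat.floor_le (by positivity)

theorem num_ratio (h0 : 0 < be) (h1 : be ≤ 1 / 128) (hL : 1000 / be ^ 2 ≤ L) :
    (st0 be L : ℝ) / st1 be L ≤ 16 * exp (-(be * L / 4)) := by
  obtain ⟨hH, -, -⟩ := num_H h0 h1 hL
  have hH' : (2 : ℝ) ≤ (stH be L : ℝ) := by exact_mod_cast hH
  obtain ⟨hE, hE2⟩ := aux_E h0 h1 hL
  have hLB := num_LB h0 h1 hL
  have hLB1 := aux_LB1 h0 h1 hL
  have h2 : (st0 be L : ℝ) < (stH be L : ℝ) * (L / be) + 1 :=
    Nat.ceil_lt_add_one (by positivity)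
  have h3 : (stH be L : ℝ) * exp (be * L) < (st1 be L : ℝ) + 1 := Nat.lt_floor_add_one _
  set H : ℝ := (stH be L : ℝ) with hHd
  set E : ℝ := exp (be * L / 2) with hEd
  have h4 : 1 ≤ H * (L / be) := by nlinarith
  have h5 : (st0 be L : ℝ) ≤ 8 * (H * E) := by
    have : H * (L / be) ≤ H * (4 * E) := mul_le_mul_of_nonneg_left hLB (by linarith)
    linarith
  have h6 : H * (E * E) / 2 ≤ (st1 be L : ℝ) := by
    rw [hE] at h3
    have : 2 ≤ H * (E * E) := by nlinarith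
    linarith
  have h7 : exp (-(be * L / 4)) = exp (be * L / 4) / E := by
    rw [hEd, ← Real.exp_sub]; congr 1; ring
  have h8 : 1 ≤ exp (be * L / 4) := by
    have := Real.add_one_le_exp (be * L / 4)
    have := aux_one h0 h1 hL
    linarith
  have hHE : 0 < H * (E * E) / 2 := by positivity
  rw [h7]
  calc (st0 be L : ℝ) / st1 be L ≤ (8 * (H * E)) / (H * (E * E) / 2) :=
        div_le_div₀ (by positivity) h5 hHE h6
    _ = 16 * (1 / E) := by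
        have : H ≠ 0 := by linarith
        have : E ≠ 0 := by linarith
        field_simp
        norm_num
    _ ≤ 16 * (exp (be * L / 4) / E) := by
        refine mul_le_mul_of_nonneg_left ?_ (by norm_num)
        exact div_le_div_of_nonneg_right h8 (by linarith)

end Pool.Agent.MOM
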