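import Pool.Agent.MOM.Rec.NumA

/-!
MOM, section 3: numerical inequalities for the recursion, part B (the children). Notation of `NumA`,
`w = u/H`, `β' = β/2`.

`num_sum`: `∑_{u ≥ u₀} e^{-(β/8) u/H} ≤ r^{u₀}/(1-r)` with `r = e^{-β/(8H)}`; `r^{u₀} ≤ e^{-L/8}` as
`u₀/H ≥ L/β`; `1 - r ≥ β/(16H)` (`1 - e^{-x} ≥ x/2` for `0 ≤ x ≤ 1`), so the sum is at most
`e^{-L/8} 16 H/β ≤ 32 e^{-L/8 + βL/4}/β`. And `64/β ≤ e^{L/16} ≤ e^{L (1/8 - β/2)}` because
`L/16 ≥ 1000/(16 β²) ≥ 64/β`. So the sum is `≤ (1/2) e^{-βL/4}`.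
`num_child_H`: `H ≤ 2 e^{βL/4} ≤ e^{L/β} ≤ e^w`.
`num_child_L`: `w ≥ L/β ≥ 1000/β³ ≥ 4000/β² = 1000/(β/2)²`.
`num_child_P`: `2 e^L ≤ e^{L + 1} ≤ e^{128 L} ≤ e^{L/β} ≤ e^w`.
-/

set_option autoImplicit false

namespace Pool.Agent.MOM

open Finset Real

variable {be L : ℝ}

private theorem nb_pos (h0 : 0 < be) (hL : 1000 / be ^ 2 ≤ L) : 0 < L :=
  lt_of_lt_of_le (by positivity) hL

private theorem nb_bL (h0 : 0 < be) (h1 : be ≤ 1 / 128) (hL : 1000 / be ^ 2 ≤ L) :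
    128000 ≤ be * L := by
  have h2 : 0 < L := nb_pos h0 hL
  have h3 : 1000 ≤ L * be ^ 2 := (div_le_iff₀ (by positivity)).1 hL
  have h4 : 0 ≤ be * L := by positivity
  have h5 : (be * L) * be ≤ (be * L) * (1 / 128) := mul_le_mul_of_nonneg_left h1 h4
  have h6 : L * be ^ 2 = (be * L) * be := by ring
  linarith

private theorem nb_one (h0 : 0 < be) (h1 : be ≤ 1 / 128) (hL : 1000 / be ^ 2 ≤ L) : 1 ≤ L := by
  have h2 : 0 < L := nb_pos h0 hL
  have h3 := nb_bL h0 h1 hL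
  have h5 : be * L ≤ 1 / 128 * L := mul_le_mul_of_nonneg_right h1 h2.le
  linarith

private theorem nb_div (h0 : 0 < be) (h1 : be ≤ 1 / 128) (hL : 1000 / be ^ 2 ≤ L) :
    128 * L ≤ L / be := by
  have h2 : 0 < L := nb_pos h0 hL
  have h5 : be * L ≤ 1 / 128 * L := mul_le_mul_of_nonneg_right h1 h2.le
  rw [le_div_iff₀ h0]
  linarith

private theorem nb_two : (2 : ℝ) ≤ exp 1 := by
  have h := Real.add_one_le_exp (1 : ℝ)
  linarith

private theorem nb_low (h0 : 0 < be) (h1 : be ≤ 1 / 128) (hL : 1000 / be ^ 2 ≤ L) {u : ℕ}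
    (hu : st0 be L ≤ u) : 128 * L ≤ (u : ℝ) / stH be L :=
  (nb_div h0 h1 hL).trans (num_low h0 h1 hL hu)

private theorem nb_exp {x : ℝ} (h0 : 0 < x) (h1 : x ≤ 1) : x / 2 ≤ 1 - exp (-x) := by
  have h2 := Real.add_one_le_exp x
  have h3 : exp (-x) ≤ 1 / (1 + x) := by
    rw [Real.exp_neg, ← one_div]
    exact one_div_le_one_div_of_le (by linarith) (by linarith)
  have h4 : 1 / (1 + x) ≤ 1 - x / 2 := by
    rw [div_le_iff₀ (by linarith)]
    nlinarith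
  linarith

theorem num_sum (h0 : 0 < be) (h1 : be ≤ 1 / 128) (hL : 1000 / be ^ 2 ≤ L) :
    ∑ u ∈ Ico (st0 be L) (st1 be L), exp (-(be / 2 * ((u : ℝ) / stH be L) / 4)) ≤
      1 / 2 * exp (-(be * L / 4)) := by
  have hLp : 0 < L := nb_pos h0 hL
  obtain ⟨hH2, -, hHle⟩ := num_H h0 h1 hL
  have hHr : (2 : ℝ) ≤ (stH be L : ℝ) := by exact_mod_cast hH2
  have hHp : (0 : ℝ) < (stH be L : ℝ) := by linarith
  obtain ⟨H, hH⟩ : ∃ H : ℝ, H = (stH be L : ℝ) := ⟨_, rfl⟩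
  have hlow := num_low h0 h1 hL (u := st0 be L) le_rfl
  rw [← hH] at hHr hHp hHle hlow
  obtain ⟨x, hx⟩ : ∃ x : ℝ, x = be / (8 * H) := ⟨_, rfl⟩
  have hx0 : 0 < x := by
    rw [hx]
    positivity
  have hx1 : x ≤ 1 := by
    rw [hx, div_le_one (by positivity)]
    linarith
  have hterm : ∀ u : ℕ, exp (-(be / 2 * ((u : ℝ) / (stH be L : ℝ)) / 4)) = exp (-x) ^ u := by
    intro u
    rw [← Real.exp_nat_mul, hx, ← hH]
    congr 1
    field_simp
    ring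
  have hr1 : exp (-x) < 1 := by
    rw [Real.exp_lt_one_iff]
    linarith
  rw [Finset.sum_congr rfl fun u _ => hterm u]
  refine (geom_sum_Ico_le_of_lt_one (Real.exp_pos _).le hr1).trans ?_
  have h2 : x / 2 ≤ 1 - exp (-x) := nb_exp hx0 hx1
  have h3 : exp (-x) ^ (st0 be L) ≤ exp (-(L / 8)) := by
    rw [← Real.exp_nat_mul]
    apply Real.exp_le_exp.2
    have h4 : ((st0 be L : ℕ) : ℝ) * -x = -(be / 8 * ((st0 be L : ℕ) / H)) := by
      rw [hx]
      field_simp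
    rw [h4]
    have h5 : be / 8 * (L / be) ≤ be / 8 * ((st0 be L : ℕ) / H) :=
      mul_le_mul_of_nonneg_left hlow (by positivity)
    have h6 : be / 8 * (L / be) = L / 8 := by
      field_simp
    linarith
  have h7 : exp (-x) ^ (st0 be L) / (1 - exp (-x)) ≤ exp (-(L / 8)) / (x / 2) :=
    div_le_div₀ (Real.exp_pos _).le h3 (by linarith) h2
  refine h7.trans ?_
  have h8 : exp (-(L / 8)) / (x / 2) = 16 * exp (-(L / 8)) * H / be := by
    rw [hx]
    field_simp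
    ring
  rw [h8]
  have h9 : 16 * exp (-(L / 8)) * H / be ≤
      16 * exp (-(L / 8)) * (2 * exp (be * L / 4)) / be := by
    have h10 : 0 ≤ 16 * exp (-(L / 8)) := by positivity
    exact div_le_div_of_nonneg_right (mul_le_mul_of_nonneg_left hHle h10) h0.le
  refine h9.trans ?_
  have h11 : 64 / be ≤ exp (L / 8 - be * L / 2) := by
    have h12 := nb_bL h0 h1 hL
    have h13 : 64 / be ≤ L / 16 := by
      rw [div_le_iff₀ h0]
      linarith
    have h14 := Real.add_one_le_exp (L / 16)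
    have h15 : be * L ≤ 1 / 128 * L := mul_le_mul_of_nonneg_right h1 hLp.le
    have h16 : exp (L / 16) ≤ exp (L / 8 - be * L / 2) := Real.exp_le_exp.2 (by linarith)
    linarith
  have h17 : exp (L / 8 - be * L / 2) =
      exp (-(be * L / 4)) / (exp (-(L / 8)) * exp (be * L / 4)) := by
    rw [← Real.exp_add, ← Real.exp_sub]
    congr 1
    ring
  rw [h17, le_div_iff₀ (by positivity)] at h11
  have h18 : 16 * exp (-(L / 8)) * (2 * exp (be * L / 4)) / be =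
      1 / 2 * (64 / be * (exp (-(L / 8)) * exp (be * L / 4))) := by
    ring
  rw [h18]
  linarith

theorem num_child_H (h0 : 0 < be) (h1 : be ≤ 1 / 128) (hL : 1000 / be ^ 2 ≤ L) {u : ℕ}
    (hu : st0 be L ≤ u) : (stH be L : ℝ) ≤ exp ((u : ℝ) / stH be L) := by
  have hLp : 0 < L := nb_pos h0 hL
  have hL1 := nb_one h0 h1 hL
  have h2 := (num_H h0 h1 hL).2.2
  have h3 := nb_low h0 h1 hL hu
  have h5 : be * L ≤ 1 / 128 * L := mul_le_mul_of_nonneg_right h1 hLp.le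
  have h6 : 2 * exp (be * L / 4) ≤ exp 1 * exp (be * L / 4) :=
    mul_le_mul_of_nonneg_right nb_two (Real.exp_pos _).le
  rw [← Real.exp_add] at h6
  exact h2.trans (h6.trans (Real.exp_le_exp.2 (by linarith)))

theorem num_child_L (h0 : 0 < be) (h1 : be ≤ 1 / 128) (hL : 1000 / be ^ 2 ≤ L) {u : ℕ}
    (hu : st0 be L ≤ u) : 1000 / (be / 2) ^ 2 ≤ (u : ℝ) / stH be L := by
  have hLp : 0 < L := nb_pos h0 hL
  have h3 := nb_low h0 h1 hL hu
  have h4 : 1000 / (be / 2) ^ 2 = 4 * (1000 / be ^ 2) := by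
    field_simp
    ring
  rw [h4]
  linarith

theorem num_child_P (h0 : 0 < be) (h1 : be ≤ 1 / 128) (hL : 1000 / be ^ 2 ≤ L) {u : ℕ}
    (hu : st0 be L ≤ u) : 2 * exp L ≤ exp ((u : ℝ) / stH be L) := by
  have hL1 := nb_one h0 h1 hL
  have h3 := nb_low h0 h1 hL hu
  have h6 : 2 * exp L ≤ exp 1 * exp L :=
    mul_le_mul_of_nonneg_right nb_two (Real.exp_pos _).le
  rw [← Real.exp_add] at h6
  exact h6.trans (Real.exp_le_exp.2 (by linarith))

end Pool.Agent.MOM
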