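import Pool.Agent.MOM.Rec.NumA

/-!
MOM, section 3: numerical inequalities for the recursion step, part A.
`be = β ∈ (0, 1/128]`, `L = log P ≥ 1000/β²`, `H = stH be L = ⌈e^{βL/4}⌉`, `u₀ = st0 = ⌈H L/β⌉`,
`u₁ = st1 = ⌊H e^{βL}⌋`, `l = stl u = ⌈(u/H)/L⌉`. Put `w = u/H`. Note `β L ≥ 1000/β ≥ 128000`.

`num_H`: `H ≥ e^{βL/4} ≥ 2`, `H ≤ e^{βL/4} + 1 ≤ 2 e^{βL/4}`.
`num_LB`: `L/β ≤ 4 e^{βL/2}`: from `x ≤ e^x` with `x = βL/4`, `L ≤ (4/β) e^{βL/4}`, and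
`1/β² ≤ (βL/4)²/2 ≤ e^{βL/4}` because `βL/4 ≥ 250/β`.
`num_bounds`: `u₀ ≤ H L/β + 1 ≤ 2 H L/β`, `u₁ ≥ H e^{βL} - 1 ≥ H e^{βL}/2`, `u₀ < u₁`; for `u ≥ u₀`:
`w ≥ L/β`; for `u < u₁`: `(u+1)/H ≤ e^{βL}`.
`num_ratio`: `u₀/u₁ ≤ 4 (L/β) e^{-βL} ≤ 16 e^{-βL/2} ≤ 16 e^{-βL/4}`.
`num_l`: `l ≤ w/L + 1`, `w ≤ e^{βL}`, so `l + 1 ≤ e^{βL}/L + 2 ≤ e^{βL}` (`L ≥ 2`, `e^{βL} ≥ 4`).
`num_exp`: take logarithms. `log` of the left side is at most, with `l ≤ w/L + 1`,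
`l + 1 ≤ e^{βL}`, `log 2 ≤ 1`:
`-2(α+4β) w + 2αL(w/L + 1) + (w/L + 1) + (w/L + 1) βL
= -8βw + 2αL + w/L + 1 + βw + βL ≤ -6βw + L (2α + β) + 1` (`1/L ≤ β`)
`≤ -6L + L/2 + 1 ≤ -4L`.
`num_card`: `u₁² ≤ (2 e^{βL/4} e^{βL})² = 4 e^{5βL/2} ≤ e^L`.
`num_Xl`: `P^l e^{-w} ≥ 1`: `l L ≥ w`.

THIS FILE: `num_l` to `num_Xl`.
-/

set_option autoImplicit false

namespace Pool.Agent.MOM

open Finset Real

variable {be L : ℝ}

private theorem basic (h0 : 0 < be) (h1 : be ≤ 1 / 128) (hL : 1000 / be ^ 2 ≤ L) :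
    1000 ≤ L ∧ 1000 ≤ be * L := by
  have hb2 : 0 < be ^ 2 := by positivity
  have h2 : 1000 ≤ L * be ^ 2 := by rwa [div_le_iff₀ hb2] at hL
  have hLp : 0 < L := by
    by_contra h
    have h3 : L ≤ 0 := not_lt.1 h
    nlinarith
  have h4 : be ^ 2 ≤ be := by nlinarith
  have h5 : be ≤ 1 := by linarith
  have h6 : 1000 ≤ be * L := by nlinarith
  refine ⟨?_, h6⟩
  nlinarith

private theorem stl_le (hL : 0 < L) (u : ℕ) :
    (stl be L u : ℝ) ≤ ((u : ℝ) / stH be L) / L + 1 := by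
  unfold stl
  exact (Nat.ceil_lt_add_one (by positivity)).le

theorem num_l (h0 : 0 < be) (h1 : be ≤ 1 / 128) (hL : 1000 / be ^ 2 ≤ L) {u : ℕ}
    (hu : u < st1 be L) : (stl be L u : ℝ) + 1 ≤ exp (be * L) := by
  obtain ⟨hL1, hbL⟩ := basic h0 h1 hL
  have hLp : 0 < L := by linarith
  have hl := stl_le (be := be) hLp u
  have hw := num_upp h0 h1 hL hu
  have hH : (0 : ℝ) ≤ stH be L := by positivity
  have hw2 : (u : ℝ) / stH be L ≤ exp (be * L) :=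
    (div_le_div_of_nonneg_right (by linarith) hH).trans hw
  have hE : be * L + 1 ≤ exp (be * L) := add_one_le_exp _
  have hw3 : ((u : ℝ) / stH be L) / L ≤ exp (be * L) / 2 :=
    div_le_div₀ (by positivity) hw2 (by norm_num) (by linarith)
  linarith

theorem num_exp (h0 : 0 < be) (h1 : be ≤ 1 / 128) (hL : 1000 / be ^ 2 ≤ L) {al : ℝ}
    (ha : 0 ≤ al) (ha1 : al ≤ 1 / 8) {u : ℕ} (hu0 : st0 be L ≤ u) (hu : u < st1 be L) :
    exp (-(2 * (al + 4 * be) * ((u : ℝ) / stH be L))) *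
      (exp L ^ (2 * al * (stl be L u : ℝ)) * 2 ^ (stl be L u) *
        ((stl be L u : ℝ) + 1) ^ (stl be L u)) ≤ exp (-(4 * L)) := by
  obtain ⟨hL1, hbL⟩ := basic h0 h1 hL
  have hLp : 0 < L := by linarith
  have hl := stl_le (be := be) hLp u
  have hl1 := num_l h0 h1 hL hu
  have hw := num_low h0 h1 hL hu0
  have hl0 : (0 : ℝ) ≤ stl be L u := by positivity
  set w : ℝ := (u : ℝ) / stH be L with hwdef
  set l : ℕ := stl be L u with hldef
  have e1 : exp L ^ (2 * al * (l : ℝ)) = exp (L * (2 * al * l)) := (exp_mul _ _).symm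
  have e2 : (2 : ℝ) ^ l ≤ exp l := by
    have h2 : (2 : ℝ) ≤ exp 1 := by
      have := add_one_le_exp (1 : ℝ)
      linarith
    have h3 := pow_le_pow_left₀ (by norm_num : (0 : ℝ) ≤ 2) h2 l
    rwa [← exp_nat_mul, mul_one] at h3
  have e3 : ((l : ℝ) + 1) ^ l ≤ exp (l * (be * L)) := by
    have h3 := pow_le_pow_left₀ (by positivity : (0 : ℝ) ≤ (l : ℝ) + 1) hl1 l
    rwa [← exp_nat_mul] at h3
  have hbw : L ≤ be * w := by
    rw [div_le_iff₀ h0] at hw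
    linarith
  have hwp : 0 ≤ w := by
    by_contra h
    have : w ≤ 0 := (not_le.1 h).le
    nlinarith
  have hwL : w / L ≤ be * w := by
    rw [div_le_iff₀ hLp]
    nlinarith
  have hlw : (l : ℝ) ≤ w / L + 1 := hl
  have hLw : (l : ℝ) * L ≤ w + L := by
    have h3 := mul_le_mul_of_nonneg_right hlw hLp.le
    have h4 : (w / L + 1) * L = w + L := by field_simp
    linarith
  calc exp (-(2 * (al + 4 * be) * w)) *
      (exp L ^ (2 * al * (l : ℝ)) * 2 ^ l * ((l : ℝ) + 1) ^ l)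
      ≤ exp (-(2 * (al + 4 * be) * w)) *
        (exp (L * (2 * al * l)) * exp l * exp (l * (be * L))) := by
        rw [e1]
        gcongr
    _ = exp (-(2 * (al + 4 * be) * w) + (L * (2 * al * l) + l + l * (be * L))) := by
        rw [exp_add, exp_add, exp_add]
    _ ≤ exp (-(4 * L)) := by
        apply exp_le_exp.2
        have h5 : L * (2 * al * l) ≤ 2 * al * (w + L) := by
          have := mul_le_mul_of_nonneg_left hLw (by positivity : 0 ≤ 2 * al)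
          nlinarith
        have h6 : (l : ℝ) * (be * L) ≤ be * (w + L) := by
          have := mul_le_mul_of_nonneg_left hLw h0.le
          nlinarith
        have h7 : 2 * al * L ≤ L / 4 := by nlinarith
        have h8 : be * L ≤ L / 128 := by nlinarith
        nlinarith

theorem num_card (h0 : 0 < be) (h1 : be ≤ 1 / 128) (hL : 1000 / be ^ 2 ≤ L) :
    (st1 be L : ℝ) ^ 2 ≤ exp L := by
  obtain ⟨hL1, hbL⟩ := basic h0 h1 hL
  have hLp : 0 < L := by linarith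
  obtain ⟨-, -, hH⟩ := num_H h0 h1 hL
  have h3 : (st1 be L : ℝ) ≤ (stH be L : ℝ) * exp (be * L) := by
    unfold st1
    exact Nat.floor_le (by positivity)
  have h4 : (st1 be L : ℝ) ≤ 2 * exp (be * L / 4) * exp (be * L) :=
    h3.trans (mul_le_mul_of_nonneg_right hH (exp_pos _).le)
  have h5 : (2 : ℝ) ≤ exp 1 := by
    have := add_one_le_exp (1 : ℝ)
    linarith
  have h6 : (st1 be L : ℝ) ≤ exp (1 + be * L / 4 + be * L) := by
    rw [exp_add, exp_add]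
    refine h4.trans ?_
    gcongr
  calc (st1 be L : ℝ) ^ 2 ≤ exp (1 + be * L / 4 + be * L) ^ 2 :=
        pow_le_pow_left₀ (by positivity) h6 2
    _ = exp (((2 : ℕ) : ℝ) * (1 + be * L / 4 + be * L)) := (exp_nat_mul _ _).symm
    _ ≤ exp L := by
        apply exp_le_exp.2
        have h8 : be * L ≤ L / 128 := by nlinarith
        push_cast
        linarith

theorem num_Xl (h0 : 0 < be) (h1 : be ≤ 1 / 128) (hL : 1000 / be ^ 2 ≤ L) (u : ℕ) {X : ℝ}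
    (hX : 0 ≤ X) : X ≤ exp L ^ (stl be L u) * Mu X (stH be L) u := by
  obtain ⟨hL1, hbL⟩ := basic h0 h1 hL
  have hLp : 0 < L := by linarith
  have h3 : ((u : ℝ) / stH be L) / L ≤ stl be L u := by
    unfold stl
    exact Nat.le_ceil _
  rw [div_le_iff₀ hLp] at h3
  unfold Mu
  rw [← exp_nat_mul]
  have h4 : exp ((stl be L u : ℝ) * L) * (X * exp (-((u : ℝ) / stH be L))) =
      X * exp ((stl be L u : ℝ) * L + -((u : ℝ) / stH be L)) := by
    rw [exp_add]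
    ring
  rw [h4]
  have h5 : 1 ≤ exp ((stl be L u : ℝ) * L + -((u : ℝ) / stH be L)) :=
    one_le_exp (by linarith)
  nlinarith

end Pool.Agent.MOM
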