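import Pool.Agent.MOM.Rec.Up
import Pool.Agent.MOM.Rec.Cells

/-!
MOM, section 3: Ramaré's identity, part 1: the error term as one Dirichlet polynomial; cells.

PROOF of `EE_eq`. `MX lam X t = dp (win X (lam X)) mu t = dp (Icc 1 N) (fun n => if n ∈ win X
  (lam X)
then mu n else 0) t` (the window is contained in `[1, N]` since `X ≥ 0`, `N ≥ lam X`). For every
  `u`:
by `dp_up` with `a m = if m ∈ win (Mu ..) (lam Mu ..) then bq .. else 0`, `N_u = ⌊lam Mu⌋₊`, and
`p * N_u ≤ N` for `p ∈ cell H u` because `p < exp((u+1)/H)` and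
`exp((u+1)/H) * lam * X * exp(-u/H) = lam X exp(1/H) ≤ N`; and
`dp (Icc 1 N_u) a t = Ru lam X H u0 u1 u t`. Sums of `dp` over the same set are `dp` of the sum
(`dp` is additive in the coefficients).

PROOF of `cell_disj`: for `u < v` the elements of `cell H u` are `< exp((u+1)/H) ≤ exp(v/H)`.

PROOF of `QQ_eq`: a prime `p` with `exp(u0/H) ≤ p < exp(u1/H)` lies in the cell
`u = ⌊H log p⌋₊`; conversely monotonicity of `exp`.

THIS FILE: `EE_eq`.
-/

set_option autoImplicit false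

namespace Pool.Agent.MOM

open Finset

private theorem ramA_win {x y : ℝ} {N : ℕ} (hN : ⌊y⌋₊ ≤ N) (b : ℕ → ℂ) (t : ℝ) :
    dp (win x y) b t = dp (Icc 1 N) (fun n => if n ∈ win x y then b n else 0) t := by
  have hsub : win x y ⊆ Icc 1 N := by
    intro n hn
    unfold win at hn
    rw [Finset.mem_Ioc] at hn
    rw [Finset.mem_Icc]
    omega
  unfold dp
  rw [← Finset.sum_subset hsub]
  · refine Finset.sum_congr rfl fun n hn => ?_
    simp only [if_pos hn]
  · intro n _ hn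
    simp only [if_neg hn, zero_div, zero_mul]

private theorem ramA_add (S : Finset ℕ) (a b : ℕ → ℂ) (t : ℝ) :
    dp S (fun n => a n + b n) t = dp S a t + dp S b t := by
  unfold dp
  rw [← Finset.sum_add_distrib]
  refine Finset.sum_congr rfl fun n _ => ?_
  rw [add_div, add_mul]

private theorem ramA_sum (S T : Finset ℕ) (a : ℕ → ℕ → ℂ) (t : ℝ) :
    dp S (fun n => ∑ u ∈ T, a u n) t = ∑ u ∈ T, dp S (a u) t := by
  unfold dp
  rw [Finset.sum_comm]
  refine Finset.sum_congr rfl fun n _ => ?_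
  rw [Finset.sum_div, Finset.sum_mul]

theorem EE_eq {lam X : ℝ} (hl : 0 ≤ lam) (hX : 0 ≤ X) {H : ℕ} (hH : 1 ≤ H) (u0 u1 : ℕ) {N : ℕ}
    (hN : lam * X * Real.exp (1 / H) ≤ N) (hN2 : lam * X ≤ N) (t : ℝ) :
    EE lam X H u0 u1 t = dp (Icc 1 N) (ecf lam X H u0 u1) t := by
  have h0 : dp (Icc 1 N) (ecf lam X H u0 u1) t =
      dp (Icc 1 N) (fun n => if n ∈ win X (lam * X) then mu n else 0) t +
        ∑ u ∈ Finset.Ico u0 u1, dp (Icc 1 N) (up (cell H u)
          (fun m => if m ∈ win (Mu X H u) (lam * Mu X H u) then bq (QQ H u0 u1) m else 0)) t := by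
    rw [← ramA_sum, ← ramA_add]
    rfl
  rw [h0, ← ramA_win (Nat.floor_le_of_le hN2)]
  unfold EE MX
  congr 1
  refine Finset.sum_congr rfl fun u _ => ?_
  have hM0 : 0 ≤ Mu X H u := mul_nonneg hX (Real.exp_pos _).le
  have hy0 : 0 ≤ lam * Mu X H u := mul_nonneg hl hM0
  have h1 : Ru lam X H u0 u1 u t = dp (Icc 1 ⌊lam * Mu X H u⌋₊)
      (fun m => if m ∈ win (Mu X H u) (lam * Mu X H u) then bq (QQ H u0 u1) m else 0) t :=
    ramA_win le_rfl _ t
  rw [h1]
  refine (dp_up ?_ ?_ ?_ t).symm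
  · intro p hp
    exact (mem_cell.1 hp).2.pos
  · intro n hn
    refine if_neg fun hm => ?_
    unfold win at hm
    rw [Finset.mem_Ioc] at hm
    omega
  · intro p hp
    obtain ⟨⟨-, h3⟩, -⟩ := mem_cell.1 hp
    have h4 : ((⌊lam * Mu X H u⌋₊ : ℕ) : ℝ) ≤ lam * Mu X H u := Nat.floor_le hy0
    have h5 : (p : ℝ) * ((⌊lam * Mu X H u⌋₊ : ℕ) : ℝ) ≤
        Real.exp (((u : ℝ) + 1) / H) * (lam * Mu X H u) :=
      mul_le_mul h3.le h4 (Nat.cast_nonneg _) (Real.exp_pos _).le
    have h6 : Real.exp (((u : ℝ) + 1) / H) * (lam * Mu X H u) =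
        lam * X * Real.exp (1 / H) := by
      unfold Mu
      have h7 : Real.exp (((u : ℝ) + 1) / H) * Real.exp (-((u : ℝ) / H)) =
          Real.exp (1 / H) := by
        rw [← Real.exp_add]
        congr 1
        rw [add_div]
        ring
      rw [← h7]
      ring
    have h8 : ((p * ⌊lam * Mu X H u⌋₊ : ℕ) : ℝ) ≤ (N : ℝ) := by
      rw [Nat.cast_mul]
      linarith
    exact_mod_cast h8

end Pool.Agent.MOM
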