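import Pool.Agent.MOM.Rec.RamB1

/-!
MOM, section 3: Ramaré's identity, part 2: the coefficients `ecf`. `Q = QQ H u0 u1`, `H ≥ 1`, `X > 0`.

PROOF. The second part of `ecf n` is `∑_u ∑_{p ∈ cell H u, p ∣ n, M_u < n/p ≤ lam M_u} b_Q(n/p)`.
`om_div`: for `p ∣ n`, `n > 0`: every prime of `Q` dividing `n` other than `p` divides `n/p`
(`p` prime), so `ω_Q(n) ≤ ω_Q(n/p) + 1`; equality if moreover `p ∈ Q` and not `p² ∣ n`.
`ecf_support`: a nonzero `ecf n` has `X < n ≤ lam X` or a term `u, p`, with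
`n = p (n/p) > exp(u/H) M_u = X` (`≥` for `p`, `>` for `n/p`) and
`n < exp((u+1)/H) lam M_u = lam X exp(1/H)`.
`norm_second_le`: the norm of the second part is at most `∑_{p ∈ Q, p ∣ n} 1/(ω_Q(n/p) + 1)
≤ ∑_{p ∈ Q, p ∣ n} 1/ω_Q(n) = 1` or it is `0` if there is no such `p` (use `norm_bq_le`, `sum_QQ`;
for `n = 0` use `ecf_support`).
`ecf_le_two`: `‖μ‖ ≤ 1` plus `norm_second_le`.
`ecf_main`: let `X exp(1/H) < n ≤ lam X`. For `p ∈ cell H u`, `p ∣ n`, the window condition holds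
automatically: `n/p > X exp(1/H) / exp((u+1)/H) = M_u` and `n/p ≤ lam X / exp(u/H) = lam M_u`. So
`ecf n = μ(n) + ∑_{p ∈ Q, p ∣ n} b_Q(n/p)`. If `ω_Q(n) = 0` this is `μ(n)`. If some `p² ∣ n`, `p ∈ Q`,
then `μ(n) = 0` and `norm_second_le` gives `≤ 1`. Otherwise every `p ∈ Q`, `p ∣ n` has
`μ(n/p) = -μ(n)` (`n = p (n/p)` with coprime factors) and `ω_Q(n/p) + 1 = ω_Q(n)`, so the sum is
`-μ(n) ω_Q(n)/ω_Q(n)` and `ecf n = 0`.

THIS FILE: `ecf_main`.
-/

set_option autoImplicit false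

namespace Pool.Agent.MOM

open Finset

private theorem ramB_exp {H : ℕ} (u : ℕ) :
    Real.exp (-((u : ℝ) / H)) * Real.exp (((u : ℝ) + 1) / H) = Real.exp (1 / H) := by
  rw [← Real.exp_add]
  congr 1
  ring

private theorem ramB_exp' {H : ℕ} (u : ℕ) :
    Real.exp (-((u : ℝ) / H)) * Real.exp ((u : ℝ) / H) = 1 := by
  rw [← Real.exp_add, neg_add_cancel, Real.exp_zero]

private theorem ramB_win {lam X : ℝ} (hX : 0 < X) {H : ℕ} {u n p : ℕ}
    (h1 : X * Real.exp (1 / H) < n) (h2 : (n : ℝ) ≤ lam * X) (hp : p ∈ cell H u) (hpn : p ∣ n) :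
    n / p ∈ win (Mu X H u) (lam * Mu X H u) := by
  rw [mem_cell] at hp
  obtain ⟨⟨hp1, hp2⟩, hpp⟩ := hp
  have hp0 : (0 : ℝ) < p := by exact_mod_cast hpp.pos
  have hE : 0 < Real.exp (-((u : ℝ) / H)) := Real.exp_pos _
  have hM : 0 < Mu X H u := mul_pos hX hE
  have hn0 : (0 : ℝ) < n := lt_trans (mul_pos hX (Real.exp_pos _)) h1
  have hl : 0 < lam := by
    by_contra h
    push Not at h
    have : lam * X ≤ 0 := mul_nonpos_of_nonpos_of_nonneg h hX.le
    linarith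
  rw [mem_win hM.le, Nat.cast_div hpn hp0.ne']
  constructor
  · rw [lt_div_iff₀ hp0]
    refine lt_of_lt_of_le ?_ h1.le
    have h3 : Mu X H u * p < Mu X H u * Real.exp (((u : ℝ) + 1) / H) :=
      mul_lt_mul_of_pos_left hp2 hM
    have h4 : Mu X H u * Real.exp (((u : ℝ) + 1) / H) = X * Real.exp (1 / H) := by
      unfold Mu
      rw [mul_assoc, ramB_exp]
    linarith
  · rw [div_le_iff₀ hp0]
    refine h2.trans ?_
    have h3 : lam * Mu X H u * Real.exp ((u : ℝ) / H) ≤ lam * Mu X H u * p :=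
      mul_le_mul_of_nonneg_left hp1 (mul_pos hl hM).le
    have h4 : lam * Mu X H u * Real.exp ((u : ℝ) / H) = lam * X := by
      unfold Mu
      rw [mul_assoc, mul_assoc, ramB_exp', mul_one]
    linarith

private theorem ramB_second {lam X : ℝ} (hX : 0 < X) {H : ℕ} (hH : 1 ≤ H) (u0 u1 n : ℕ)
    (h1 : X * Real.exp (1 / H) < n) (h2 : (n : ℝ) ≤ lam * X) :
    ∑ u ∈ Finset.Ico u0 u1, up (cell H u)
      (fun m => if m ∈ win (Mu X H u) (lam * Mu X H u) then bq (QQ H u0 u1) m else 0) n =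
      ∑ p ∈ (QQ H u0 u1).filter (· ∣ n), bq (QQ H u0 u1) (n / p) := by
  have h3 : ∀ u ∈ Finset.Ico u0 u1, up (cell H u)
      (fun m => if m ∈ win (Mu X H u) (lam * Mu X H u) then bq (QQ H u0 u1) m else 0) n =
      ∑ p ∈ cell H u, if p ∣ n then bq (QQ H u0 u1) (n / p) else 0 := by
    intro u _
    unfold up
    rw [Finset.sum_filter]
    refine Finset.sum_congr rfl fun p hp => ?_
    by_cases hpn : p ∣ n
    · rw [if_pos hpn, if_pos hpn]
      exact if_pos (ramB_win hX h1 h2 hp hpn)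
    · rw [if_neg hpn, if_neg hpn]
  rw [Finset.sum_congr rfl h3, Finset.sum_filter]
  conv_rhs => rw [QQ]
  rw [Finset.sum_biUnion]
  · rfl
  · intro u _ v _ huv
    exact cell_disj hH huv

private theorem ramB_mu {n p : ℕ} (hp : p.Prime) (hpn : p ∣ n) (hp2 : ¬ p ^ 2 ∣ n) :
    mu (n / p) = -mu n := by
  obtain ⟨m, rfl⟩ := hpn
  have hm : ¬ p ∣ m := by
    intro h
    apply hp2
    rw [pow_two]
    exact Nat.mul_dvd_mul_left p h
  have hc : Nat.Coprime p m := (Nat.Prime.coprime_iff_not_dvd hp).2 hm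
  rw [Nat.mul_div_cancel_left m hp.pos]
  unfold mu
  rw [ArithmeticFunction.isMultiplicative_moebius.map_mul_of_coprime hc,
    ArithmeticFunction.moebius_apply_prime hp]
  push_cast
  ring

private theorem ramB_prime {H u0 u1 p : ℕ} (hp : p ∈ QQ H u0 u1) : p.Prime := by
  obtain ⟨u, -, -, h⟩ := mem_QQ.1 hp
  exact (mem_cell.1 h).2

theorem ecf_main {lam X : ℝ} (hX : 0 < X) {H : ℕ} (hH : 1 ≤ H) (u0 u1 n : ℕ)
    (h1 : X * Real.exp (1 / H) < n) (h2 : (n : ℝ) ≤ lam * X) :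
    ‖ecf lam X H u0 u1 n‖ ≤ 1 ∧ (ecf lam X H u0 u1 n ≠ 0 → om (QQ H u0 u1) n = 0 ∨
      ∃ p ∈ QQ H u0 u1, p ^ 2 ∣ n) := by
  have hS := ramB_second hX hH u0 u1 n h1 h2
  have hN := norm_second_le (lam := lam) hX hH u0 u1 n
  have hwin : n ∈ win X (lam * X) := by
    rw [mem_win hX.le]
    refine ⟨?_, h2⟩
    have h3 : (1 : ℝ) ≤ Real.exp (1 / H) := Real.one_le_exp (by positivity)
    nlinarith
  have hn0 : (0 : ℝ) < n := lt_trans (mul_pos hX (Real.exp_pos _)) h1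
  have hn : 0 < n := by exact_mod_cast hn0
  have hE : ecf lam X H u0 u1 n = mu n +
      ∑ p ∈ (QQ H u0 u1).filter (· ∣ n), bq (QQ H u0 u1) (n / p) := by
    unfold ecf
    rw [if_pos hwin, hS]
  rw [hS] at hN
  by_cases c1 : om (QQ H u0 u1) n = 0
  · refine ⟨?_, fun _ => Or.inl c1⟩
    have h3 : (QQ H u0 u1).filter (· ∣ n) = ∅ := Finset.card_eq_zero.1 c1
    rw [hE, h3, Finset.sum_empty, add_zero]
    exact norm_mu_le n
  by_cases c2 : ∃ p ∈ QQ H u0 u1, p ^ 2 ∣ n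
  · refine ⟨?_, fun _ => Or.inr c2⟩
    obtain ⟨p, hp, hp2⟩ := c2
    have h3 : mu n = 0 := by
      unfold mu
      have h4 : ¬ Squarefree n := by
        intro h5
        have h6 := h5 p (by rw [← pow_two]; exact hp2)
        exact (ramB_prime hp).one_lt.ne' (Nat.isUnit_iff.1 h6)
      rw [ArithmeticFunction.moebius_eq_zero_of_not_squarefree h4]
      simp
    rw [hE, h3, zero_add]
    exact hN
  · push Not at c2
    have h0 : ecf lam X H u0 u1 n = 0 := by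
      have hom : ((om (QQ H u0 u1) n : ℕ) : ℂ) ≠ 0 := by exact_mod_cast c1
      have h3 : ∀ p ∈ (QQ H u0 u1).filter (· ∣ n), bq (QQ H u0 u1) (n / p) =
          -mu n / (om (QQ H u0 u1) n : ℂ) := by
        intro p hp
        rw [Finset.mem_filter] at hp
        have hpp := ramB_prime hp.1
        have h4 := om_div_eq (fun q hq => ramB_prime hq) hn hp.1 hp.2 (c2 p hp.1)
        unfold bq
        rw [ramB_mu hpp hp.2 (c2 p hp.1), ← h4]
        push_cast
        rfl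
      rw [hE, Finset.sum_congr rfl h3, Finset.sum_const, nsmul_eq_mul]
      change mu n + ((om (QQ H u0 u1) n : ℕ) : ℂ) * (-mu n / (om (QQ H u0 u1) n : ℂ)) = 0
      field_simp
      ring
    rw [h0]
    exact ⟨by simp, fun h => absurd rfl h⟩

end Pool.Agent.MOM
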