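import Pool.Agent.MOM.Rec.Cells

/-!
MOM, section 3: Ramaré's identity, part 2: the coefficients `ecf`. `Q = QQ H u0 u1`, `H ≥ 1`, `X > 0`.

PROOF. The second part of `ecf n` is `∑_u ∑_{p ∈ cell H u, p ∣ n, M_u < n/p ≤ lam M_u} b_Q(n/p)`.
`om_div`: for `p ∣ n`, `n > 0`: every prime of `Q` dividing `n` other than `p` divides `n/p`
(`p` prime), so `ω_Q(n) ≤ ω_Q(n/p) + 1`; equality if moreover `p ∈ Q` and not `p² ∣ n`.
`ecf_support`: a nonzero `ecf n` has `X < n ≤ lam X` or a term `u, p`, with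
`n = p (n/p) > exp(u/H) M_u = X` (`≥` for `p`, `>` for `n/p`) and
`n < exp((u+1)/H) lam M_u = lam X exp(1/H)`.
`norm_second_le`: the norm of the second part is at most `∑_{p ∈ Q, p ∣ n} 1/(ω_Q(n/p) + 1)
≤ ∑_{p ∈ Q, p ∣ n} 1/ω_Q(n) = 1` or it is `0` if there is no such `p` (use `norm_bq_le`, `sum_QQ`;
for `n = 0` use `ecf_support`).
`ecf_le_two`: `‖μ‖ ≤ 1` plus `norm_second_le`.
`ecf_main`: let `X exp(1/H) < n ≤ lam X`. For `p ∈ cell H u`, `p ∣ n`, the window condition holds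
automatically: `n/p > X exp(1/H) / exp((u+1)/H) = M_u` and `n/p ≤ lam X / exp(u/H) = lam M_u`. So
`ecf n = μ(n) + ∑_{p ∈ Q, p ∣ n} b_Q(n/p)`. If `ω_Q(n) = 0` this is `μ(n)`. If some `p² ∣ n`, `p ∈ Q`,
then `μ(n) = 0` and `norm_second_le` gives `≤ 1`. Otherwise every `p ∈ Q`, `p ∣ n` has
`μ(n/p) = -μ(n)` (`n = p (n/p)` with coprime factors) and `ω_Q(n/p) + 1 = ω_Q(n)`, so the sum is
`-μ(n) ω_Q(n)/ω_Q(n)` and `ecf n = 0`.

THIS FILE: everything except `ecf_main`.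
-/

set_option autoImplicit false

namespace Pool.Agent.MOM

open Finset

theorem om_div_ge {Q : Finset ℕ} (hQ : ∀ p ∈ Q, p.Prime) {n p : ℕ} (hp : p.Prime) (hpn : p ∣ n) :
    om Q n ≤ om Q (n / p) + 1 := by
  unfold om
  refine le_trans (Finset.card_le_card ?_) (Finset.card_insert_le p _)
  intro q hq
  rw [Finset.mem_filter] at hq
  rw [Finset.mem_insert, Finset.mem_filter]
  by_cases h : q = p
  · exact Or.inl h
  · right
    refine ⟨hq.1, ?_⟩
    have h1 := hq.2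
    rw [← Nat.mul_div_cancel' hpn] at h1
    rcases (hQ q hq.1).dvd_mul.1 h1 with h2 | h2
    · exact absurd ((Nat.prime_dvd_prime_iff_eq (hQ q hq.1) hp).1 h2) h
    · exact h2

theorem om_div_eq {Q : Finset ℕ} (hQ : ∀ p ∈ Q, p.Prime) {n p : ℕ} (hn : 0 < n) (hp : p ∈ Q)
    (hpn : p ∣ n) (hp2 : ¬ p ^ 2 ∣ n) : om Q (n / p) + 1 = om Q n := by
  unfold om
  have h0 : p ∉ Q.filter (· ∣ n / p) := by
    rw [Finset.mem_filter]
    rintro ⟨-, h⟩
    apply hp2
    rw [pow_two, ← Nat.mul_div_cancel' hpn]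
    exact mul_dvd_mul_left p h
  rw [← Finset.card_insert_of_notMem h0]
  congr 1
  ext q
  rw [Finset.mem_insert, Finset.mem_filter, Finset.mem_filter]
  constructor
  · rintro (rfl | ⟨h1, h2⟩)
    · exact ⟨hp, hpn⟩
    · exact ⟨h1, h2.trans (Nat.div_dvd_of_dvd hpn)⟩
  · rintro ⟨h1, h2⟩
    by_cases h : q = p
    · exact Or.inl h
    · right
      refine ⟨h1, ?_⟩
      rw [← Nat.mul_div_cancel' hpn] at h2
      rcases (hQ q h1).dvd_mul.1 h2 with h3 | h3
      · exact absurd ((Nat.prime_dvd_prime_iff_eq (hQ q h1) (hQ p hp)).1 h3) h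
      · exact h3

private theorem Mu_pos {X : ℝ} (hX : 0 < X) (H u : ℕ) : 0 < Mu X H u := by
  unfold Mu
  positivity

theorem ecf_support {lam X : ℝ} (hl : 1 ≤ lam) (hX : 0 < X) {H : ℕ} (hH : 1 ≤ H) {u0 u1 n : ℕ}
    (h : ecf lam X H u0 u1 n ≠ 0) : X < n ∧ (n : ℝ) ≤ lam * X * Real.exp (1 / H) := by
  have hHr : (0 : ℝ) < H := by exact_mod_cast hH
  unfold ecf at h
  by_cases h1 : n ∈ win X (lam * X)
  · rw [mem_win hX.le] at h1
    refine ⟨h1.1, h1.2.trans ?_⟩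
    have h2 : 1 ≤ Real.exp (1 / (H : ℝ)) := Real.one_le_exp (by positivity)
    have h3 : 0 ≤ lam * X := by positivity
    nlinarith
  · rw [if_neg h1, zero_add] at h
    obtain ⟨u, -, hu⟩ := Finset.exists_ne_zero_of_sum_ne_zero h
    unfold up at hu
    obtain ⟨p, hp, hpu⟩ := Finset.exists_ne_zero_of_sum_ne_zero hu
    rw [Finset.mem_filter, mem_cell] at hp
    obtain ⟨⟨⟨hp1, hp2⟩, hp3⟩, hp4⟩ := hp
    have h2 : n / p ∈ win (Mu X H u) (lam * Mu X H u) := by
      by_contra hc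
      exact hpu (if_neg hc)
    have hM := Mu_pos hX H u
    rw [mem_win hM.le] at h2
    obtain ⟨h3, h4⟩ := h2
    have h5 : (n : ℝ) = p * ((n / p : ℕ) : ℝ) := by
      exact_mod_cast (Nat.mul_div_cancel' hp4).symm
    have h6 : Real.exp ((u : ℝ) / H) * Mu X H u = X := by
      unfold Mu
      rw [mul_comm X, ← mul_assoc, ← Real.exp_add, add_neg_cancel, Real.exp_zero, one_mul]
    have h7 : Real.exp (((u : ℝ) + 1) / H) * (lam * Mu X H u) = lam * X * Real.exp (1 / H) := by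
      rw [add_div, Real.exp_add]
      linear_combination lam * Real.exp (1 / (H : ℝ)) * h6
    rw [h5]
    constructor
    · calc X = Real.exp ((u : ℝ) / H) * Mu X H u := h6.symm
        _ < p * ((n / p : ℕ) : ℝ) := mul_lt_mul_of_le_of_lt_of_pos_of_nonneg hp1 h3
            (Real.exp_pos _) (by positivity)
    · rw [← h7]
      exact mul_le_mul hp2.le h4 (by positivity) (by positivity)

theorem norm_second_le {lam X : ℝ} (hX : 0 < X) {H : ℕ} (hH : 1 ≤ H) (u0 u1 n : ℕ) :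
    ‖∑ u ∈ Finset.Ico u0 u1, up (cell H u)
      (fun m => if m ∈ win (Mu X H u) (lam * Mu X H u) then bq (QQ H u0 u1) m else 0) n‖ ≤ 1 := by
  have hQ : ∀ p ∈ QQ H u0 u1, p.Prime := by
    intro p hp
    obtain ⟨u, -, -, hu⟩ := mem_QQ.1 hp
    exact (mem_cell.1 hu).2
  have h1 : ‖∑ u ∈ Finset.Ico u0 u1, up (cell H u)
      (fun m => if m ∈ win (Mu X H u) (lam * Mu X H u) then bq (QQ H u0 u1) m else 0) n‖ ≤
      ∑ u ∈ Finset.Ico u0 u1, ∑ p ∈ cell H u,
        (if p ∣ n then 1 / ((om (QQ H u0 u1) (n / p) : ℝ) + 1) else 0) := by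
    refine (norm_sum_le _ _).trans (Finset.sum_le_sum fun u _ => ?_)
    unfold up
    refine (norm_sum_le _ _).trans ?_
    rw [Finset.sum_filter]
    refine Finset.sum_le_sum fun p _ => ?_
    split_ifs with h2
    · show ‖(if n / p ∈ win (Mu X H u) (lam * Mu X H u) then bq (QQ H u0 u1) (n / p) else 0 :
        ℂ)‖ ≤ _
      split_ifs with h3
      · exact norm_bq_le _ _
      · rw [norm_zero]
        positivity
    · exact le_rfl
  refine h1.trans ?_
  rw [sum_QQ hH u0 u1 (fun p => if p ∣ n then 1 / ((om (QQ H u0 u1) (n / p) : ℝ) + 1) else 0),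
    ← Finset.sum_filter]
  rcases Nat.eq_zero_or_pos (om (QQ H u0 u1) n) with h0 | h0
  · have h2 : (QQ H u0 u1).filter (· ∣ n) = ∅ := Finset.card_eq_zero.1 h0
    rw [h2, Finset.sum_empty]
    exact zero_le_one
  · have h0' : (0 : ℝ) < om (QQ H u0 u1) n := by exact_mod_cast h0
    calc ∑ p ∈ (QQ H u0 u1).filter (· ∣ n), 1 / ((om (QQ H u0 u1) (n / p) : ℝ) + 1)
        ≤ ∑ p ∈ (QQ H u0 u1).filter (· ∣ n), 1 / (om (QQ H u0 u1) n : ℝ) := by
          refine Finset.sum_le_sum fun p hp => ?_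
          rw [Finset.mem_filter] at hp
          refine one_div_le_one_div_of_le h0' ?_
          exact_mod_cast om_div_ge hQ (hQ p hp.1) hp.2
      _ = 1 := by
          rw [Finset.sum_const, nsmul_eq_mul]
          have h3 : (((QQ H u0 u1).filter (· ∣ n)).card : ℝ) = om (QQ H u0 u1) n := rfl
          rw [h3]
          field_simp

theorem ecf_le_two {lam X : ℝ} (hX : 0 < X) {H : ℕ} (hH : 1 ≤ H) (u0 u1 n : ℕ) :
    ‖ecf lam X H u0 u1 n‖ ≤ 2 := by
  unfold ecf
  refine (norm_add_le _ _).trans ?_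
  have h1 : ‖(if n ∈ win X (lam * X) then mu n else 0 : ℂ)‖ ≤ 1 := by
    split_ifs
    · exact norm_mu_le n
    · rw [norm_zero]
      exact zero_le_one
  have h2 := norm_second_le (lam := lam) hX hH u0 u1 n
  linarith

end Pool.Agent.MOM
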