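import Pool.Agent.MOM.Rec.RamA
import Pool.Agent.MOM.Rec.RamB
import Pool.Agent.MOM.NT.MVT

/-!
MOM, section 3: Ramaré's lemma, part 3: the mean square of the error term.

PROOF of `ramare`. `N = ⌈lam X exp(1/H)⌉₊ ≤ 5 X + 1 ≤ 6 X` (`exp(1/2) < 1.7`). By `EE_eq` and `mvt` with
`T = C1 X + 1`, the integral is at most `C (C1 X + 1 + 6X) ∑_{n ≤ N} ‖e n‖²/n²`, and by
`ecf_support` `1/n² ≤ 1/X²` for the nonzero terms. So it remains: `∑ ‖e n‖² ≤ F + G + 4 (E1 + E2)`,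
where `F = #{n ∈ win X (2X), ω_Q(n) = 0}`, `G = #{n : X < n ≤ 2X, p² ∣ n for some p ∈ Q}
≤ ∑_{p ∈ Q} 2X/p²`, `E1 = #(X, X exp(1/H)] ≤ X (exp(1/H) - 1) + 1 ≤ 2X/H + 1`,
`E2 = #(lam X, lam X exp(1/H)] ≤ 4X/H + 1` (`exp x - 1 ≤ 2x` for `0 ≤ x ≤ 1`). For `n` off the edges use
`ecf_main`, for `n` in the edges `ecf_le_two`. Total:
`C (C1 + 7) X X⁻² (F + 2X ∑ 1/p² + 24 X/H + 8)`.

PROOF of `free_le`. With `y = exp(u0/H)`, `z = exp(u1/H)`, `QQ_eq`, the integers counted lie in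
`free y z (2X)` (`om Q n = 0` iff no prime of `Q` divides `n`), and `sieve_count` gives
`≤ C 2X (u0/H)/(u1/H)`.

THIS FILE: `ramare`.
-/

set_option autoImplicit false

namespace Pool.Agent.MOM

open Finset MeasureTheory

private theorem card_win_le {x y : ℝ} (hx : 0 ≤ x) (hxy : x ≤ y) :
    ((win x y).card : ℝ) ≤ y - x + 1 := by
  unfold win
  rw [Nat.card_Ioc, Nat.cast_sub (Nat.floor_le_floor hxy)]
  have h1 : ((⌊y⌋₊ : ℕ) : ℝ) ≤ y := Nat.floor_le (hx.trans hxy)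
  have h2 : x < (⌊x⌋₊ : ℝ) + 1 := Nat.lt_floor_add_one x
  linarith

private theorem exp_small {H : ℕ} (hH : 2 ≤ H) :
    Real.exp (1 / H) ≤ 1 + 2 * (1 / (H : ℝ)) := by
  have hH' : (2 : ℝ) ≤ H := by exact_mod_cast hH
  set x : ℝ := 1 / (H : ℝ) with hx
  have hx0 : 0 ≤ x := by rw [hx]; positivity
  have hx1 : x ≤ 1 / 2 := by
    rw [hx]
    exact one_div_le_one_div_of_le (by norm_num) hH'
  have h1 : 1 - x ≤ Real.exp (-x) := Real.one_sub_le_exp_neg x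
  have h2 : Real.exp x * Real.exp (-x) = 1 := by
    rw [← Real.exp_add]
    simp
  have h3 : 0 < Real.exp x := Real.exp_pos x
  have h4 : Real.exp x * (1 - x) ≤ 1 :=
    (mul_le_mul_of_nonneg_left h1 h3.le).trans h2.le
  have h5 : 1 ≤ (1 + 2 * x) * (1 - x) := by nlinarith
  have h6 : 0 < 1 - x := by linarith
  nlinarith

private theorem sum_ind_le (S I : Finset ℕ) :
    ∑ n ∈ I, (if n ∈ S then (1 : ℝ) else 0) ≤ (S.card : ℝ) := by
  rw [Finset.sum_boole]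
  have h : (I.filter fun n => n ∈ S).card ≤ S.card :=
    Finset.card_le_card fun n hn => (Finset.mem_filter.1 hn).2
  exact_mod_cast h

private theorem card_sq_le {X : ℝ} (hX : 0 ≤ X) {p : ℕ} (hp : p.Prime) :
    ((((win X (2 * X)).filter fun n => p ^ 2 ∣ n).card : ℕ) : ℝ) ≤
      2 * X * (1 / (p : ℝ) ^ 2) := by
  have h1 : ((win X (2 * X)).filter fun n => p ^ 2 ∣ n) ⊆
      (Finset.Ioc 0 ⌊2 * X⌋₊).filter fun n => p ^ 2 ∣ n := by
    refine Finset.filter_subset_filter _ ?_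
    unfold win
    exact Finset.Ioc_subset_Ioc_left (Nat.zero_le _)
  have h2 := Finset.card_le_card h1
  rw [Nat.Ioc_filter_dvd_card_eq_div] at h2
  have h3 : ((⌊2 * X⌋₊ / p ^ 2 : ℕ) : ℝ) ≤ (⌊2 * X⌋₊ : ℝ) / ((p ^ 2 : ℕ) : ℝ) :=
    Nat.cast_div_le
  have h4 : ((⌊2 * X⌋₊ : ℕ) : ℝ) ≤ 2 * X := Nat.floor_le (by positivity)
  have hp0 : (0 : ℝ) < p := by exact_mod_cast hp.pos
  calc ((((win X (2 * X)).filter fun n => p ^ 2 ∣ n).card : ℕ) : ℝ)
      ≤ ((⌊2 * X⌋₊ / p ^ 2 : ℕ) : ℝ) := by exact_mod_cast h2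
    _ ≤ (⌊2 * X⌋₊ : ℝ) / ((p ^ 2 : ℕ) : ℝ) := h3
    _ ≤ 2 * X / ((p ^ 2 : ℕ) : ℝ) := by gcongr
    _ = 2 * X * (1 / (p : ℝ) ^ 2) := by
        push_cast
        ring

private theorem prime_of_mem_QQ {H u0 u1 p : ℕ} (h : p ∈ QQ H u0 u1) : p.Prime := by
  unfold QQ at h
  obtain ⟨u, _, hu⟩ := Finset.mem_biUnion.1 h
  exact (mem_cell.1 hu).2

private theorem ecf_pt {lam X : ℝ} (hl : 1 < lam) (hl2 : lam ≤ 2) (hX : 0 < X) {H : ℕ}
    (hH : 1 ≤ H) (u0 u1 n : ℕ) :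
    ‖ecf lam X H u0 u1 n‖ ^ 2 ≤
      (if n ∈ (win X (2 * X)).filter fun n => om (QQ H u0 u1) n = 0 then (1 : ℝ) else 0) +
      ∑ p ∈ QQ H u0 u1, (if n ∈ (win X (2 * X)).filter fun n => p ^ 2 ∣ n then (1 : ℝ) else 0) +
      4 * (if n ∈ win X (X * Real.exp (1 / H)) then (1 : ℝ) else 0) +
      4 * (if n ∈ win (lam * X) (lam * X * Real.exp (1 / H)) then (1 : ℝ) else 0) := by
  have p1 : (0 : ℝ) ≤ (if n ∈ (win X (2 * X)).filter fun n => om (QQ H u0 u1) n = 0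
      then (1 : ℝ) else 0) := by split_ifs <;> norm_num
  have p2 : (0 : ℝ) ≤ ∑ p ∈ QQ H u0 u1,
      (if n ∈ (win X (2 * X)).filter fun n => p ^ 2 ∣ n then (1 : ℝ) else 0) :=
    Finset.sum_nonneg fun p _ => by split_ifs <;> norm_num
  have p3 : (0 : ℝ) ≤ (if n ∈ win X (X * Real.exp (1 / H)) then (1 : ℝ) else 0) := by
    split_ifs <;> norm_num
  have p4 : (0 : ℝ) ≤ (if n ∈ win (lam * X) (lam * X * Real.exp (1 / H))
      then (1 : ℝ) else 0) := by split_ifs <;> norm_num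
  by_cases h0 : ecf lam X H u0 u1 n = 0
  · rw [h0, norm_zero]
    nlinarith
  obtain ⟨s1, s2⟩ := ecf_support hl.le hX hH h0
  have h4 : ‖ecf lam X H u0 u1 n‖ ^ 2 ≤ 4 := by
    have := ecf_le_two (lam := lam) hX hH u0 u1 n
    nlinarith [norm_nonneg (ecf lam X H u0 u1 n)]
  by_cases c1 : (n : ℝ) ≤ X * Real.exp (1 / H)
  · have hm : n ∈ win X (X * Real.exp (1 / H)) := (mem_win hX.le).2 ⟨s1, c1⟩
    rw [if_pos hm]
    linarith
  by_cases c2 : lam * X < n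
  · have hm : n ∈ win (lam * X) (lam * X * Real.exp (1 / H)) :=
      (mem_win (by positivity)).2 ⟨c2, s2⟩
    rw [if_pos hm]
    linarith
  push Not at c1 c2
  obtain ⟨e1, e2⟩ := ecf_main hX hH u0 u1 n c1 c2
  have h5 : ‖ecf lam X H u0 u1 n‖ ^ 2 ≤ 1 := by
    nlinarith [norm_nonneg (ecf lam X H u0 u1 n)]
  have hw : n ∈ win X (2 * X) := (mem_win hX.le).2 ⟨s1, c2.trans (by nlinarith)⟩
  rcases e2 h0 with h6 | ⟨p, hp, h6⟩
  · rw [if_pos (Finset.mem_filter.2 ⟨hw, h6⟩)]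
    linarith
  · have h7 := Finset.single_le_sum (s := QQ H u0 u1) (f := fun p =>
      (if n ∈ (win X (2 * X)).filter fun n => p ^ 2 ∣ n then (1 : ℝ) else 0))
      (fun p _ => by split_ifs <;> norm_num) hp
    rw [if_pos (Finset.mem_filter.2 ⟨hw, h6⟩)] at h7
    linarith

theorem ramare : ∃ C : ℝ, 0 < C ∧ ∀ (lam X C1 : ℝ) (H u0 u1 : ℕ), 1 < lam → lam ≤ 2 → 1 ≤ X →
    0 ≤ C1 → 2 ≤ H →
    ∫ t in Set.Icc (-(C1 * X)) (C1 * X), ‖EE lam X H u0 u1 t‖ ^ 2 ≤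
      C * (1 + C1) * ((((win X (2 * X)).filter fun n => om (QQ H u0 u1) n = 0).card : ℝ) / X +
        ∑ p ∈ QQ H u0 u1, 1 / (p : ℝ) ^ 2 + 1 / H + 1 / X) := by
  obtain ⟨c0, hc0, hmvt⟩ := mvt
  refine ⟨168 * c0, by positivity, ?_⟩
  intro lam X C1 H u0 u1 hl hl2 hX hC1 hH
  have hX0 : 0 < X := by linarith
  have hH1 : 1 ≤ H := by omega
  have hHR : (2 : ℝ) ≤ H := by exact_mod_cast hH
  have hexp := exp_small hH
  have hexp1 : 1 ≤ Real.exp (1 / (H : ℝ)) := Real.one_le_exp (by positivity)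
  have hHinv : 1 / (H : ℝ) ≤ 1 / 2 := one_div_le_one_div_of_le (by norm_num) hHR
  set N : ℕ := ⌈lam * X * Real.exp (1 / H)⌉₊ with hN
  have hNle : lam * X * Real.exp (1 / H) ≤ N := Nat.le_ceil _
  have hlX : 0 < lam * X := by positivity
  have hN2 : lam * X ≤ N := by
    refine le_trans ?_ hNle
    nlinarith
  have hNup : (N : ℝ) ≤ 6 * X := by
    have h1 : (N : ℝ) < lam * X * Real.exp (1 / H) + 1 := Nat.ceil_lt_add_one (by positivity)
    have h2 : Real.exp (1 / (H : ℝ)) ≤ 2 := by linarith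
    have h3 : lam * X * Real.exp (1 / H) ≤ 2 * X * 2 := by gcongr
    linarith
  have hN0 : (0 : ℝ) < N := lt_of_lt_of_le hlX hN2
  set F : ℝ := (((win X (2 * X)).filter fun n => om (QQ H u0 u1) n = 0).card : ℝ) with hF
  set S2 : ℝ := ∑ p ∈ QQ H u0 u1, 1 / (p : ℝ) ^ 2 with hS2
  have hF0 : 0 ≤ F := by positivity
  have hS20 : 0 ≤ S2 := Finset.sum_nonneg fun p _ => by positivity
  -- the coefficient sum
  have hsum : ∑ n ∈ Icc 1 N, ‖ecf lam X H u0 u1 n‖ ^ 2 ≤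
      F + 2 * X * S2 + 24 * X * (1 / H) + 8 := by
    have h1 : ∑ n ∈ Icc 1 N, ‖ecf lam X H u0 u1 n‖ ^ 2 ≤ ∑ n ∈ Icc 1 N,
        ((if n ∈ (win X (2 * X)).filter fun n => om (QQ H u0 u1) n = 0 then (1 : ℝ) else 0) +
        ∑ p ∈ QQ H u0 u1, (if n ∈ (win X (2 * X)).filter fun n => p ^ 2 ∣ n
          then (1 : ℝ) else 0) +
        4 * (if n ∈ win X (X * Real.exp (1 / H)) then (1 : ℝ) else 0) +
        4 * (if n ∈ win (lam * X) (lam * X * Real.exp (1 / H)) then (1 : ℝ) else 0)) :=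
      Finset.sum_le_sum fun n _ => ecf_pt hl hl2 hX0 hH1 u0 u1 n
    rw [Finset.sum_add_distrib, Finset.sum_add_distrib, Finset.sum_add_distrib,
      ← Finset.mul_sum, ← Finset.mul_sum, Finset.sum_comm] at h1
    have h2 := sum_ind_le ((win X (2 * X)).filter fun n => om (QQ H u0 u1) n = 0) (Icc 1 N)
    have h3 : ∑ p ∈ QQ H u0 u1, ∑ n ∈ Icc 1 N,
        (if n ∈ (win X (2 * X)).filter fun n => p ^ 2 ∣ n then (1 : ℝ) else 0) ≤
        2 * X * S2 := by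
      rw [hS2, Finset.mul_sum]
      refine Finset.sum_le_sum fun p hp => ?_
      exact (sum_ind_le _ _).trans (card_sq_le hX0.le (prime_of_mem_QQ hp))
    have h4 := sum_ind_le (win X (X * Real.exp (1 / H))) (Icc 1 N)
    have h5 := sum_ind_le (win (lam * X) (lam * X * Real.exp (1 / H))) (Icc 1 N)
    have h6 := card_win_le hX0.le (y := X * Real.exp (1 / H)) (by nlinarith)
    have h7 := card_win_le hlX.le (y := lam * X * Real.exp (1 / H)) (by nlinarith)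
    have h8 : X * Real.exp (1 / H) - X ≤ 2 * X * (1 / H) := by nlinarith
    have h9 : lam * X * Real.exp (1 / H) - lam * X ≤ 4 * X * (1 / H) := by
      have h10 : lam * X * (Real.exp (1 / H) - 1) ≤ 2 * X * (2 * (1 / H)) := by
        have h11 : Real.exp (1 / (H : ℝ)) - 1 ≤ 2 * (1 / H) := by linarith
        have h12 : 0 ≤ Real.exp (1 / (H : ℝ)) - 1 := by linarith
        have h13 : lam * X ≤ 2 * X := by nlinarith
        exact mul_le_mul h13 h11 h12 (by positivity)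
      linarith
    linarith
  -- the sum with the weights
  have hsum2 : ∑ n ∈ Icc 1 N, ‖ecf lam X H u0 u1 n‖ ^ 2 / (n : ℝ) ^ 2 ≤
      (F + 2 * X * S2 + 24 * X * (1 / H) + 8) / X ^ 2 := by
    refine le_trans ?_ (div_le_div_of_nonneg_right hsum (by positivity))
    rw [Finset.sum_div]
    refine Finset.sum_le_sum fun n _ => ?_
    by_cases h0 : ecf lam X H u0 u1 n = 0
    · rw [h0]
      simp
    · have h1 := (ecf_support hl.le hX0 hH1 h0).1
      exact div_le_div_of_nonneg_left (by positivity) (by positivity)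
        (pow_le_pow_left₀ hX0.le h1.le 2)
  set T : ℝ := C1 * X + 1 with hT
  have hT0 : 0 < T := by positivity
  have hm := hmvt (Icc 1 N) (ecf lam X H u0 u1) N T hT0 hN0 (by
    intro n hn
    rw [Finset.mem_Icc] at hn
    exact ⟨by omega, by exact_mod_cast hn.2⟩)
  have hEE : ∀ t, EE lam X H u0 u1 t = dp (Icc 1 N) (ecf lam X H u0 u1) t := fun t =>
    EE_eq (by linarith) hX0.le hH1 u0 u1 hNle hN2 t
  simp_rw [hEE]
  have hcont : Continuous fun t => ‖dp (Icc 1 N) (ecf lam X H u0 u1) t‖ ^ 2 :=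
    (continuous_dp _ _).norm.pow 2
  have hmono : ∫ t in Set.Icc (-(C1 * X)) (C1 * X),
      ‖dp (Icc 1 N) (ecf lam X H u0 u1) t‖ ^ 2 ≤
      ∫ t in Set.Icc (-T) T, ‖dp (Icc 1 N) (ecf lam X H u0 u1) t‖ ^ 2 := by
    refine setIntegral_mono_set (hcont.continuousOn.integrableOn_Icc)
      (Filter.Eventually.of_forall fun t => by
        show 0 ≤ ‖dp (Icc 1 N) (ecf lam X H u0 u1) t‖ ^ 2
        positivity) ?_
    refine (Set.Icc_subset_Icc ?_ ?_).eventuallyLE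
    · rw [hT]; linarith
    · rw [hT]; linarith
  refine hmono.trans (hm.trans ?_)
  have hTN : T + N ≤ 7 * (1 + C1) * X := by
    rw [hT]
    nlinarith [mul_nonneg hC1 hX0.le]
  calc c0 * (T + N) * ∑ n ∈ Icc 1 N, ‖ecf lam X H u0 u1 n‖ ^ 2 / (n : ℝ) ^ 2
      ≤ c0 * (7 * (1 + C1) * X) * ((F + 2 * X * S2 + 24 * X * (1 / H) + 8) / X ^ 2) := by
        gcongr
    _ = 7 * c0 * (1 + C1) * (F / X + 2 * S2 + 24 * (1 / H) + 8 * (1 / X)) := by
        field_simp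
    _ ≤ 7 * c0 * (1 + C1) * (24 * (F / X + S2 + 1 / H + 1 / X)) := by
        have q1 : 0 ≤ F / X := by positivity
        have q2 : 0 ≤ 1 / (H : ℝ) := by positivity
        have q3 : 0 ≤ 1 / X := by positivity
        gcongr
        linarith
    _ = 168 * c0 * (1 + C1) * (F / X + S2 + 1 / H + 1 / X) := by ring

end Pool.Agent.MOM
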