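import Pool.Agent.MOM.Rec.NumA
import Pool.Agent.MOM.Rec.RamC
import Pool.Agent.MOM.Rec.RamD

/-!
MOM, section 3: the recursion step, part E: the mean square of Ramaré's error term.

PROOF. `ramare` with `H = stH be L ≥ 2` (`num_H`), `u0 = st0`, `u1 = st1`. The four terms:
`free_le`: `u0 < u1` (`num_lt`); `exp(u0/H) ≥ e^{L/β} ≥ 2` (`num_low`); `exp(u1/H) ≤ exp(e^{βL})
≤ exp(sqrt(log X)) ≤ X ≤ 2X` by `num_upp1` and since `sqrt(log X) ≥ e^{βL} ≥ 1` gives
`log X ≥ 1`, `sqrt(log X) ≤ log X`; so the term is `≤ C 16 e^{-βL/4}` (`num_ratio`).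
`sum_inv_sq_QQ`: `2 exp(-u0/H) ≤ 2 e^{-L/β} ≤ 2 e^{-βL/4}`. `1/H ≤ e^{-βL/4}` (`num_H`). `1/X ≤
e^{-βL/4}` since `X ≥ log X ≥ sqrt(log X) ≥ e^{βL}`.
-/

set_option autoImplicit false

namespace Pool.Agent.MOM

open Finset MeasureTheory Real

theorem step_E : ∃ C : ℝ, 0 < C ∧ ∀ (be lam X C1 L : ℝ),
    0 < be → be ≤ 1 / 128 → 1 < lam → lam ≤ 2 → 0 ≤ C1 → 1 ≤ X → 1000 / be ^ 2 ≤ L →
    exp (be * L) ≤ sqrt (log X) →
    ∫ t in Set.Icc (-(C1 * X)) (C1 * X), ‖EE lam X (stH be L) (st0 be L) (st1 be L) t‖ ^ 2 ≤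
      C * (1 + C1) * exp (-(be * L / 4)) := by
  obtain ⟨Cr, hCr, hram⟩ := ramare
  obtain ⟨Cf, hCf, hfree⟩ := free_le
  refine ⟨Cr * (16 * Cf + 4), by positivity, ?_⟩
  intro be lam X C1 L h0 h1 hlam hlam2 hC1 hX hL hLX
  obtain ⟨hH2, hHe, -⟩ := num_H h0 h1 hL
  have hlt := num_lt h0 h1 hL
  have hlow := num_low h0 h1 hL (le_refl (st0 be L))
  have hupp := num_upp1 h0 h1 hL
  have hrat := num_ratio h0 h1 hL
  have hL1 : 1000 ≤ L * be ^ 2 := (div_le_iff₀ (by positivity)).1 hL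
  have hbe2 : be ^ 2 ≤ 1 := by nlinarith
  have hL0 : 0 < L := by
    rcases le_or_gt L 0 with h | h
    · nlinarith [mul_nonneg (neg_nonneg.2 h) (sq_nonneg be)]
    · exact h
  have hL2 : 1000 ≤ L := by nlinarith
  have hbL : 0 ≤ be * L := by positivity
  have hLbe : L ≤ L / be := by
    rw [le_div_iff₀ h0]
    nlinarith
  have hbL4 : be * L / 4 ≤ L := by nlinarith
  have hlog : 0 ≤ log X := log_nonneg hX
  have hs1 : 1 ≤ sqrt (log X) := (one_le_exp hbL).trans hLX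
  have hs2 : sqrt (log X) ≤ log X := by
    have h2 := sq_sqrt hlog
    nlinarith
  have hX0 : 0 < X := by linarith
  have hlX : log X ≤ X := by
    have h2 := log_le_sub_one_of_pos hX0
    linarith
  have h2e : 2 ≤ exp ((st0 be L : ℝ) / stH be L) := by
    have h2 := add_one_le_exp ((st0 be L : ℝ) / stH be L)
    linarith
  have hue : exp ((st1 be L : ℝ) / stH be L) ≤ 2 * X := by
    have h2 : exp ((st1 be L : ℝ) / stH be L) ≤ exp (log X) :=
      exp_le_exp.2 ((hupp.trans hLX).trans hs2)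
    rw [exp_log hX0] at h2
    linarith
  have hF := hfree X (stH be L) (st0 be L) (st1 be L) hX (by omega) hlt h2e hue
  have hS : ∑ p ∈ QQ (stH be L) (st0 be L) (st1 be L), 1 / (p : ℝ) ^ 2 ≤
      2 * exp (-(be * L / 4)) := by
    refine (sum_inv_sq_QQ (by omega)).trans ?_
    have h2 : exp (-((st0 be L : ℝ) / stH be L)) ≤ exp (-(be * L / 4)) :=
      exp_le_exp.2 (by linarith)
    linarith
  have hHi : 1 / (stH be L : ℝ) ≤ exp (-(be * L / 4)) := by
    rw [exp_neg, ← one_div]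
    exact one_div_le_one_div_of_le (exp_pos _) hHe
  have hXi : 1 / X ≤ exp (-(be * L / 4)) := by
    rw [exp_neg, ← one_div]
    refine one_div_le_one_div_of_le (exp_pos _) ?_
    have h2 : exp (be * L / 4) ≤ exp (be * L) := exp_le_exp.2 (by linarith)
    linarith
  have hF2 : Cf * ((st0 be L : ℝ) / st1 be L) ≤ Cf * (16 * exp (-(be * L / 4))) :=
    mul_le_mul_of_nonneg_left hrat hCf.le
  refine (hram lam X C1 (stH be L) (st0 be L) (st1 be L) hlam hlam2 hX hC1 hH2).trans ?_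
  have h3 : (((win X (2 * X)).filter fun n =>
      om (QQ (stH be L) (st0 be L) (st1 be L)) n = 0).card : ℝ) / X +
        ∑ p ∈ QQ (stH be L) (st0 be L) (st1 be L), 1 / (p : ℝ) ^ 2 + 1 / (stH be L : ℝ) + 1 / X ≤
      (16 * Cf + 4) * exp (-(be * L / 4)) := by
    nlinarith
  refine (mul_le_mul_of_nonneg_left h3 (by positivity)).trans (le_of_eq ?_)
  ring

end Pool.Agent.MOM
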