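import Pool.Agent.MOM.Rec.StepS
import Pool.Agent.MOM.Rec.StepE

/-!
MOM, section 3: the recursion step.

PROOF. `MX = EE - ∑_u Q_u R_u` (`MX_eq`), so `‖MX‖² ≤ 2 ‖EE‖² + 2 ‖∑_u Q_u R_u‖²`. Integrate over `D`
(measurable, `D ⊆ Set.Icc (-(C1 X)) (C1 X)`; all functions continuous): `step_E` (the integral over
`D` is at most that over the interval, nonnegative integrand) and `step_S`. `C5 = 2 C_E + 2 C_S`.
-/

set_option autoImplicit false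

namespace Pool.Agent.MOM

open Finset MeasureTheory Real

theorem step : ∃ C : ℝ, 0 < C ∧ ∀ (be al lam X C1 L : ℝ) (S : Finset ℕ) (D : Set ℝ),
    0 < be → be ≤ 1 / 128 → 0 ≤ al → al ≤ 1 / 8 → 1 < lam → lam ≤ 2 → 0 ≤ C1 → 1 ≤ X →
    1000 / be ^ 2 ≤ L → exp (be * L) ≤ sqrt (log X) →
    (∀ p ∈ S, p.Prime ∧ exp L ≤ p ∧ (p : ℝ) ≤ 2 * exp L) →
    MeasurableSet D → (∀ t ∈ D, |t| ≤ C1 * X) → (∀ t ∈ D, exp (-(al * L)) ≤ ‖Pp S t‖) →
    (∀ t ∈ D, ∀ u ∈ Ico (st0 be L) (st1 be L),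
      ‖Pp (cell (stH be L) u) t‖ ≤ exp (-((al + 4 * be) * ((u : ℝ) / stH be L)))) →
    ∫ t in D, ‖MX lam X t‖ ^ 2 ≤ C * (1 + C1) * exp (-(be * L / 4)) := by
  obtain ⟨CE, hCE, hE⟩ := step_E
  obtain ⟨CS, hCS, hS⟩ := step_S
  refine ⟨2 * CE + 2 * CS, by positivity, ?_⟩
  intro be al lam X C1 L S D hbe hbe1 hal hal1 hlam hlam1 hC1 hX hL hLX hSp hDm hDb hDS hDu
  have hsE := hE be lam X C1 L hbe hbe1 hlam hlam1 hC1 hX hL hLX
  have hsS := hS be al lam X C1 L S D hbe hbe1 hal hal1 hlam hlam1 hC1 hX hL hSp hDm hDb hDS hDu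
  set F : ℝ → ℂ := fun t => ∑ u ∈ Ico (st0 be L) (st1 be L),
        Pp (cell (stH be L) u) t * Ru lam X (stH be L) (st0 be L) (st1 be L) u t with hF
  set E : ℝ → ℂ := fun t => EE lam X (stH be L) (st0 be L) (st1 be L) t with hEd
  have hFc : Continuous F := continuous_finsetSum _ fun u _ =>
    (continuous_Pp _).mul (continuous_Ru _ _ _ _ _ _)
  have hEc : Continuous E := continuous_EE _ _ _ _ _
  have hMc : Continuous (MX lam X) := continuous_MX lam X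
  have hDsub : D ⊆ Set.Icc (-(C1 * X)) (C1 * X) := fun t ht => abs_le.1 (hDb t ht)
  have hint : ∀ f : ℝ → ℝ, Continuous f → IntegrableOn f D := fun f hf =>
    (hf.integrableOn_Icc (a := -(C1 * X)) (b := C1 * X)).mono_set hDsub
  have hE2 : Continuous fun t => ‖E t‖ ^ 2 := hEc.norm.pow 2
  have hF2 : Continuous fun t => ‖F t‖ ^ 2 := hFc.norm.pow 2
  have hpt : ∀ t, ‖MX lam X t‖ ^ 2 ≤ 2 * ‖E t‖ ^ 2 + 2 * ‖F t‖ ^ 2 := by
    intro t
    have h1 : MX lam X t = E t - F t := MX_eq lam X (stH be L) (st0 be L) (st1 be L) t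
    have h2 : ‖MX lam X t‖ ≤ ‖E t‖ + ‖F t‖ := by
      rw [h1]
      exact norm_sub_le _ _
    have h3 : ‖MX lam X t‖ ^ 2 ≤ (‖E t‖ + ‖F t‖) ^ 2 :=
      pow_le_pow_left₀ (norm_nonneg _) h2 2
    nlinarith [sq_nonneg (‖E t‖ - ‖F t‖)]
  have h1 : ∫ t in D, ‖MX lam X t‖ ^ 2 ≤ ∫ t in D, (2 * ‖E t‖ ^ 2 + 2 * ‖F t‖ ^ 2) :=
    setIntegral_mono (hint _ (hMc.norm.pow 2))
      (hint _ ((hE2.const_mul 2).add (hF2.const_mul 2))) hpt
  have h2 : ∫ t in D, (2 * ‖E t‖ ^ 2 + 2 * ‖F t‖ ^ 2) =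
      2 * (∫ t in D, ‖E t‖ ^ 2) + 2 * ∫ t in D, ‖F t‖ ^ 2 := by
    rw [integral_add (hint _ (hE2.const_mul 2)) (hint _ (hF2.const_mul 2)),
      integral_const_mul, integral_const_mul]
  have h3 : ∫ t in D, ‖E t‖ ^ 2 ≤ ∫ t in Set.Icc (-(C1 * X)) (C1 * X), ‖E t‖ ^ 2 :=
    setIntegral_mono_set (hE2.integrableOn_Icc) (Filter.Eventually.of_forall fun t => by
      simp only [Pi.zero_apply]
      positivity) (Filter.Eventually.of_forall hDsub)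
  have h4 : (2 * CE + 2 * CS) * (1 + C1) * exp (-(be * L / 4)) =
      2 * (CE * (1 + C1) * exp (-(be * L / 4))) + 2 * (CS * (1 + C1) * exp (-(be * L / 4))) := by
    ring
  rw [h4]
  linarith

end Pool.Agent.MOM
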