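import Pool.Agent.MOM.Rec.RecA
import Pool.Agent.MOM.Rec.Step
import Pool.Agent.MOM.Rec.NumB

/-!
MOM, section 3: the recursion. Let `G_j(S, L) = {t : |t| ≤ C1 X, e^{-α_j L} ≤ |Q_S(t)|} \ UU`.

`one_step`: assume the bound of `rec_claim` (with the constant `K`) for all children, i.e. for
`j + 1` and all cells `u ∈ [st0, st1)` of the resolution `H = stH β_j L`. Then the integral over
`G_j(S, L)` is at most `C (1+C1) e^{-β_j L/4} + K/2 e^{-β_j L/4}`. Proof: `G_j(S, L)` is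
the union of `D = {t ∈ G_j : ∀ u, |Q_u(t)| ≤ e^{-α_{j+1} u/H}}` and the sets
`D_u = {t ∈ G_j : e^{-α_{j+1} u/H} ≤ |Q_u(t)|} ⊆ G_{j+1}(cell H u, u/H)`, `u ∈ [st0, st1)`. On `D` use
`step` (`be = β_j`, `al = α_j ≤ 2 a0 ≤ 1/8`, `α_{j+1} = α_j + 4β_j` is `alj_succ`,
`β_j ≤ a0/8 ≤ 1/128`), on `D_u` the hypothesis: total `K ∑_u e^{-β_{j+1} (u/H)/4} ≤ (K/2) e^{-β_j L/4}`
(`bej_succ`, `num_sum`). (Integral over a finite union at most the sum of the integrals, nonnegative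
integrand, continuous on the bounded interval: `MeasureTheory.setIntegral_mono_set`,
`integral_union` or via `lintegral`/indicator functions.)

`measurableSet_UU`: for fixed `X` only finitely many `a` with `a ≤ exp sqrt(log X)`, and for each of
them finitely many `b ≤ 2a`; for fixed `a, b` the set is closed.

`empty_case`: if `(log X)^{4/a0} ≤ e^{u/H}`, `H ≤ e^{u/H}`, `(u+1)/H ≤ sqrt(log X)`, `2 ≤ H`,
`4 ≤ e^{u/H}` then `G_j(cell H u, u/H) = ∅`: take `a = ⌈e^{u/H}⌉₊`, `b = ⌈e^{(u+1)/H}⌉₊`. Then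
`a ≤ e^{u/H} + 1 ≤ e^{u/H} + e^{u/H}/H ≤ e^{(u+1)/H} ≤ exp sqrt(log X)`,
`b ≤ e^{(u+1)/H} + 1 ≤ 1.65 e^{u/H} + 1 ≤ 2a`, and `a^{-2a0} ≤ e^{-2 a0 u/H} ≤ e^{-α_j u/H} ≤ |Q|`
(`alj_le`, `cell_eq`). So every such `t` is in `UU`.

`rec_claim`: induction on `n` for the statement with the additional hypothesis
`(log X)^{4/a0} ≤ 2^n e^{u/H}`, for all `j, H, u`, with `K = 2C(1+C1)`. If
`(log X)^{4/a0} ≤ e^{u/H}`: `empty_case`. Otherwise (so `n ≥ 1`) `L = u/H` has
`e^{β_j L} ≤ ((log X)^{4/a0})^{β_j} ≤ (log X)^{1/2}` since `4 β_j/a0 = 2^{-j-1} ≤ 1/2` and `log X ≥ 1`;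
use `one_step`: the children satisfy the hypotheses by `num_child_H`, `num_child_L`, `num_upp`
(`(v+1)/H' ≤ e^{β_j L} ≤ sqrt(log X)`), `num_H`, and `2^{n-1} e^{v/H'} ≥ 2^n e^{u/H}` by `num_child_P`.
`rec_root`: `one_step` for `j = 0` and `rec_claim` for the children.

THIS FILE: `one_step`.
-/

set_option autoImplicit false

namespace Pool.Agent.MOM

open Finset MeasureTheory Real

theorem one_step : ∃ C : ℝ, 0 < C ∧ ∀ (a0 lam X C1 L K : ℝ) (j : ℕ) (S : Finset ℕ),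
    0 < a0 → a0 ≤ 1 / 16 → 1 < lam → lam ≤ 2 → 0 ≤ C1 → 1 ≤ X → 0 ≤ K →
    1000 / bej a0 j ^ 2 ≤ L → exp (bej a0 j * L) ≤ sqrt (log X) →
    (∀ p ∈ S, p.Prime ∧ exp L ≤ p ∧ (p : ℝ) ≤ 2 * exp L) →
    (∀ u ∈ Ico (st0 (bej a0 j) L) (st1 (bej a0 j) L),
      ∫ t in GG a0 C1 X (j + 1) (cell (stH (bej a0 j) L) u) ((u : ℝ) / stH (bej a0 j) L),
        ‖MX lam X t‖ ^ 2 ≤
          K * exp (-(bej a0 (j + 1) * ((u : ℝ) / stH (bej a0 j) L) / 4))) →
    ∫ t in GG a0 C1 X j S L, ‖MX lam X t‖ ^ 2 ≤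
      (C * (1 + C1) + K / 2) * exp (-(bej a0 j * L / 4)) := by
  obtain ⟨C, hC, hstep⟩ := step
  refine ⟨C, hC, ?_⟩
  intro a0 lam X C1 L K j S h0 h1 hl1 hl2 hC1 hX hK hL hLX hS hch
  set be : ℝ := bej a0 j with hbe
  set H : ℕ := stH be L with hH
  set I : Finset ℕ := Ico (st0 be L) (st1 be L) with hI
  have hbe0 : 0 < be := bej_pos h0 j
  have hbe1 : be ≤ 1 / 128 := by
    have := bej_le h0 j
    linarith
  have hal0 : 0 ≤ alj a0 j := by
    have := alj_nonneg h0 j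
    linarith
  have hal1 : alj a0 j ≤ 1 / 8 := by
    have := alj_le h0 j
    linarith
  set f : ℝ → ℝ := fun t => ‖MX lam X t‖ ^ 2 with hf
  have hfc : Continuous f := (continuous_MX lam X).norm.pow 2
  have hf0 : ∀ t, 0 ≤ f t := fun t => by positivity
  set G : Set ℝ := GG a0 C1 X j S L with hG
  set Du : ℕ → Set ℝ := fun u => GG a0 C1 X (j + 1) (cell H u) ((u : ℝ) / H) with hDu
  set D : Set ℝ := G ∩ ⋂ u ∈ I, {t | ‖Pp (cell H u) t‖ ≤
    exp (-((alj a0 j + 4 * be) * ((u : ℝ) / H)))} with hD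
  have hGm : MeasurableSet G := measurableSet_GG _ _ _ _ _ _
  have hDum : ∀ u, MeasurableSet (Du u) := fun u => measurableSet_GG _ _ _ _ _ _
  have hDm : MeasurableSet D := by
    refine hGm.inter (Finset.measurableSet_biInter I fun u _ => ?_)
    exact (isClosed_le (continuous_Pp _).norm continuous_const).measurableSet
  have hGI : ∀ (i : ℕ) (T : Finset ℕ) (r : ℝ),
      GG a0 C1 X i T r ⊆ Set.Icc (-(C1 * X)) (C1 * X) := by
    rintro i T r t ⟨⟨ht, -⟩, -⟩
    exact abs_le.1 ht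
  have hfi : ∀ A : Set ℝ, MeasurableSet A → A ⊆ Set.Icc (-(C1 * X)) (C1 * X) →
      Integrable (A.indicator f) := by
    intro A hA hAI
    rw [integrable_indicator_iff hA]
    exact hfc.integrableOn_Icc.mono_set hAI
  have hDI : D ⊆ Set.Icc (-(C1 * X)) (C1 * X) := fun t ht => hGI _ _ _ ht.1
  have hpt : ∀ t, G.indicator f t ≤ D.indicator f t + ∑ u ∈ I, (Du u).indicator f t := by
    intro t
    have hn1 : 0 ≤ D.indicator f t := Set.indicator_nonneg (fun x _ => hf0 x) t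
    have hn2 : ∀ u ∈ I, 0 ≤ (Du u).indicator f t := fun u _ =>
      Set.indicator_nonneg (fun x _ => hf0 x) t
    have hn3 : 0 ≤ ∑ u ∈ I, (Du u).indicator f t := Finset.sum_nonneg hn2
    by_cases ht : t ∈ G
    · rw [Set.indicator_of_mem ht]
      by_cases htD : t ∈ D
      · rw [Set.indicator_of_mem htD]
        linarith
      · have h2 : ∃ u ∈ I, exp (-((alj a0 j + 4 * be) * ((u : ℝ) / H))) < ‖Pp (cell H u) t‖ := by
          by_contra hcon
          push Not at hcon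
          exact htD ⟨ht, Set.mem_iInter₂.2 hcon⟩
        obtain ⟨u, hu, hu2⟩ := h2
        have h3 : t ∈ Du u := by
          refine ⟨⟨ht.1.1, ?_⟩, ht.2⟩
          rw [alj_succ]
          exact hu2.le
        have h4 := Finset.single_le_sum hn2 hu
        simp only [Set.indicator_of_mem h3] at h4
        linarith
    · rw [Set.indicator_of_notMem ht]
      linarith
  have hint : ∫ t in G, f t ≤ (∫ t in D, f t) + ∑ u ∈ I, ∫ t in Du u, f t := by
    have h2 : ∫ t, G.indicator f t ≤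
        ∫ t, (D.indicator f t + ∑ u ∈ I, (Du u).indicator f t) := by
      refine integral_mono (hfi G hGm (hGI _ _ _)) ?_ hpt
      refine (hfi D hDm hDI).add ?_
      exact integrable_finsetSum _ fun u _ => hfi (Du u) (hDum u) (hGI _ _ _)
    rw [integral_add (hfi D hDm hDI)
      (integrable_finsetSum _ fun u _ => hfi (Du u) (hDum u) (hGI _ _ _)),
      integral_finsetSum _ (fun u _ => hfi (Du u) (hDum u) (hGI _ _ _)),
      integral_indicator hGm, integral_indicator hDm] at h2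
    refine h2.trans (le_of_eq ?_)
    congr 1
    exact Finset.sum_congr rfl fun u _ => integral_indicator (hDum u)
  have hA : ∫ t in D, f t ≤ C * (1 + C1) * exp (-(be * L / 4)) := by
    refine hstep be (alj a0 j) lam X C1 L S D hbe0 hbe1 hal0 hal1 hl1 hl2 hC1 hX hL hLX hS hDm
      ?_ ?_ ?_
    · intro t ht
      exact ht.1.1.1
    · intro t ht
      exact ht.1.1.2
    · intro t ht u hu
      exact Set.mem_iInter₂.1 ht.2 u hu
  have hB : ∑ u ∈ I, ∫ t in Du u, f t ≤ K / 2 * exp (-(be * L / 4)) := by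
    have h2 : ∑ u ∈ I, ∫ t in Du u, f t ≤
        ∑ u ∈ I, K * exp (-(be / 2 * ((u : ℝ) / H) / 4)) := by
      refine Finset.sum_le_sum fun u hu => ?_
      have h3 := hch u hu
      rw [bej_succ] at h3
      exact h3
    rw [← Finset.mul_sum] at h2
    have h4 := mul_le_mul_of_nonneg_left (num_sum hbe0 hbe1 hL) hK
    have h5 : K * (1 / 2 * exp (-(be * L / 4))) = K / 2 * exp (-(be * L / 4)) := by ring
    linarith
  have h6 : (C * (1 + C1) + K / 2) * exp (-(be * L / 4)) =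
      C * (1 + C1) * exp (-(be * L / 4)) + K / 2 * exp (-(be * L / 4)) := by ring
  rw [h6]
  linarith

end Pool.Agent.MOM
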