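import Pool.Agent.MOM.Rec.NumL
import Pool.Agent.MOM.Rec.Mom

/-!
MOM, section 3: the recursion step, part S: the mean square of `∑_u Q_u R_u` on the set where all
`|Q_u|` are small and `|Q_S|` is large.

PROOF. Notation `β = be`, `α = al`, `H = stH be L`, `U = Ico (st0 be L) (st1 be L)`, `P = e^L`,
`w = u/H`. On `D`, by Cauchy-Schwarz, `‖∑_{u ∈ U} Q_u R_u‖² ≤ #U ∑_u ‖Q_u‖² ‖R_u‖²
≤ #U ∑_u e^{-2(α+4β)w} ‖R_u‖²`. By `moment` (`P = exp L ≥ 4`, `M = Mu X H u > 0`, `l = stl be L u`,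
`X ≤ P^l M` by `num_Xl`, `b = bq Q`, `norm_bq_le_one`; `exp L ^ (-al) = exp (-(al L))`)
`∫_D ‖R_u‖² ≤ C (1+C1) P^{2αl} 2^l (l+1)^l`. By `num_exp` every term is
`≤ C (1+C1) e^{-4L}`, so the total is `≤ (#U)² C (1+C1) e^{-4L} ≤ C (1+C1) e^{-3L}` (`num_card`,
`#U ≤ st1`), and `e^{-3L} ≤ e^{-βL/4}`. (All integrands are continuous and `D` is bounded:
`IntegrableOn` on `Set.Icc (-(C1 X)) (C1 X)`.)
-/

set_option autoImplicit false

namespace Pool.Agent.MOM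

open Finset MeasureTheory Real

private theorem card_Ico_le (a b : ℕ) : ((Ico a b).card : ℝ) ≤ b := by
  rw [Nat.card_Ico]
  exact_mod_cast Nat.sub_le b a

private theorem norm_sum_sq_le (U : Finset ℕ) (f : ℕ → ℂ) :
    ‖∑ u ∈ U, f u‖ ^ 2 ≤ (U.card : ℝ) * ∑ u ∈ U, ‖f u‖ ^ 2 := by
  have h1 : ‖∑ u ∈ U, f u‖ ^ 2 ≤ (∑ u ∈ U, ‖f u‖) ^ 2 :=
    pow_le_pow_left₀ (norm_nonneg _) (norm_sum_le _ _) 2
  exact h1.trans (sq_sum_le_card_mul_sum_sq)

theorem step_S : ∃ C : ℝ, 0 < C ∧ ∀ (be al lam X C1 L : ℝ) (S : Finset ℕ) (D : Set ℝ),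
    0 < be → be ≤ 1 / 128 → 0 ≤ al → al ≤ 1 / 8 → 1 < lam → lam ≤ 2 → 0 ≤ C1 → 1 ≤ X →
    1000 / be ^ 2 ≤ L → (∀ p ∈ S, p.Prime ∧ exp L ≤ p ∧ (p : ℝ) ≤ 2 * exp L) →
    MeasurableSet D → (∀ t ∈ D, |t| ≤ C1 * X) → (∀ t ∈ D, exp (-(al * L)) ≤ ‖Pp S t‖) →
    (∀ t ∈ D, ∀ u ∈ Ico (st0 be L) (st1 be L),
      ‖Pp (cell (stH be L) u) t‖ ≤ exp (-((al + 4 * be) * ((u : ℝ) / stH be L)))) →
    ∫ t in D, ‖∑ u ∈ Ico (st0 be L) (st1 be L),
        Pp (cell (stH be L) u) t * Ru lam X (stH be L) (st0 be L) (st1 be L) u t‖ ^ 2 ≤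
      C * (1 + C1) * exp (-(be * L / 4)) := by
  obtain ⟨C, hC, hm⟩ := moment
  refine ⟨C, hC, ?_⟩
  intro be al lam X C1 L S D hbe hbe1 hal hal1 hlam hlam2 hC1 hX hL hS hD hDb hDS hDu
  set H := stH be L with hH
  set u0 := st0 be L with hu0
  set u1 := st1 be L with hu1
  have hL1 : (1 : ℝ) ≤ L := by
    refine le_trans ?_ hL
    rw [le_div_iff₀ (by positivity)]
    nlinarith
  have hL2 : (4 : ℝ) ≤ L := by
    refine le_trans ?_ hL
    rw [le_div_iff₀ (by positivity)]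
    nlinarith
  have hP : (4 : ℝ) ≤ exp L := by
    have := Real.add_one_le_exp L
    linarith
  have hsub : D ⊆ Set.Icc (-(C1 * X)) (C1 * X) := fun t ht => abs_le.1 (hDb t ht)
  have hint : ∀ f : ℝ → ℝ, Continuous f → IntegrableOn f D := fun f hf =>
    (hf.continuousOn.integrableOn_compact isCompact_Icc).mono_set hsub
  set e : ℕ → ℝ := fun u => exp (-(2 * (al + 4 * be) * ((u : ℝ) / H))) with he
  -- pointwise bound
  have hpt : ∀ t ∈ D, ‖∑ u ∈ Ico u0 u1, Pp (cell H u) t * Ru lam X H u0 u1 u t‖ ^ 2 ≤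
      ((Ico u0 u1).card : ℝ) * ∑ u ∈ Ico u0 u1, e u * ‖Ru lam X H u0 u1 u t‖ ^ 2 := by
    intro t ht
    refine (norm_sum_sq_le _ _).trans ?_
    refine mul_le_mul_of_nonneg_left (Finset.sum_le_sum fun u hu => ?_) (by positivity)
    rw [norm_mul, mul_pow]
    refine mul_le_mul_of_nonneg_right ?_ (by positivity)
    have h1 := hDu t ht u hu
    calc ‖Pp (cell H u) t‖ ^ 2 ≤ (exp (-((al + 4 * be) * ((u : ℝ) / H)))) ^ 2 :=
          pow_le_pow_left₀ (norm_nonneg _) h1 2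
      _ = e u := by
          rw [he, ← Real.exp_nat_mul]
          congr 1
          push_cast
          ring
  have hcR : ∀ u, Continuous fun t => ‖Ru lam X H u0 u1 u t‖ ^ 2 := fun u =>
    (continuous_Ru lam X H u0 u1 u).norm.pow 2
  have hcont1 : Continuous fun t =>
      ‖∑ u ∈ Ico u0 u1, Pp (cell H u) t * Ru lam X H u0 u1 u t‖ ^ 2 :=
    (continuous_finsetSum _ fun u _ =>
      (continuous_Pp _).mul (continuous_Ru _ _ _ _ _ _)).norm.pow 2
  have hcont2 : Continuous fun t =>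
      ((Ico u0 u1).card : ℝ) * ∑ u ∈ Ico u0 u1, e u * ‖Ru lam X H u0 u1 u t‖ ^ 2 :=
    continuous_const.mul (continuous_finsetSum _ fun u _ => continuous_const.mul (hcR u))
  have hstep1 : ∫ t in D, ‖∑ u ∈ Ico u0 u1, Pp (cell H u) t * Ru lam X H u0 u1 u t‖ ^ 2 ≤
      ((Ico u0 u1).card : ℝ) * ∑ u ∈ Ico u0 u1, e u * ∫ t in D, ‖Ru lam X H u0 u1 u t‖ ^ 2 := by
    refine (setIntegral_mono_on (hint _ hcont1) (hint _ hcont2) hD hpt).trans (le_of_eq ?_)
    rw [integral_const_mul, integral_finsetSum _ fun u _ => (hint _ (hcR u)).const_mul _]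
    congr 1
    exact Finset.sum_congr rfl fun u _ => integral_const_mul _ _
  -- the moment bound
  have hterm : ∀ u ∈ Ico u0 u1, e u * ∫ t in D, ‖Ru lam X H u0 u1 u t‖ ^ 2 ≤
      C * (1 + C1) * exp (-(4 * L)) := by
    intro u hu
    obtain ⟨hu_l, hu_u⟩ := Finset.mem_Ico.1 hu
    have hM : 0 < Mu X H u := by
      unfold Mu
      positivity
    have hXl : X ≤ exp L ^ (stl be L u) * Mu X H u :=
      num_Xl hbe hbe1 hL u (by linarith)
    have h1 := hm lam (exp L) X (Mu X H u) al C1 (stl be L u) S (bq (QQ H u0 u1)) hlam hlam2 hP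
      hX hM hC1 hS (norm_bq_le_one _) hXl D hD hDb (by
        intro t ht
        have h2 : exp L ^ (-al) = exp (-(al * L)) := by
          rw [← Real.exp_mul]
          congr 1
          ring
        rw [h2]
        exact hDS t ht)
    have h3 : ∫ t in D, ‖Ru lam X H u0 u1 u t‖ ^ 2 ≤
        C * (1 + C1) * exp L ^ (2 * al * (stl be L u : ℝ)) * 2 ^ (stl be L u) *
          ((stl be L u : ℝ) + 1) ^ (stl be L u) := h1
    have h4 := num_exp hbe hbe1 hL hal hal1 hu_l hu_u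
    calc e u * ∫ t in D, ‖Ru lam X H u0 u1 u t‖ ^ 2
        ≤ e u * (C * (1 + C1) * exp L ^ (2 * al * (stl be L u : ℝ)) * 2 ^ (stl be L u) *
          ((stl be L u : ℝ) + 1) ^ (stl be L u)) :=
          mul_le_mul_of_nonneg_left h3 (Real.exp_nonneg _)
      _ = C * (1 + C1) * (e u * (exp L ^ (2 * al * (stl be L u : ℝ)) * 2 ^ (stl be L u) *
          ((stl be L u : ℝ) + 1) ^ (stl be L u))) := by ring
      _ ≤ C * (1 + C1) * exp (-(4 * L)) :=
          mul_le_mul_of_nonneg_left h4 (by positivity)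
  have hcard : ((Ico u0 u1).card : ℝ) ≤ u1 := card_Ico_le u0 u1
  have hcard2 : ((Ico u0 u1).card : ℝ) ^ 2 ≤ exp L :=
    (pow_le_pow_left₀ (by positivity) hcard 2).trans (num_card hbe hbe1 hL)
  have hK : 0 ≤ C * (1 + C1) := by positivity
  calc ∫ t in D, ‖∑ u ∈ Ico u0 u1, Pp (cell H u) t * Ru lam X H u0 u1 u t‖ ^ 2
      ≤ ((Ico u0 u1).card : ℝ) * ∑ u ∈ Ico u0 u1, e u * ∫ t in D,
        ‖Ru lam X H u0 u1 u t‖ ^ 2 := hstep1
    _ ≤ ((Ico u0 u1).card : ℝ) * ∑ _u ∈ Ico u0 u1, C * (1 + C1) * exp (-(4 * L)) :=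
        mul_le_mul_of_nonneg_left (Finset.sum_le_sum hterm) (by positivity)
    _ = ((Ico u0 u1).card : ℝ) ^ 2 * (C * (1 + C1) * exp (-(4 * L))) := by
        rw [Finset.sum_const, nsmul_eq_mul]
        ring
    _ ≤ exp L * (C * (1 + C1) * exp (-(4 * L))) :=
        mul_le_mul_of_nonneg_right hcard2 (by positivity)
    _ = C * (1 + C1) * exp (-(3 * L)) := by
        rw [show exp (-(3 * L)) = exp L * exp (-(4 * L)) by
          rw [← Real.exp_add]
          congr 1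
          ring]
        ring
    _ ≤ C * (1 + C1) * exp (-(be * L / 4)) := by
        refine mul_le_mul_of_nonneg_left (Real.exp_le_exp.2 ?_) hK
        nlinarith

end Pool.Agent.MOM
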